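import Pool.Agent.R674.Ce.Congr
import Pool.Agent.R674.KB.Main
import Pool.Agent.Y63.NV.Nalt
import Pool.Agent.Y63.NV.PeL

/-!
# The blockwise Knörr-Robinson sum and normal subgroups of index `p`
-/

set_option autoImplicit false

open scoped Classical

set_option linter.unusedSectionVars false

noncomputable section

namespace Pool.Agent.R674.Ce

open Pool.Agent.Y63.KR (IsPChain chainStabilizer conjSub conjSub_eq_iff mem_chainStabilizer)
open Pool.Agent.Y63.NV
open Pool.Agent.Y63.AWC (IsIrreducibleCharacter)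

variable {p : ℕ} [Fact p.Prime] {F : Type} [Field F] [IsAlgClosed F] [CharP F p]
  (red : integralClosure ℤ ℂ →+* F) {Γ : Type} [Group Γ] [Finite Γ] {G : Subgroup Γ}

/-- the alternating sum of the numbers of characters `ϑ` of the stabilisers with
`ω_ϑ(z) = c`, each multiplied by the order of the stabiliser -/
def AB (p : ℕ) (red : integralClosure ℤ ℂ →+* F) {Γ : Type} [Group Γ] (z : Γ → F) (c : F) : ℤ :=
  ∑ᶠ σ : {σ : Set (Subgroup Γ) // IsPChain p σ}, (-1) ^ σ.1.ncard *
    ((Nat.card (chainStabilizer σ.1) : ℤ) * Knum red (fun x : chainStabilizer σ.1 => z x) c)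

/-- the term of the characters of defect zero -/
def DB (p : ℕ) (red : integralClosure ℤ ℂ →+* F) {Γ : Type} [Group Γ] (z : Γ → F) (c : F) : ℤ :=
  (Nat.card Γ : ℤ) * Nw p red (⊥ : Subgroup Γ) z c

/-- the summand -/
def FL (z : Γ → F) (c : F) (J : Subgroup Γ) : ℤ := Lsum ⊤ J z c

theorem lsum_map {K : Subgroup Γ} (J : Subgroup K) (z : Γ → F) (c : F) :
    Lsum (⊤ : Subgroup K) J (fun x : K => z x) c = Lsum ⊤ (J.map K.subtype) z c := by
  unfold Lsum
  rw [if_pos (top_sup_eq _), if_pos (top_sup_eq _)]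
  have hc : Nat.card J = Nat.card (J.map K.subtype) :=
    Nat.card_congr (Subgroup.equivMapOfInjective J K.subtype K.subtype_injective).toEquiv
  rw [hc]
  congr 2
  let e : ↥((⊤ : Subgroup K) ⊓ J) ≃* ↥((⊤ : Subgroup Γ) ⊓ J.map K.subtype) :=
    { toFun := fun x => ⟨x.1.1, trivial, ⟨x.1, x.2.2, rfl⟩⟩
      invFun := fun y => ⟨⟨y.1, by
        obtain ⟨w, _, hw⟩ := y.2.2
        exact hw ▸ w.2⟩, trivial, by
        obtain ⟨w, hw1, hw⟩ := y.2.2
        have : (⟨y.1, hw ▸ w.2⟩ : K) = w := Subtype.ext hw.symm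
        change (⟨y.1, _⟩ : K) ∈ J
        rw [this]
        exact hw1⟩
      left_inv := fun _ => rfl
      right_inv := fun _ => rfl
      map_mul' := fun _ _ => rfl }
  refine Pool.Agent.Y210.NV2.lnum_congr _ _ _ _ _ _ c e (fun _ => rfl) fun φ => ⟨?_, ?_⟩
  · intro h g hg x y hxy
    exact h (g : Γ) ⟨g, hg, rfl⟩ (e x) (e y) (congrArg Subtype.val hxy)
  · rintro h _ ⟨g, hg, rfl⟩ x y hxy
    exact h g hg (e.symm x) (e.symm y) (Subtype.ext hxy)

theorem AB_eq {z : Γ → F} (hz : IsClassFun z) (c : F) :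
    AB p red z c = ∑ᶠ σ : {σ : Set (Subgroup Γ) // IsPChain p σ}, (-1) ^ σ.1.ncard *
      FL z c (chainStabilizer σ.1) := by
  have : Fintype {σ : Set (Subgroup Γ) // IsPChain p σ} := Fintype.ofFinite _
  unfold AB
  rw [finsum_eq_sum_of_fintype, finsum_eq_sum_of_fintype,
    kl_alt Pool.Agent.R674.KB.kdimh Pool.Agent.R674.KB.kfilt red hz c]
  refine Finset.sum_congr rfl fun σ _ => ?_
  rw [lsum_cut]
  rfl

theorem AB_sub (K : Subgroup Γ) {z : Γ → F} (hz : IsClassFun z) (c : F) :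
    chs (Sp p K) (wt K (FL z c)) = AB p red (fun x : K => z x) c := by
  rw [chs_subgroup, AB_eq red (z := fun x : K => z x) (fun g x => hz g x) c]
  refine finsum_congr fun σ => ?_
  congr 1
  exact (lsum_map _ z c).symm

/-- characters of a subgroup and of its intersection with `G` -/
theorem pell_sub [hG : G.Normal] (hi : G.index = p) {z : Γ → F} (hz : InZ G z) (c : F)
    (H : Subgroup Γ) :
    (p : ℤ) * FL z c H = p * FL z c (G ⊓ H) + (p - 1) * Lsum G H z c := by
  unfold FL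
  by_cases hGH : G ⊔ H = ⊤
  · have hidx : Nat.card (H ⧸ G.subgroupOf H) = p := by
      change (G.subgroupOf H).index = p
      change G.relIndex H = p
      rw [← Subgroup.relIndex_sup_left, hGH, Subgroup.relIndex_top_right, hi]
    have hz' : InZ (G.subgroupOf H) (fun x : H => z x) :=
      ⟨fun g x => hz.conj g x, fun x hx => hz.supp _ fun h => hx (Subgroup.mem_subgroupOf.mpr h)⟩
    have h1 := pell' p F H (G.subgroupOf H) (fun x : H => z x) c hidx hz'
    have e1 : Lsum (⊤ : Subgroup H) ⊤ (fun x : H => z x) c = Lsum ⊤ H z c := by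
      rw [lsum_map]
      congr 1
      rw [← MonoidHom.range_eq_map, Subgroup.range_subtype]
    have e2 : Lsum (⊤ : Subgroup ↥(G.subgroupOf H)) ⊤ (fun x => (fun y : H => z y) x) c =
        Lsum ⊤ (G ⊓ H) z c := by
      rw [lsum_map (Γ := H) (K := G.subgroupOf H) ⊤ (fun y : H => z y) c, lsum_map]
      congr 1
      rw [← MonoidHom.range_eq_map, Subgroup.range_subtype, Subgroup.subgroupOf_map_subtype]
    have e3 : Lsum (G.subgroupOf H) ⊤ (fun x : H => z x) c = Lsum G H z c :=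
      (parts.trl F Γ G H z c hGH).symm
    rw [e1, e3] at h1
    rw [h1]
    congr 1
    rw [← e2]
  · have hHG : H ≤ G := by
      by_contra hc
      apply hGH
      have h1 : G < G ⊔ H := lt_of_le_of_ne le_sup_left fun h => hc (by
        rw [h]; exact le_sup_right)
      have h2 := Subgroup.relIndex_mul_index (H := G) (K := G ⊔ H) le_sup_left
      rw [hi] at h2
      rcases (Nat.dvd_prime (Fact.out : p.Prime)).1 ⟨_, h2.symm⟩ with h4 | h4
      · exact absurd (le_antisymm le_sup_left (Subgroup.relIndex_eq_one.mp h4)) h1.ne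
      · rw [h4] at h2
        exact Subgroup.index_eq_one.mp
          (Nat.eq_of_mul_eq_mul_left (Fact.out : p.Prime).pos (by rw [h2, mul_one]))
    rw [inf_eq_right.mpr hHG, lsum_zero hGH]
    ring

theorem AB_formula [hG : G.Normal] (hi : G.index = p) {z : Γ → F} (hz : InZ G z) (c : F) :
    AB p red z c = AB p red (fun x : G => z x) c -
      ∑ᶠ R : Subgroup Γ, if IsPGroup p R ∧ G ⊔ R = ⊤ ∧ G ⊓ R = ⊥ then
        AB p red (fun x : ↥(G ⊓ Subgroup.centralizer (R : Set Γ)) => z x) c else 0 := by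
  have : Fintype {σ : Set (Subgroup Γ) // IsPChain p σ} := Fintype.ofFinite _
  have hzc : IsClassFun z := hz.conj
  have hp : IsPGroup p (Γ ⧸ G) := IsPGroup.of_card (n := 1) (by
    rw [pow_one]; exact hi)
  have hG1 : G ≠ ⊤ := by
    rintro rfl
    rw [Subgroup.index_top] at hi
    exact (Fact.out : p.Prime).one_lt.ne hi
  have h1 : AB p red z c = chs (Sp p (⊤ : Subgroup Γ)) (wt G (FL z c)) := by
    have hp0 : (p : ℤ) ≠ 0 := by exact_mod_cast (Fact.out : p.Prime).ne_zero
    apply mul_left_cancel₀ hp0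
    rw [AB_eq red hzc, chs_top, finsum_eq_sum_of_fintype, finsum_eq_sum_of_fintype,
      Finset.mul_sum, Finset.mul_sum]
    have h2 := lsum_alt hp hG1 hz c
    have h3 : ∀ σ : {σ : Set (Subgroup Γ) // IsPChain p σ},
        (p : ℤ) * ((-1) ^ σ.1.ncard * FL z c (chainStabilizer σ.1)) =
        (p : ℤ) * ((-1) ^ σ.1.ncard * FL z c (G ⊓ chainStabilizer σ.1)) +
          ((p : ℤ) - 1) * ((-1) ^ σ.1.ncard * Lsum G (chainStabilizer σ.1) z c) := by
      intro σ
      have h4 := pell_sub hi hz c (chainStabilizer σ.1)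
      calc (p : ℤ) * ((-1) ^ σ.1.ncard * FL z c (chainStabilizer σ.1)) =
          (-1) ^ σ.1.ncard * ((p : ℤ) * FL z c (chainStabilizer σ.1)) := by ring
        _ = _ := by rw [h4]; ring
    rw [Finset.sum_congr rfl fun σ _ => h3 σ, Finset.sum_add_distrib, ← Finset.mul_sum _ _ ((p : ℤ) - 1),
      h2, mul_zero, add_zero]
  rw [h1, decomposition hi, AB_sub red G hzc]
  congr 1
  refine finsum_congr fun R => ?_
  split_ifs
  · rw [AB_sub red _ hzc]
  · rfl

lemma cut_bot (Y : Type) [Group Y] (z : Y → F) :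
    cut z (Subgroup.centralizer ((⊥ : Subgroup Y) : Set Y)) = z := by
  funext x
  unfold cut
  rw [if_pos]
  rw [Subgroup.mem_centralizer_iff]
  intro y hy
  rw [Subgroup.mem_bot.mp hy]
  group

/-- invariant characters of defect zero of the whole group -/
lemma nw_top (Y : Type) [Group Y] [Finite Y] (z : Y → F) (hz : IsClassFun z) (c : F) :
    numInvDzL p red (⊤ : Subgroup Y) z c = Nw p red (⊥ : Subgroup Y) z c := by
  have e : Y ≃* (⊤ : Subgroup Y) := Subgroup.topEquiv.symm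
  have h := Pool.Agent.Y587.NV.count (p := p) red (Subgroup.topEquiv (G := Y)).symm.toMonoidHom
    (Subgroup.topEquiv (G := Y)).symm.surjective ⊥
    ((MonoidHom.ker_eq_bot_iff _).mpr (Subgroup.topEquiv (G := Y)).symm.injective)
    IsPGroup.of_bot z hz (fun y => z y) (by
      intro y
      rw [finsum_eq_single _ (y : Y)]
      · rw [if_pos (show (Subgroup.topEquiv (G := Y)).symm.toMonoidHom (y : Y) = y from
          Subtype.ext rfl), cut_bot]
      · intro x hx
        rw [if_neg]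
        intro h
        apply hx
        rw [← h]
        rfl) c
  rw [← h]
  unfold numInvDzL
  refine Nat.card_congr (Equiv.subtypeEquivRight fun χ => ?_)
  constructor
  · rintro ⟨⟨h3, h4, -⟩, h5⟩
    exact ⟨⟨h3, h4⟩, h5⟩
  · rintro ⟨⟨h3, h4⟩, h5⟩
    refine ⟨⟨h3, h4, fun y a b hab => ?_⟩, h5⟩
    obtain ⟨V, i1, i2, i3, ρ, -, rfl⟩ := h3
    have h3 : b = ⟨y, Subgroup.mem_top y⟩ * a * ⟨y, Subgroup.mem_top y⟩⁻¹ := Subtype.ext hab
    rw [h3]
    exact ρ.char_conj _ _

lemma card_norm [hG : G.Normal] (hi : G.index = p) {R : Subgroup Γ} (hR : R ∈ Cpl p G) :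
    Nat.card (Subgroup.normalizer (R : Set Γ)) =
      Nat.card ↥(G ⊓ Subgroup.centralizer (R : Set Γ)) * p := by
  have e := MulEquiv.ofBijective _ (toLoc_bij hR)
  have h3 := Subgroup.card_eq_card_quotient_mul_card_subgroup
    (R.subgroupOf (Subgroup.normalizer (R : Set Γ)))
  rw [h3, ← Nat.card_congr e.toEquiv]
  congr 1
  rw [← cpl_card hi hR]
  exact Nat.card_congr (Subgroup.subgroupOfEquivOfLe Subgroup.le_normalizer).toEquiv

theorem DB_formula [hG : G.Normal] (hi : G.index = p) {z : Γ → F} (hz : InZ G z) (c : F) :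
    DB p red z c = DB p red (fun x : G => z x) c -
      ∑ᶠ R : Subgroup Γ, if IsPGroup p R ∧ G ⊔ R = ⊤ ∧ G ⊓ R = ⊥ then
        DB p red (fun x : ↥(G ⊓ Subgroup.centralizer (R : Set Γ)) => z x) c else 0 := by
  have : Fintype (Subgroup Γ) := Fintype.ofFinite _
  have hp : IsPGroup p (Γ ⧸ G) := IsPGroup.of_card (n := 1) (by
    rw [pow_one]; exact hi)
  have h1 := Pool.Agent.Y809.NV.clifL p F red Γ G z c hi hz
  have h2 := Pool.Agent.Y604.NV.dgn2L p F Γ G z c hp hz
  rw [← Pool.Agent.Y925.NV.dgn1L p F red Γ G z c hp hz, finsum_eq_sum_of_fintype] at h2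
  have hcard : (Nat.card Γ : ℤ) = Nat.card G * p := by
    have := G.card_mul_index
    rw [hi] at this
    exact_mod_cast this.symm
  have hp0 : (p : ℤ) ≠ 0 := by exact_mod_cast (Fact.out : p.Prime).ne_zero
  have h3 : (Nat.card Γ : ℤ) * (numInvDzL p red G z c : ℤ) = ∑ R : Subgroup Γ,
      if IsPGroup p R ∧ G ⊔ R = ⊤ ∧ G ⊓ R = ⊥ then
        (p : ℤ) * DB p red (fun x : ↥(G ⊓ Subgroup.centralizer (R : Set Γ)) => z x) c else 0 := by
    have h4 := congrArg (Nat.cast : ℕ → ℤ) h2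
    push_cast at h4
    rw [h4]
    refine Finset.sum_congr rfl fun R _ => ?_
    split_ifs with hR
    · have hzK : InZ (⊤ : Subgroup ↥(G ⊓ Subgroup.centralizer (R : Set Γ))) (fun x => z x) :=
        ⟨fun g x => hz.conj g x, fun x hx => absurd (Subgroup.mem_top x) hx⟩
      rw [← Pool.Agent.Y925.NV.dgn1L p F red ↥(G ⊓ Subgroup.centralizer (R : Set Γ)) ⊤
        (fun x => z x) c (pgroup_top p _) hzK,
        nw_top red ↥(G ⊓ Subgroup.centralizer (R : Set Γ)) (fun x => z x)
          (fun g x => hz.conj g x) c, card_norm hi hR]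
      unfold DB
      push_cast
      ring
    · rfl
  have h5 : ∑ R : Subgroup Γ, (if IsPGroup p R ∧ G ⊔ R = ⊤ ∧ G ⊓ R = ⊥ then
        (p : ℤ) * DB p red (fun x : ↥(G ⊓ Subgroup.centralizer (R : Set Γ)) => z x) c else 0) =
      p * ∑ R : Subgroup Γ, (if IsPGroup p R ∧ G ⊔ R = ⊤ ∧ G ⊓ R = ⊥ then
        DB p red (fun x : ↥(G ⊓ Subgroup.centralizer (R : Set Γ)) => z x) c else 0) := by
    rw [Finset.mul_sum]
    refine Finset.sum_congr rfl fun R _ => ?_
    split_ifs <;> simp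
  rw [h5, hcard] at h3
  have h6 : (Nat.card G : ℤ) * (numInvDzL p red G z c : ℤ) =
      ∑ R : Subgroup Γ, (if IsPGroup p R ∧ G ⊔ R = ⊤ ∧ G ⊓ R = ⊥ then
        DB p red (fun x : ↥(G ⊓ Subgroup.centralizer (R : Set Γ)) => z x) c else 0) := by
    apply mul_left_cancel₀ hp0
    rw [← h3]
    ring
  rw [finsum_eq_sum_of_fintype, ← h6]
  unfold DB
  rw [hcard]
  have h7 : (p : ℤ) * (Nw p red (⊥ : Subgroup Γ) z c : ℤ) + (numInvDzL p red G z c : ℤ) =
      (Nw p red (⊥ : Subgroup G) (fun x => z x) c : ℤ) := by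
    exact_mod_cast h1
  rw [← h7]
  ring

/-- the difference of the two sides -/
def dB (p : ℕ) (red : integralClosure ℤ ℂ →+* F) {Γ : Type} [Group Γ] (z : Γ → F) (c : F) : ℤ :=
  AB p red z c - DB p red z c

theorem dB_formula [hG : G.Normal] (hi : G.index = p) {z : Γ → F} (hz : InZ G z) (c : F) :
    dB p red z c = dB p red (fun x : G => z x) c -
      ∑ᶠ R : Subgroup Γ, if IsPGroup p R ∧ G ⊔ R = ⊤ ∧ G ⊓ R = ⊥ then
        dB p red (fun x : ↥(G ⊓ Subgroup.centralizer (R : Set Γ)) => z x) c else 0 := by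
  have : Fintype (Subgroup Γ) := Fintype.ofFinite _
  unfold dB
  rw [AB_formula red hi hz, DB_formula red hi hz]
  simp only [finsum_eq_sum_of_fintype]
  have : ∀ R : Subgroup Γ, (if IsPGroup p R ∧ G ⊔ R = ⊤ ∧ G ⊓ R = ⊥ then
        AB p red (fun x : ↥(G ⊓ Subgroup.centralizer (R : Set Γ)) => z x) c -
          DB p red (fun x : ↥(G ⊓ Subgroup.centralizer (R : Set Γ)) => z x) c else 0) =
      (if IsPGroup p R ∧ G ⊔ R = ⊤ ∧ G ⊓ R = ⊥ then
        AB p red (fun x : ↥(G ⊓ Subgroup.centralizer (R : Set Γ)) => z x) c else 0) -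
      (if IsPGroup p R ∧ G ⊔ R = ⊤ ∧ G ⊓ R = ⊥ then
        DB p red (fun x : ↥(G ⊓ Subgroup.centralizer (R : Set Γ)) => z x) c else 0) := by
    intro R
    split_ifs <;> simp
  rw [Finset.sum_congr rfl fun R _ => this R, Finset.sum_sub_distrib]
  ring

end Pool.Agent.R674.Ce
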