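import Pool.Agent.R674.Ce.Congr

/-!
# Induction along extensions by `p`-groups
-/

set_option autoImplicit false

open scoped Classical

set_option linter.unusedSectionVars false

noncomputable section

namespace Pool.Agent.R674.Ce

open Pool.Agent.Y63.KR (IsPChain chainStabilizer conjSub conjSub_eq_iff mem_chainStabilizer
  mem_conjSub conjSub_le conj_mem_conjSub)

lemma ind_sub (P : ∀ (H : Type) [Group H] [Finite H], Prop)
    (hP : ∀ (H K : Type) [Group H] [Finite H] [Group K] [Finite K], Nonempty (H ≃* K) → P H → P K)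
    {Γ : Type} [Group Γ] [Finite Γ] {K G : Subgroup Γ} (R : Subgroup K) (L : Subgroup Γ)
    (hL : ∀ x : Γ, x ∈ L ↔ x ∈ G ∧ x ∈ K ∧ ∀ r ∈ R, (r : Γ) * x = x * r) (h : P ↥L) :
    P ↥(G.subgroupOf K ⊓ Subgroup.centralizer (R : Set K)) := by
  refine hP _ _ ⟨?_⟩ h
  exact
    { toFun := fun x => ⟨⟨x.1, ((hL x).1 x.2).2.1⟩, Subgroup.mem_inf.mpr ⟨((hL x).1 x.2).1,
        Subgroup.mem_centralizer_iff.mpr fun r hr => Subtype.ext (((hL x).1 x.2).2.2 r hr)⟩⟩
      invFun := fun y => ⟨y.1.1, (hL _).2 ⟨(Subgroup.mem_inf.mp y.2).1, y.1.2, fun r hr =>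
        congrArg Subtype.val
          (Subgroup.mem_centralizer_iff.mp (Subgroup.mem_inf.mp y.2).2 r hr)⟩⟩
      left_inv := fun x => rfl
      right_inv := fun y => rfl
      map_mul' := fun x y => rfl }

/-- **Induction along extensions by `p`-groups.** -/
theorem ind_ext {p : ℕ} [Fact p.Prime] (P : ∀ (H : Type) [Group H] [Finite H], Prop)
    (hP : ∀ (H K : Type) [Group H] [Finite H] [Group K] [Finite K], Nonempty (H ≃* K) → P H → P K)
    (hstep : ∀ (Γ : Type) [Group Γ] [Finite Γ] (M : Subgroup Γ) [M.Normal], M.index = p →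
      P M → (∀ S : Subgroup Γ, IsPGroup p S ∧ M ⊔ S = ⊤ ∧ M ⊓ S = ⊥ →
        P ↥(M ⊓ Subgroup.centralizer (S : Set Γ))) → P Γ) :
    ∀ (n : ℕ) (Γ : Type) [Group Γ] [Finite Γ] (G : Subgroup Γ)
    [G.Normal], G.index ≤ n → IsPGroup p (Γ ⧸ G) →
    (∀ R : Subgroup Γ, IsElAb p R → G ⊓ R = ⊥ →
      P ↥(G ⊓ Subgroup.centralizer (R : Set Γ))) → P Γ := by
  intro n
  induction n with
  | zero =>
    intro Γ _ _ G _ hn _ _
    have : G.index ≠ 0 := Subgroup.index_ne_zero_of_finite
    omega
  | succ n ih =>
    intro Γ _ _ G hGn hn hp h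
    by_cases hG : G = ⊤
    · subst hG
      have h1 := h ⊥ ⟨fun x hx => by rw [Subgroup.mem_bot.mp hx, one_pow], fun x hx y hy => by
        rw [Subgroup.mem_bot.mp hx, Subgroup.mem_bot.mp hy]⟩ (inf_bot_eq _)
      refine hP _ _ ⟨?_⟩ h1
      refine (MulEquiv.subgroupCongr ?_).trans Subgroup.topEquiv
      rw [top_inf_eq, eq_top_iff]
      intro x _
      rw [Subgroup.mem_centralizer_iff]
      intro y hy
      rw [Subgroup.mem_bot.mp hy]
      group
    · -- a normal subgroup of index `p` containing `G`
      obtain ⟨M, hMn, hMi, hGM⟩ : ∃ M : Subgroup Γ, M.Normal ∧ M.index = p ∧ G ≤ M := by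
        obtain ⟨k, hk⟩ := IsPGroup.iff_card.1 hp
        have hk0 : k ≠ 0 := by
          intro h0
          rw [h0, pow_zero] at hk
          exact hG (Subgroup.index_eq_one.1 hk)
        have hpr : p.Prime := Fact.out
        obtain ⟨N', hN'⟩ := Sylow.exists_subgroup_card_pow_prime (G := Γ ⧸ G) p (n := k - 1)
          (by rw [hk]; exact pow_dvd_pow p (Nat.sub_le k 1))
        have hi : N'.index = p := by
          have e1 := N'.card_mul_index
          rw [hN', hk] at e1
          have e2 : p ^ k = p ^ (k - 1) * p := by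
            rw [← pow_succ]
            congr 1
            omega
          rw [e2] at e1
          exact Nat.eq_of_mul_eq_mul_left (pow_pos hpr.pos _) e1
        have hN'n : N'.Normal := by
          refine Subgroup.normal_of_index_eq_minFac_card ?_
          rw [hi, hk, hpr.pow_minFac hk0]
        refine ⟨N'.comap (QuotientGroup.mk' G), hN'n.comap _, ?_, ?_⟩
        · rw [Subgroup.index_comap_of_surjective _ (QuotientGroup.mk'_surjective G), hi]
        · intro x hx
          rw [Subgroup.mem_comap]
          have : (QuotientGroup.mk' G) x = 1 := (QuotientGroup.eq_one_iff x).mpr hx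
          rw [this]
          exact N'.one_mem
      -- the induction hypothesis for subgroups of `M`
      have hlt : G.relIndex M < G.index := by
        have e1 := Subgroup.relIndex_mul_index hGM
        rw [hMi] at e1
        have e2 : 0 < G.relIndex M := Nat.pos_of_ne_zero fun e3 => by
          rw [e3, zero_mul] at e1
          exact Subgroup.index_ne_zero_of_finite (H := G) e1.symm
        rw [← e1]
        exact lt_mul_of_one_lt_right e2 (Fact.out : p.Prime).one_lt
      have key : ∀ K : Subgroup Γ, K ≤ M → (∀ R : Subgroup K, IsElAb p R →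
          G.subgroupOf K ⊓ R = ⊥ →
          P ↥(G.subgroupOf K ⊓ Subgroup.centralizer (R : Set K))) → P K := by
        intro K hK hKR
        refine ih K (G.subgroupOf K) ?_ ?_ hKR
        · have e1 : (G.subgroupOf K).index = G.relIndex K := rfl
          have e2 : G.relIndex K ≤ G.relIndex M := by
            refine Subgroup.relIndex_le_of_le_right hK ?_
            intro e3
            have e4 := Subgroup.relIndex_mul_index hGM
            rw [e3, zero_mul] at e4
            exact Subgroup.index_ne_zero_of_finite (H := G) e4.symm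
          omega
        · exact hp.of_injective (QuotientGroup.map (G.subgroupOf K) G K.subtype
            (by intro x hx; exact hx)) (by
            rw [injective_iff_map_eq_one]
            intro x hx
            obtain ⟨y, rfl⟩ := QuotientGroup.mk_surjective x
            rw [QuotientGroup.eq_one_iff]
            have : ((y : Γ) : Γ ⧸ G) = 1 := hx
            exact (QuotientGroup.eq_one_iff (y : Γ)).mp this)
      have hM : P M := by
        refine key M le_rfl fun R hR hGR => ?_
        refine ind_sub P hP R (G ⊓ Subgroup.centralizer ((R.map M.subtype : Subgroup Γ) : Set Γ)) ?_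
          (h _ ⟨?_, ?_⟩ ?_)
        · intro x
          rw [Subgroup.mem_inf, Subgroup.mem_centralizer_iff]
          constructor
          · rintro ⟨h1, h2⟩
            exact ⟨h1, hGM h1, fun r hr => h2 r ⟨r, hr, rfl⟩⟩
          · rintro ⟨h1, _, h2⟩
            refine ⟨h1, ?_⟩
            rintro _ ⟨r, hr, rfl⟩
            exact h2 r hr
        · rintro _ ⟨r, hr, rfl⟩
          rw [← map_pow, hR.1 r hr, map_one]
        · rintro _ ⟨r, hr, rfl⟩ _ ⟨s, hs, rfl⟩
          rw [← map_mul, ← map_mul, hR.2 r hr s hs]
        · rw [eq_bot_iff]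
          rintro _ ⟨h1, ⟨r, hr, rfl⟩⟩
          have h2 : r ∈ G.subgroupOf M ⊓ R := Subgroup.mem_inf.mpr ⟨h1, hr⟩
          rw [hGR, Subgroup.mem_bot] at h2
          rw [h2, Subgroup.mem_bot, map_one]
      refine hstep Γ M hMi hM fun S hS => ?_
      have hS' : S ∈ Cpl p M := hS
      have hSc := cpl_card hMi hS'
      have hSz : ∀ x ∈ S, ∀ y ∈ S, x * y = y * x := by
        have : IsCyclic S := isCyclic_of_prime_card hSc
        intro x hx y hy
        have := (IsCyclic.commGroup (α := S)).mul_comm ⟨x, hx⟩ ⟨y, hy⟩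
        exact congrArg Subtype.val this
      have hSp : ∀ x ∈ S, x ^ p = 1 := by
        intro x hx
        have : (⟨x, hx⟩ : S) ^ p = 1 := by
          rw [← hSc]
          exact pow_card_eq_one'
        exact congrArg Subtype.val this
      obtain ⟨K, hK⟩ : ∃ K : Subgroup Γ, K = M ⊓ Subgroup.centralizer (S : Set Γ) := ⟨_, rfl⟩
      have hKm : ∀ x : Γ, x ∈ K ↔ x ∈ M ∧ ∀ s ∈ S, s * x = x * s := by
        intro x
        rw [hK, Subgroup.mem_inf, Subgroup.mem_centralizer_iff]
        rfl
      rw [← hK]
      refine key K (fun x hx => ((hKm x).1 hx).1) fun R hR hGR => ?_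
      have hRc : ∀ r ∈ R, ∀ s ∈ S, s * (r : Γ) = r * s := fun r hr s hs =>
        ((hKm _).1 r.2).2 s hs
      -- the product
      let E : Subgroup Γ :=
        { carrier := {x | ∃ r ∈ R, ∃ s ∈ S, x = (r : Γ) * s}
          one_mem' := ⟨1, R.one_mem, 1, S.one_mem, by simp⟩
          mul_mem' := by
            rintro _ _ ⟨r, hr, s, hs, rfl⟩ ⟨r', hr', s', hs', rfl⟩
            refine ⟨r * r', R.mul_mem hr hr', s * s', S.mul_mem hs hs', ?_⟩
            rw [Subgroup.coe_mul]
            have := hRc r' hr' s hs
            calc (r : Γ) * s * (r' * s') = r * (s * r') * s' := by group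
              _ = r * (r' * s) * s' := by rw [this]
              _ = r * r' * (s * s') := by group
          inv_mem' := by
            rintro _ ⟨r, hr, s, hs, rfl⟩
            refine ⟨r⁻¹, R.inv_mem hr, s⁻¹, S.inv_mem hs, ?_⟩
            have := hRc r⁻¹ (R.inv_mem hr) s⁻¹ (S.inv_mem hs)
            rw [mul_inv_rev]
            exact this }
      have hE : ∀ x, x ∈ E ↔ ∃ r ∈ R, ∃ s ∈ S, x = (r : Γ) * s := fun x => Iff.rfl
      refine ind_sub P hP R (G ⊓ Subgroup.centralizer (E : Set Γ)) ?_ (h E ⟨?_, ?_⟩ ?_)
      · intro x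
        rw [Subgroup.mem_inf, Subgroup.mem_centralizer_iff]
        constructor
        · rintro ⟨h1, h2⟩
          refine ⟨h1, (hKm x).2 ⟨hGM h1, fun s hs => ?_⟩, fun r hr => ?_⟩
          · exact h2 s ((hE s).2 ⟨1, R.one_mem, s, hs, by simp⟩)
          · exact h2 r ((hE r).2 ⟨r, hr, 1, S.one_mem, by simp⟩)
        · rintro ⟨h1, h3, h2⟩
          refine ⟨h1, ?_⟩
          rintro _ ⟨r, hr, s, hs, rfl⟩
          have h4 := ((hKm x).1 h3).2 s hs
          have h5 := h2 r hr
          calc (r : Γ) * s * x = r * (s * x) := by group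
            _ = r * (x * s) := by rw [h4]
            _ = r * x * s := by group
            _ = x * r * s := by rw [h5]
            _ = x * (r * s) := by group
      · rintro _ ⟨r, hr, s, hs, rfl⟩
        have h4 : Commute (r : Γ) s := (hRc r hr s hs).symm
        rw [h4.mul_pow, hSp s hs, mul_one]
        have := hR.1 r hr
        exact congrArg Subtype.val this
      · rintro _ ⟨r, hr, s, hs, rfl⟩ _ ⟨r', hr', s', hs', rfl⟩
        have h4 : (r : Γ) * r' = r' * r := congrArg Subtype.val (hR.2 r hr r' hr')
        calc (r : Γ) * s * (r' * s') = r * (s * r') * s' := by group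
          _ = r * (r' * s) * s' := by rw [hRc r' hr' s hs]
          _ = r * r' * (s * s') := by group
          _ = r' * r * (s' * s) := by rw [h4, hSz s hs s' hs']
          _ = r' * (r * s') * s := by group
          _ = r' * (s' * r) * s := by rw [hRc r hr s' hs']
          _ = r' * s' * (r * s) := by group
      · rw [eq_bot_iff]
        rintro _ ⟨h1, ⟨r, hr, s, hs, rfl⟩⟩
        have h2 : s ∈ M ⊓ S := by
          refine Subgroup.mem_inf.mpr ⟨?_, hs⟩
          have h3 := M.mul_mem (M.inv_mem ((hKm _).1 r.2).1) (hGM h1)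
          rwa [inv_mul_cancel_left] at h3
        rw [hS.2.2, Subgroup.mem_bot] at h2
        rw [h2, mul_one] at h1 ⊢
        have h3 : r ∈ G.subgroupOf K ⊓ R := Subgroup.mem_inf.mpr ⟨h1, hr⟩
        rw [hGR, Subgroup.mem_bot] at h3
        rw [h3, Subgroup.mem_bot]
        rfl

end Pool.Agent.R674.Ce
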