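import Pool.Agent.R674.Ce.Bl
import Pool.Agent.R674.Ce.Ind
import Pool.Agent.R674.KB.Dz

/-!
# From central elements to blocks
-/

set_option autoImplicit false

open scoped Classical

set_option linter.unusedSectionVars false

noncomputable section

namespace Pool.Agent.R674.Ce

open Pool.Agent.Y63.KR (IsPChain chainStabilizer conjSub conjSub_eq_iff mem_chainStabilizer
  alternatingSum)
open Pool.Agent.Y63.NV
open Pool.Agent.Y63.AWC (IsIrreducibleCharacter)
open Pool.Agent.Y286.NV (exists_sep ZG)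
open Pool.Agent.Y171.NV (EqB eqB_iff Idz irr_fin wt_fin CFm mu mud card_K card_I card_W card_D blk
  mu_apply mud_apply)

variable {p : ℕ} [Fact p.Prime] {F : Type} [Field F] [IsAlgClosed F] [CharP F p]
  (red : integralClosure ℤ ℂ →+* F) {Γ : Type} [Group Γ] [Finite Γ] {G : Subgroup Γ}

lemma zg_le (G : Subgroup Γ) : ZG F G ≤ CFm Γ F := fun _ hz => hz.conj

/-- it is enough to consider the central elements supported on a normal subgroup of index `p` -/
theorem eqB_of_inz [G.Normal] (hG : Nat.card (Γ ⧸ G) = p)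
    (h : ∀ (z : Γ → F) (c : F), InZ G z → Idz p red z c) {B : (Γ → F) → F} (hB : IsBlock B) :
    EqB p red B := by
  have hInf : Infinite F := inferInstance
  have hX : ∀ H : Subgroup Γ, Finite {χ : H → ℂ // IsIrreducibleCharacter χ} := fun H => irr_fin H
  have hY : Finite {χ : Γ → ℂ // IsWt p (⊥ : Subgroup Γ) χ} := wt_fin p Γ
  let I : Type := {χ : Γ → ℂ // IsWt p (⊥ : Subgroup Γ) χ} ⊕
    (Σ σ : {σ : Set (Subgroup Γ) // IsPChain p σ},
      {χ : chainStabilizer σ.1 → ℂ // IsIrreducibleCharacter χ})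
  let μ : I → (ZG F G →ₗ[F] F) := fun i =>
    Sum.elim (fun χ => (mud red χ.1).comp (Submodule.inclusion (zg_le G)))
      (fun q => (mu red (chainStabilizer q.1.1) q.2.1).comp (Submodule.inclusion (zg_le G))) i
  have hI : Finite I := inferInstance
  obtain ⟨z, hz⟩ := exists_sep μ ((blk hB).comp (Submodule.inclusion (zg_le G)))
  have h1 := h z.1 (B z.1) z.2
  have hb : ∀ f : CFm Γ F, B f.1 = blk hB f := fun f => rfl
  have e1 : ∀ σ : {σ : Set (Subgroup Γ) // IsPChain p σ},
      Knum red (fun x : chainStabilizer σ.1 => z.1 x) (B z.1) =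
        numIrrInd red (chainStabilizer σ.1) B := by
    intro σ
    unfold Knum numIrrInd
    refine Nat.card_congr (Equiv.subtypeEquivRight fun χ => ?_)
    constructor
    · rintro ⟨h2, h3⟩
      refine ⟨h2, ?_⟩
      have h4 := hz (Sum.inr ⟨σ, ⟨χ, h2⟩⟩) h3
      have h5 : ∀ w : Γ → F, InZ G w →
          centralValue red χ (fun x : chainStabilizer σ.1 => w x) = B w := by
        intro w hw
        exact congrFun (congrArg DFunLike.coe h4) (⟨w, hw⟩ : ZG F G)
      exact fun f hf => Pool.Agent.Y63.NV.B286.frob p hG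
        (Pool.Agent.R674.KB.kblk p F red Γ σ.1 χ σ.2 h2) hB h5 f hf
    · rintro ⟨h2, h3⟩
      exact ⟨h2, h3 z.1 z.2.conj⟩
  have e2 : Nw p red (⊥ : Subgroup Γ) z.1 (B z.1) = numDzBlock p red B := by
    unfold Nw numDzBlock
    refine Nat.card_congr (Equiv.subtypeEquivRight fun χ => ?_)
    constructor
    · rintro ⟨h2, h3⟩
      refine ⟨h2, ?_⟩
      have h4 := hz (Sum.inl ⟨χ, h2⟩) h3
      have h5 : ∀ w : Γ → F, InZ G w → centralValue red χ w = B w := by
        intro w hw
        exact congrFun (congrArg DFunLike.coe h4) (⟨w, hw⟩ : ZG F G)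
      exact fun f hf => Pool.Agent.Y63.NV.B286.frob p hG
        (Pool.Agent.Y930.NV.cvh F red Γ χ h2.irr) hB h5 f hf
    · rintro ⟨h2, h3⟩
      exact ⟨h2, h3 z.1 z.2.conj⟩
  unfold Idz at h1
  unfold EqB
  rw [← e2, ← h1]
  refine finsum_congr fun σ => ?_
  rw [e1]

theorem idz_iff (z : Γ → F) (c : F) : Idz p red z c ↔ dB p red z c = 0 := by
  unfold Idz dB AB DB
  exact sub_eq_zero.symm

theorem krb_iff : KRB p red Γ ↔ ∀ (z : Γ → F) (c : F), IsClassFun z → dB p red z c = 0 := by
  rw [Pool.Agent.R674.KB.kfin' p F red Γ]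
  refine forall_congr' fun z => forall_congr' fun c => forall_congr' fun hz => ?_
  exact idz_iff red z c

/-- the step of the induction -/
theorem krb_step [G.Normal] (hi : G.index = p) (hG : KRB p red G)
    (hR : ∀ S : Subgroup Γ, IsPGroup p S ∧ G ⊔ S = ⊤ ∧ G ⊓ S = ⊥ →
      KRB p red ↥(G ⊓ Subgroup.centralizer (S : Set Γ))) : KRB p red Γ := by
  intro B hB
  rw [eqB_iff]
  refine eqB_of_inz red (G := G) hi (fun z c hz => ?_) hB
  rw [idz_iff, dB_formula red hi hz, (krb_iff red).1 hG _ c (fun g x => hz.conj g x), zero_sub,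
    neg_eq_zero]
  refine finsum_eq_zero_of_forall_eq_zero fun R => ?_
  split_ifs with h
  · exact (krb_iff red).1 (hR R h) _ c (fun g x => hz.conj g x)
  · rfl

/-! ### Invariance under isomorphisms -/

theorem chsum_congr {Δ : Type} [Group Δ] [Finite Δ] (e : Δ ≃* Γ) (f : Subgroup Δ → ℤ)
    (g : Subgroup Γ → ℤ) (h : ∀ J : Subgroup Δ, f J = g (J.map e.toMonoidHom)) :
    ∑ᶠ σ : {σ : Set (Subgroup Δ) // IsPChain p σ}, (-1) ^ σ.1.ncard * f (chainStabilizer σ.1) =
      ∑ᶠ σ : {σ : Set (Subgroup Γ) // IsPChain p σ},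
        (-1) ^ σ.1.ncard * g (chainStabilizer σ.1) := by
  have hinj : Function.Injective (fun P : Subgroup Δ => P.map e.toMonoidHom) :=
    Subgroup.map_injective e.injective
  have hle : ∀ P Q : Subgroup Δ, P.map e.toMonoidHom ≤ Q.map e.toMonoidHom ↔ P ≤ Q := fun P Q =>
    Subgroup.map_le_map_iff_of_injective e.injective
  have hback : ∀ P : Subgroup Γ, (P.comap e.toMonoidHom).map e.toMonoidHom = P := fun P =>
    Subgroup.map_comap_eq_self_of_surjective e.surjective P
  refine finsum_eq_of_bijective (fun σ : {σ : Set (Subgroup Δ) // IsPChain p σ} =>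
    (⟨(fun P : Subgroup Δ => P.map e.toMonoidHom) '' σ.1, ⟨?_, ?_, ?_⟩⟩ :
      {σ : Set (Subgroup Γ) // IsPChain p σ})) ⟨?_, ?_⟩ ?_
  · rintro _ ⟨P, hP, rfl⟩ _ ⟨Q, hQ, rfl⟩ _
    rcases σ.2.chain.total hP hQ with h | h
    · exact Or.inl ((hle P Q).2 h)
    · exact Or.inr ((hle Q P).2 h)
  · rintro _ ⟨P, hP, rfl⟩
    exact (σ.2.isPGroup P hP).map _
  · rintro _ ⟨P, hP, rfl⟩ h
    exact σ.2.ne_bot P hP ((Subgroup.map_eq_bot_iff_of_injective P e.injective).1 h)
  · intro σ τ h
    have h1 := congrArg Subtype.val h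
    exact Subtype.ext (hinj.image_injective h1)
  · rintro ⟨τ, h1, h2, h3⟩
    refine ⟨⟨(fun P : Subgroup Γ => P.comap e.toMonoidHom) '' τ, ⟨?_, ?_, ?_⟩⟩, ?_⟩
    · rintro _ ⟨P, hP, rfl⟩ _ ⟨Q, hQ, rfl⟩ _
      rcases h1.total hP hQ with h | h
      · exact Or.inl (Subgroup.comap_mono h)
      · exact Or.inr (Subgroup.comap_mono h)
    · rintro _ ⟨P, hP, rfl⟩
      exact (h2 P hP).comap_of_injective _ e.injective
    · rintro _ ⟨P, hP, rfl⟩ h
      apply h3 P hP
      rw [← hback P]
      change (P.comap e.toMonoidHom).map e.toMonoidHom = ⊥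
      rw [show P.comap e.toMonoidHom = ⊥ from h, Subgroup.map_bot]
    · apply Subtype.ext
      change (fun P : Subgroup Δ => P.map e.toMonoidHom) ''
        ((fun P : Subgroup Γ => P.comap e.toMonoidHom) '' τ) = τ
      rw [← Set.image_comp]
      ext P
      constructor
      · rintro ⟨Q, hQ, rfl⟩
        change (Q.comap e.toMonoidHom).map e.toMonoidHom ∈ τ
        rw [hback]
        exact hQ
      · intro hP
        exact ⟨P, hP, hback P⟩
  · intro σ
    change _ = (-1) ^ ((fun P : Subgroup Δ => P.map e.toMonoidHom) '' σ.1).ncard *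
      g (chainStabilizer ((fun P : Subgroup Δ => P.map e.toMonoidHom) '' σ.1))
    rw [Set.ncard_image_of_injective _ hinj, h]
    congr 2
    ext y
    obtain ⟨x, rfl⟩ := e.surjective y
    rw [Subgroup.mem_map, mem_chainStabilizer]
    constructor
    · rintro ⟨x', hx', hxx⟩
      have hx2 : x' = x := e.injective hxx
      subst hx2
      rintro _ ⟨P, hP, rfl⟩
      change conjSub (e x') (P.map e.toMonoidHom) = P.map e.toMonoidHom
      rw [conjSub_map_equiv, mem_chainStabilizer.mp hx' P hP]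
    · intro h4
      refine ⟨x, mem_chainStabilizer.mpr fun P hP => ?_, rfl⟩
      have h5 := h4 _ ⟨P, hP, rfl⟩
      change conjSub (e x) (P.map e.toMonoidHom) = P.map e.toMonoidHom at h5
      rw [conjSub_map_equiv] at h5
      exact hinj h5

lemma fl_map {Δ : Type} [Group Δ] [Finite Δ] (e : Δ ≃* Γ) (z : Γ → F) (c : F) (J : Subgroup Δ) :
    FL (fun x => z (e x)) c J = FL z c (J.map e.toMonoidHom) := by
  unfold FL Lsum
  rw [if_pos (top_sup_eq _), if_pos (top_sup_eq _)]
  have hc : Nat.card J = Nat.card (J.map e.toMonoidHom) :=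
    Nat.card_congr (Subgroup.equivMapOfInjective J e.toMonoidHom e.injective).toEquiv
  rw [hc]
  congr 2
  let E : ↥((⊤ : Subgroup Δ) ⊓ J) ≃* ↥((⊤ : Subgroup Γ) ⊓ J.map e.toMonoidHom) :=
    { toFun := fun x => ⟨e x.1, trivial, ⟨x.1, x.2.2, rfl⟩⟩
      invFun := fun y => ⟨e.symm y.1, trivial, by
        obtain ⟨w, hw1, hw⟩ := y.2.2
        have : e.symm y.1 = w := by
          rw [MulEquiv.symm_apply_eq]
          exact hw.symm
        change e.symm y.1 ∈ J
        rw [this]
        exact hw1⟩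
      left_inv := fun x => Subtype.ext (e.symm_apply_apply _)
      right_inv := fun y => Subtype.ext (e.apply_symm_apply _)
      map_mul' := fun x y => Subtype.ext (map_mul e _ _) }
  have hEv : ∀ x, ((E x : ↥((⊤ : Subgroup Γ) ⊓ J.map e.toMonoidHom)) : Γ) = e x := fun _ => rfl
  refine Pool.Agent.Y210.NV2.lnum_congr _ _ _ _ _ _ c E (fun _ => rfl) fun φ => ⟨?_, ?_⟩
  · intro h g hg x y hxy
    refine h (e g) ⟨g, hg, rfl⟩ (E x) (E y) ?_
    rw [hEv, hEv, hxy, map_mul, map_mul, map_inv]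
  · rintro h _ ⟨g, hg, rfl⟩ x y hxy
    have h1 : φ (E (E.symm y)) = φ (E (E.symm x)) := h g hg (E.symm x) (E.symm y) (by
      apply e.injective
      rw [map_mul, map_mul, map_inv, ← hEv, ← hEv, E.apply_symm_apply, E.apply_symm_apply]
      exact hxy)
    rwa [E.apply_symm_apply, E.apply_symm_apply] at h1

theorem krb_congr {Δ : Type} [Group Δ] [Finite Δ] (e : Δ ≃* Γ) (h : KRB p red Δ) :
    KRB p red Γ := by
  rw [krb_iff] at h ⊢
  intro z c hz
  have hz' : IsClassFun (fun x : Δ => z (e x)) := by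
    intro g x
    change z (e (g * x * g⁻¹)) = z (e x)
    rw [map_mul, map_mul, map_inv]
    exact hz _ _
  have h1 := h (fun x => z (e x)) c hz'
  unfold dB at h1 ⊢
  have e1 : AB p red (fun x : Δ => z (e x)) c = AB p red z c := by
    rw [AB_eq red hz', AB_eq red hz]
    exact chsum_congr e _ _ (fl_map e z c)
  have e2 : DB p red (fun x : Δ => z (e x)) c = DB p red z c := by
    unfold DB
    rw [Nat.card_congr e.toEquiv, Pool.Agent.Y624.NV.nw_congr p red e (Q := (⊥ : Subgroup Δ))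
      (Q' := (⊥ : Subgroup Γ)) (fun x => by
        rw [Subgroup.mem_bot, Subgroup.mem_bot, MulEquiv.map_eq_one_iff]) (fun x => rfl) hz c]
  rw [← e1, ← e2]
  exact h1

/-- **The blockwise Knörr-Robinson conjecture for extensions by `p`-groups of a fixed group.** -/
theorem krb_ext (Γ : Type) [Group Γ] [Finite Γ] (G : Subgroup Γ) [G.Normal]
    (hp : IsPGroup p (Γ ⧸ G))
    (h : ∀ R : Subgroup Γ, IsElAb p R → G ⊓ R = ⊥ →
      KRB p red ↥(G ⊓ Subgroup.centralizer (R : Set Γ))) : KRB p red Γ := by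
  refine ind_ext (p := p) (fun H _ _ => KRB p red H) (fun H K _ _ _ _ ⟨e⟩ h => krb_congr red e h)
    (fun Γ _ _ M _ hi hM hS => krb_step red hi hM hS) G.index Γ G le_rfl hp h

end Pool.Agent.R674.Ce
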