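import Pool.Agent.R674.Ce.Bl2

/-!
# Groups with a nontrivial normal `p`-subgroup
-/

set_option autoImplicit false

open scoped Classical

set_option linter.unusedSectionVars false

noncomputable section

namespace Pool.Agent.R674.Ce

open Pool.Agent.Y63.KR (IsPChain chainStabilizer conjSub conjSub_eq_iff mem_chainStabilizer
  alternatingSum)
open Pool.Agent.Y63.NV
open Pool.Agent.Y63.AWC (IsIrreducibleCharacter)

variable {p : ℕ} [Fact p.Prime] {Γ : Type} [Group Γ] [Finite Γ]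

lemma chs_singleton {U : Subgroup Γ} [U.Normal] (F : Subgroup Γ → ℤ) :
    chs {U} (wt ⊤ F) = 0 := by
  have : Fintype (Set (Subgroup Γ)) := Fintype.ofFinite _
  rw [chs_eq]
  have e : (Finset.univ : Finset (Set (Subgroup Γ))).filter
      (fun σ => σ ⊆ {U} ∧ IsChain (· ≤ ·) σ) = {∅, {U}} := by
    ext σ
    simp only [Finset.mem_filter, Finset.mem_univ, true_and, Finset.mem_insert,
      Finset.mem_singleton]
    constructor
    · rintro ⟨h, _⟩
      exact Set.subset_singleton_iff_eq.mp h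
    · rintro (rfl | rfl)
      · exact ⟨Set.empty_subset _, Set.pairwise_empty _⟩
      · exact ⟨le_rfl, Set.pairwise_singleton _ _⟩
  rw [e, Finset.sum_pair (by
    intro h
    have : U ∈ (∅ : Set (Subgroup Γ)) := by rw [h]; rfl
    exact this)]
  have e1 : chainStabilizer ({U} : Set (Subgroup Γ)) = ⊤ := by
    rw [eq_top_iff]
    intro x _
    rw [mem_chainStabilizer]
    rintro P rfl
    exact conjSub_normal x P
  unfold wt
  rw [e1, chainStabilizer_empty, Set.ncard_empty, Set.ncard_singleton]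
  ring

theorem chs_radical {U : Subgroup Γ} [hUn : U.Normal] (hU : IsPGroup p U) (hU0 : U ≠ ⊥)
    (F : Subgroup Γ → ℤ) : chs (Sp p (⊤ : Subgroup Γ)) (wt ⊤ F) = 0 := by
  have e1 := chs_sub' (J := (⊤ : Subgroup Γ)) F (Sp p ⊤) (fun P => P ⊔ U)
    (by
      rintro P ⟨hP, hP0, _⟩
      refine ⟨IsPGroup.to_sup_of_normal_right hP hU, ?_, le_top⟩
      intro h
      apply hP0
      rw [eq_bot_iff, ← h]
      exact le_sup_left)
    (fun P _ => by
      change P ⊔ U ⊔ U = P ⊔ U
      rw [sup_assoc, sup_idem])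
    (fun P _ Q _ h => sup_le_sup_right h _)
    (fun P _ => le_sup_left)
    (fun P _ x _ h => by rw [conjSub_sup, h, conjSub_normal])
  have e2 := chs_sub (J := (⊤ : Subgroup Γ)) F
    {P : Subgroup Γ | P ∈ Sp p (⊤ : Subgroup Γ) ∧ (fun P => P ⊔ U) P = P} (fun _ => U)
    (fun P _ => ⟨⟨hU, hU0, le_top⟩, sup_idem U⟩)
    (fun P _ => rfl)
    (fun P _ Q _ _ => le_rfl)
    (fun P hP => sup_eq_left.mp hP.2)
    (fun P _ x _ _ => conjSub_normal x U)
  have s2 : {a : Subgroup Γ | a ∈ {P : Subgroup Γ | P ∈ Sp p (⊤ : Subgroup Γ) ∧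
      (fun P => P ⊔ U) P = P} ∧ (fun _ : Subgroup Γ => U) a = a} = {U} := by
    ext P
    constructor
    · rintro ⟨_, h⟩
      exact h.symm
    · intro h
      have h' : P = U := h
      subst h'
      exact ⟨⟨⟨hU, hU0, le_top⟩, sup_idem P⟩, rfl⟩
  rw [s2] at e2
  rw [e1, e2, chs_singleton]

variable {F : Type} [Field F] [IsAlgClosed F] [CharP F p] (red : integralClosure ℤ ℂ →+* F)

theorem krb_radical {U : Subgroup Γ} [hUn : U.Normal] (hU : IsPGroup p U) (hU0 : U ≠ ⊥) :
    KRB p red Γ := by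
  rw [krb_iff]
  intro z c hz
  unfold dB DB
  have e1 : AB p red z c = 0 := by
    have h := chs_radical (p := p) hU hU0 (FL z c)
    rw [chs_top] at h
    rw [AB_eq red hz, ← h]
    refine finsum_congr fun σ => ?_
    rw [top_inf_eq]
  have e2 : Nw p red (⊥ : Subgroup Γ) z c = 0 := by
    unfold Nw
    rw [Nat.card_eq_zero]
    left
    constructor
    rintro ⟨χ, hχ, _⟩
    exact wtn p Γ ⊥ U χ inferInstance hUn hU (bot_lt_iff_ne_bot.mpr hU0) hχ
  rw [e1, e2]
  simp

open Pool.Agent.R674.KB (KRQ krq_iff)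

/-- the final form -/
theorem krq_ext (Γ : Type) [Group Γ] [Finite Γ] (G : Subgroup Γ) [G.Normal]
    (hp : IsPGroup p (Γ ⧸ G))
    (h : ∀ R : Subgroup Γ, IsElAb p R → G ⊓ R = ⊥ →
      (∀ U : Subgroup ↥(G ⊓ Subgroup.centralizer (R : Set Γ)), U.Normal → IsPGroup p U → U = ⊥) →
      KRQ p red ↥(G ⊓ Subgroup.centralizer (R : Set Γ))) : KRQ p red Γ := by
  rw [krq_iff]
  refine krb_ext red Γ G hp fun R hR hGR => ?_
  by_cases hU : ∀ U : Subgroup ↥(G ⊓ Subgroup.centralizer (R : Set Γ)),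
      U.Normal → IsPGroup p U → U = ⊥
  · exact (krq_iff red _).1 (h R hR hGR hU)
  · push Not at hU
    obtain ⟨U, hUn, hUp, hU0⟩ := hU
    exact krb_radical red hUp hU0

end Pool.Agent.R674.Ce
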