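import Pool.Agent.R674.Ce.Congr

/-!
# The difference of the two sides of the Knörr-Robinson conjecture
-/

set_option autoImplicit false

open scoped Classical

set_option linter.unusedSectionVars false

noncomputable section

namespace Pool.Agent.R674.Ce

open Pool.Agent.Y63.KR (KRC altSum_classes alternatingSum chi2)
open Pool.Agent.Y63.AWC (numDefectZero numDefectZero_congr)

/-- The difference `-χ̃₂(S, H) - z_p(H) = k(H) - χ₂(S, H) - z_p(H)` of the two sides of the
Knörr-Robinson conjecture for `H`. -/
def krDiff (p : ℕ) (H : Type) [Group H] : ℚ :=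
  (Nat.card (ConjClasses H) : ℚ) - chi2 p H - (numDefectZero p H : ℚ)

variable {p : ℕ} [Fact p.Prime]

lemma krDiff_eq (H : Type) [Group H] [Finite H] :
    (Nat.card H : ℚ) * krDiff p H = (defK p H : ℚ) := by
  have h := altSum_classes (p := p) (G := H)
  unfold krDiff defK AK DK
  push_cast
  rw [← h]
  ring

lemma krc_iff_diff (H : Type) [Group H] : KRC p H ↔ krDiff p H = 0 := by
  unfold KRC krDiff
  constructor
  · intro h
    rw [h]
    ring
  · intro h
    linarith

theorem defK_congr {Γ Δ : Type} [Group Γ] [Finite Γ] [Group Δ] [Finite Δ] (e : Δ ≃* Γ) :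
    defK p Δ = defK p Γ := by
  unfold defK
  rw [AK_congr e, DK_congr e]

/-- the case in which all elements of order `p` lie in `G` -/
theorem def_omega : ∀ (n : ℕ) (Γ : Type) [Group Γ] [Finite Γ] (G : Subgroup Γ)
    [G.Normal], G.index ≤ n → IsPGroup p (Γ ⧸ G) → (∀ x : Γ, x ^ p = 1 → x ∈ G) →
    defK p Γ = defK p G := by
  intro n
  induction n with
  | zero =>
    intro Γ _ _ G _ hn _ _
    have : G.index ≠ 0 := Subgroup.index_ne_zero_of_finite
    omega
  | succ n ih =>
    intro Γ _ _ G hGn hn hp h
    by_cases hG : G = ⊤
    · subst hG
      exact (defK_congr Subgroup.topEquiv).symm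
    · obtain ⟨M, hMn, hMi, hGM⟩ : ∃ M : Subgroup Γ, M.Normal ∧ M.index = p ∧ G ≤ M := by
        obtain ⟨k, hk⟩ := IsPGroup.iff_card.1 hp
        have hk0 : k ≠ 0 := by
          intro h0
          rw [h0, pow_zero] at hk
          exact hG (Subgroup.index_eq_one.1 hk)
        have hpr : p.Prime := Fact.out
        obtain ⟨N', hN'⟩ := Sylow.exists_subgroup_card_pow_prime (G := Γ ⧸ G) p (n := k - 1)
          (by rw [hk]; exact pow_dvd_pow p (Nat.sub_le k 1))
        have hi : N'.index = p := by
          have e1 := N'.card_mul_index
          rw [hN', hk] at e1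
          have e2 : p ^ k = p ^ (k - 1) * p := by
            rw [← pow_succ]
            congr 1
            omega
          rw [e2] at e1
          exact Nat.eq_of_mul_eq_mul_left (pow_pos hpr.pos _) e1
        have hN'n : N'.Normal := by
          refine Subgroup.normal_of_index_eq_minFac_card ?_
          rw [hi, hk, hpr.pow_minFac hk0]
        refine ⟨N'.comap (QuotientGroup.mk' G), hN'n.comap _, ?_, ?_⟩
        · rw [Subgroup.index_comap_of_surjective _ (QuotientGroup.mk'_surjective G), hi]
        · intro x hx
          rw [Subgroup.mem_comap]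
          have : (QuotientGroup.mk' G) x = 1 := (QuotientGroup.eq_one_iff x).mpr hx
          rw [this]
          exact N'.one_mem
      have e1 : defK p Γ = defK p M := by
        rw [def_formula hMi, finsum_eq_zero_of_forall_eq_zero, sub_zero]
        intro S
        rw [if_neg]
        intro hS
        have hS' : S ∈ Cpl p M := hS
        have hSc := cpl_card hMi hS'
        have h1 : ∀ x ∈ S, x = 1 := by
          intro x hx
          have h2 : x ^ p = 1 := by
            have : (⟨x, hx⟩ : S) ^ p = 1 := by
              rw [← hSc]
              exact pow_card_eq_one'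
            exact congrArg Subtype.val this
          have h3 : x ∈ M ⊓ S := Subgroup.mem_inf.mpr ⟨hGM (h x h2), hx⟩
          rw [hS.2.2, Subgroup.mem_bot] at h3
          exact h3
        refine cpl_ne hMi hS' ?_
        rw [eq_bot_iff]
        intro x hx
        exact Subgroup.mem_bot.mpr (h1 x hx)
      have e2 : defK p M = defK p ↥(G.subgroupOf M) := by
        refine ih M (G.subgroupOf M) ?_ ?_ ?_
        · have e1 : (G.subgroupOf M).index = G.relIndex M := rfl
          have e2 := Subgroup.relIndex_mul_index hGM
          rw [hMi] at e2
          have e3 : 0 < G.relIndex M := Nat.pos_of_ne_zero fun e3 => by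
            rw [e3, zero_mul] at e2
            exact Subgroup.index_ne_zero_of_finite (H := G) e2.symm
          have e4 : G.relIndex M < G.index := by
            rw [← e2]
            exact lt_mul_of_one_lt_right e3 (Fact.out : p.Prime).one_lt
          omega
        · exact hp.of_injective (QuotientGroup.map (G.subgroupOf M) G M.subtype
            (by intro x hx; exact hx)) (by
            rw [injective_iff_map_eq_one]
            intro x hx
            obtain ⟨y, rfl⟩ := QuotientGroup.mk_surjective x
            rw [QuotientGroup.eq_one_iff]
            have : ((y : Γ) : Γ ⧸ G) = 1 := hx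
            exact (QuotientGroup.eq_one_iff (y : Γ)).mp this)
        · intro x hx
          exact h x (congrArg Subtype.val hx)
      rw [e1, e2]
      exact defK_congr (Subgroup.subgroupOfEquivOfLe hGM)

end Pool.Agent.R674.Ce
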