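import Pool.Agent.R674.Ce.Mob2
import Pool.Agent.R674.Ce.Fin

/-!
# The formula for extensions by arbitrary `p`-groups: the Knörr-Robinson sum
-/

set_option autoImplicit false

open scoped Classical

set_option linter.unusedSectionVars false

noncomputable section

namespace Pool.Agent.R674.Ce

variable {Γ : Type} [Group Γ] [Finite Γ] {p : ℕ} [Fact p.Prime]

lemma subgroupOf_normal {K M : Subgroup Γ} (hMn : ∀ k ∈ K, ∀ m ∈ M, k * m * k⁻¹ ∈ M) :
    (M.subgroupOf K).Normal := ⟨fun m hm k => hMn k k.2 m hm⟩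

/-- transport of the sum over the complements -/
theorem sub_finsum {K M : Subgroup Γ} (hMn : ∀ k ∈ K, ∀ m ∈ M, k * m * k⁻¹ ∈ M)
    (hi : M.relIndex K = p) (f : Subgroup Γ → ℤ) (g : Subgroup K → ℤ)
    (h : ∀ S : Subgroup K, g S = f (S.map K.subtype)) :
    (∑ᶠ S : Subgroup K, if IsPGroup p S ∧ M.subgroupOf K ⊔ S = ⊤ ∧ M.subgroupOf K ⊓ S = ⊥ then
      g S else 0) =
    ∑ᶠ S : Subgroup Γ, if S ≤ K ∧ Nat.card S = p ∧ ¬ S ≤ M then f S else 0 := by
  have : Fintype (Subgroup Γ) := Fintype.ofFinite _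
  have : Fintype (Subgroup K) := Fintype.ofFinite _
  have hn := subgroupOf_normal hMn
  have hi' : (M.subgroupOf K).index = p := hi
  have hpr : p.Prime := Fact.out
  rw [finsum_eq_sum_of_fintype, finsum_eq_sum_of_fintype, ← Finset.sum_filter,
    ← Finset.sum_filter]
  refine Finset.sum_bij' (fun S _ => S.map K.subtype) (fun S _ => S.subgroupOf K) ?_ ?_ ?_ ?_ ?_
  · intro S hS
    simp only [Finset.mem_filter, Finset.mem_univ, true_and] at hS ⊢
    have hS' : S ∈ Cpl p (M.subgroupOf K) := hS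
    have hSc := cpl_card hi' hS'
    refine ⟨?_, ?_, ?_⟩
    · rintro _ ⟨x, _, rfl⟩
      exact x.2
    · rw [← hSc]
      exact (Nat.card_congr
        (Subgroup.equivMapOfInjective S K.subtype K.subtype_injective).toEquiv).symm
    · intro h1
      refine cpl_ne hi' hS' ?_
      rw [eq_bot_iff, ← hS.2.2]
      exact le_inf (fun x hx => h1 ⟨x, hx, rfl⟩) le_rfl
  · intro S hS
    simp only [Finset.mem_filter, Finset.mem_univ, true_and] at hS ⊢
    obtain ⟨h1, h2, h3⟩ := hS
    have hc : Nat.card (S.subgroupOf K) = p := by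
      rw [← h2]
      exact Nat.card_congr (Subgroup.subgroupOfEquivOfLe h1).toEquiv
    have hinf : M.subgroupOf K ⊓ S.subgroupOf K = ⊥ := by
      rw [eq_bot_iff]
      rintro x ⟨hx1, hx2⟩
      rw [Subgroup.mem_bot]
      by_contra hx0
      apply h3
      have h4 : (x : Γ) ≠ 1 := fun h5 => hx0 (Subtype.ext h5)
      rw [← zpowers_of_mem h2 hx2 h4, Subgroup.zpowers_le]
      exact hx1
    refine ⟨IsPGroup.of_card (n := 1) (by rw [hc, pow_one]), ?_, hinf⟩
    have h5 : (M.subgroupOf K ⊔ S.subgroupOf K).index ∣ p := by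
      rw [← hi']
      exact Subgroup.index_dvd_of_le le_sup_left
    rcases (Nat.dvd_prime hpr).1 h5 with h6 | h6
    · exact Subgroup.index_eq_one.mp h6
    · exfalso
      have h7 : M.subgroupOf K = M.subgroupOf K ⊔ S.subgroupOf K := by
        refine Subgroup.eq_of_le_of_card_ge le_sup_left ?_
        have e1 := (M.subgroupOf K).card_mul_index
        have e2 := (M.subgroupOf K ⊔ S.subgroupOf K).card_mul_index
        rw [hi'] at e1
        rw [h6, ← e1] at e2
        exact (Nat.eq_of_mul_eq_mul_right hpr.pos e2).le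
      have h8 : S.subgroupOf K ≤ M.subgroupOf K := by
        rw [h7]
        exact le_sup_right
      have h9 : S.subgroupOf K = ⊥ := by
        rw [eq_bot_iff, ← hinf]
        exact le_inf h8 le_rfl
      rw [h9, Subgroup.card_bot] at hc
      exact hpr.one_lt.ne hc
  · intro S hS
    exact Subgroup.comap_map_eq_self_of_injective K.subtype_injective S
  · intro S hS
    simp only [Finset.mem_filter, Finset.mem_univ, true_and] at hS
    exact Subgroup.map_subgroupOf_eq_of_le hS.1
  · intro S hS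
    exact h S

/-- the isomorphism of `C_M(S)` computed in `K` and in `Γ` -/
def centEquiv {K M : Subgroup Γ} (hMK : M ≤ K) (S : Subgroup K) :
    ↥(M.subgroupOf K ⊓ Subgroup.centralizer (S : Set K)) ≃*
      ↥(M ⊓ Subgroup.centralizer ((S.map K.subtype : Subgroup Γ) : Set Γ)) where
  toFun x := ⟨x.1.1, by
    refine Subgroup.mem_inf.mpr ⟨(Subgroup.mem_inf.mp x.2).1, ?_⟩
    rw [Subgroup.mem_centralizer_iff]
    rintro _ ⟨s, hs, rfl⟩
    exact congrArg Subtype.val (Subgroup.mem_centralizer_iff.mp (Subgroup.mem_inf.mp x.2).2 s hs)⟩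
  invFun y := ⟨⟨y.1, hMK (Subgroup.mem_inf.mp y.2).1⟩, by
    refine Subgroup.mem_inf.mpr ⟨(Subgroup.mem_inf.mp y.2).1, ?_⟩
    rw [Subgroup.mem_centralizer_iff]
    intro s hs
    exact Subtype.ext (Subgroup.mem_centralizer_iff.mp (Subgroup.mem_inf.mp y.2).2 s
      ⟨s, hs, rfl⟩)⟩
  left_inv x := rfl
  right_inv y := rfl
  map_mul' x y := rfl

theorem defK_mob (G : Subgroup Γ) [hGn : G.Normal] (hG : IsPGroup p (Γ ⧸ G)) :
    defK p Γ = ∑ᶠ R : Subgroup Γ, if IsElAb p R ∧ G ⊓ R = ⊥ then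
      mob p R * defK p ↥(G ⊓ Subgroup.centralizer (R : Set Γ)) else 0 := by
  have h := mob_formula G hG (fun K => defK p K) (by
    intro K M hMK hGM hMn hMi
    have hn := subgroupOf_normal hMn
    have h1 := def_formula (G := M.subgroupOf K) (p := p) hMi
    rw [sub_finsum hMn hMi (fun S => defK p ↥(M ⊓ Subgroup.centralizer (S : Set Γ))) _
      (fun S => defK_congr (centEquiv hMK S))] at h1
    change defK p K = _
    rw [h1, defK_congr (Subgroup.subgroupOfEquivOfLe hMK)]) (Nat.card (⊤ : Subgroup Γ)) ⊤ le_rfl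
  have h2 : defK p ↥(⊤ : Subgroup Γ) = defK p Γ := defK_congr Subgroup.topEquiv
  rw [← h2]
  refine h.trans (finsum_congr fun R => ?_)
  rw [inf_top_eq]
  by_cases hR : IsElAb p R ∧ G ⊓ R = ⊥
  · rw [if_pos ⟨le_top, hR⟩, if_pos hR]
  · rw [if_neg fun h => hR h.2, if_neg hR]

end Pool.Agent.R674.Ce
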