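import Pool.Agent.R674.Ce.Bl3
import Pool.Agent.R674.Ce.Mob3

/-!
# The blockwise formula for extensions by arbitrary `p`-groups
-/

set_option autoImplicit false

open scoped Classical

set_option linter.unusedSectionVars false

noncomputable section

namespace Pool.Agent.R674.Ce

open Pool.Agent.Y63.KR (IsPChain chainStabilizer conjSub conjSub_eq_iff mem_chainStabilizer
  alternatingSum)
open Pool.Agent.Y63.NV
open Pool.Agent.Y63.AWC (IsIrreducibleCharacter)

variable {p : ℕ} [Fact p.Prime] {F : Type} [Field F] [IsAlgClosed F] [CharP F p]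
  (red : integralClosure ℤ ℂ →+* F) {Γ : Type} [Group Γ] [Finite Γ]

theorem dB_congr {Δ : Type} [Group Δ] [Finite Δ] (e : Δ ≃* Γ) {z : Γ → F} (hz : IsClassFun z)
    (c : F) : dB p red (fun x : Δ => z (e x)) c = dB p red z c := by
  have hz' : IsClassFun (fun x : Δ => z (e x)) := by
    intro g x
    change z (e (g * x * g⁻¹)) = z (e x)
    rw [map_mul, map_mul, map_inv]
    exact hz _ _
  unfold dB
  have e1 : AB p red (fun x : Δ => z (e x)) c = AB p red z c := by
    rw [AB_eq red hz', AB_eq red hz]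
    exact chsum_congr e _ _ (fl_map e z c)
  have e2 : DB p red (fun x : Δ => z (e x)) c = DB p red z c := by
    unfold DB
    rw [Nat.card_congr e.toEquiv, Pool.Agent.Y624.NV.nw_congr p red e (Q := (⊥ : Subgroup Δ))
      (Q' := (⊥ : Subgroup Γ)) (fun x => by
        rw [Subgroup.mem_bot, Subgroup.mem_bot, MulEquiv.map_eq_one_iff]) (fun x => rfl) hz c]
  rw [e1, e2]

/-- **The exact formula.** -/
theorem dB_mob (G : Subgroup Γ) [hGn : G.Normal] (hG : IsPGroup p (Γ ⧸ G)) {z : Γ → F}
    (hz : InZ G z) (c : F) :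
    dB p red z c = ∑ᶠ R : Subgroup Γ, if IsElAb p R ∧ G ⊓ R = ⊥ then
      mob p R * dB p red (fun x : ↥(G ⊓ Subgroup.centralizer (R : Set Γ)) => z x) c else 0 := by
  have h := mob_formula G hG (fun K => dB p red (fun x : K => z x) c) (by
    intro K M hMK hGM hMn hMi
    have hn := subgroupOf_normal hMn
    have hzK : InZ (M.subgroupOf K) (fun x : K => z x) := by
      refine ⟨fun g x => hz.conj g x, fun x hx => hz.supp _ fun hx' => hx ?_⟩
      exact hGM ⟨hx', x.2⟩
    have h1 := dB_formula (G := M.subgroupOf K) (p := p) red hMi hzK c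
    have h3 := sub_finsum hMn hMi
      (fun S => dB p red (fun x : ↥(M ⊓ Subgroup.centralizer (S : Set Γ)) => z x) c)
      (fun S => dB p red
        (fun x : ↥(M.subgroupOf K ⊓ Subgroup.centralizer (S : Set K)) => z (x : K)) c)
      (fun S => dB_congr red (centEquiv hMK S)
        (z := fun x : ↥(M ⊓ Subgroup.centralizer ((S.map K.subtype : Subgroup Γ) : Set Γ)) => z x)
        (fun g x => hz.conj g x) c)
    rw [h3] at h1
    change dB p red (fun x : K => z x) c = _
    rw [h1]
    congr 1
    exact dB_congr red (Subgroup.subgroupOfEquivOfLe hMK) (z := fun x : M => z x)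
      (fun g x => hz.conj g x) c) (Nat.card (⊤ : Subgroup Γ)) ⊤ le_rfl
  have h2 : dB p red (fun x : ↥(⊤ : Subgroup Γ) => z x) c = dB p red z c :=
    dB_congr red Subgroup.topEquiv hz.conj c
  rw [← h2]
  refine h.trans (finsum_congr fun R => ?_)
  rw [inf_top_eq]
  by_cases hR : IsElAb p R ∧ G ⊓ R = ⊥
  · rw [if_pos ⟨le_top, hR⟩, if_pos hR]
  · rw [if_neg fun h => hR h.2, if_neg hR]

end Pool.Agent.R674.Ce
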