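import Pool.Agent.R674.Ce.Frob
import Pool.Agent.R674.KB.Dz

/-!
# The exact formula for a block
-/

set_option autoImplicit false

open scoped Classical

set_option linter.unusedSectionVars false

noncomputable section

namespace Pool.Agent.R674.Ce

open Pool.Agent.Y63.KR (IsPChain chainStabilizer conjSub conjSub_eq_iff mem_chainStabilizer
  alternatingSum)
open Pool.Agent.Y63.NV
open Pool.Agent.Y63.AWC (IsIrreducibleCharacter)
open Pool.Agent.Y286.NV (exists_sep ZG)
open Pool.Agent.Y171.NV (EqB eqB_iff Idz irr_fin wt_fin CFm mu mud card_K card_I card_W card_D blk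
  mu_apply mud_apply)

section

variable {F : Type} [Field F] (p : ℕ) (red : integralClosure ℤ ℂ →+* F) {Γ : Type} [Group Γ]

/-- For a subgroup `J` of `H ≤ Γ`: the number of the irreducible characters `ϑ` of `J` such that the
reduction of the central character of `ϑ` at (the restriction of) `w` is `B(w)` for all central
elements `w` of `F[Γ]` which are supported on `G`. -/
def kRel (G : Subgroup Γ) (B : (Γ → F) → F) {H : Subgroup Γ} (J : Subgroup H) : ℕ :=
  Nat.card {χ : J → ℂ // IsIrreducibleCharacter χ ∧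
    ∀ w : Γ → F, InZ G w → centralValue red χ (fun x : J => w (x : H)) = B w}

/-- For `H ≤ Γ`: the number of the irreducible characters `ϑ` of `H` of `p`-defect zero such that
the reduction of the central character of `ϑ` at (the restriction of) `w` is `B(w)` for all central
elements `w` of `F[Γ]` which are supported on `G`. -/
def zRel (G : Subgroup Γ) (B : (Γ → F) → F) (H : Subgroup Γ) : ℕ :=
  Nat.card {χ : H → ℂ // IsWt p (⊥ : Subgroup H) χ ∧
    ∀ w : Γ → F, InZ G w → centralValue red χ (fun x : H => w x) = B w}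

/-- `∑_σ (-1)^|σ| |H_σ| k(H_σ) - |H| z(H)`, the sum over the chains of nontrivial `p`-subgroups of
`H`, where `k` and `z` count the characters belonging to `B` in the sense of `kRel`, `zRel`. -/
def dRel (G : Subgroup Γ) (B : (Γ → F) → F) (H : Subgroup Γ) : ℤ :=
  (∑ᶠ σ : {σ : Set (Subgroup H) // IsPChain p σ}, (-1) ^ σ.1.ncard *
    ((Nat.card (chainStabilizer σ.1) : ℤ) * (kRel red G B (chainStabilizer σ.1) : ℤ))) -
  (Nat.card H : ℤ) * (zRel p red G B H : ℤ)

/-- `∑_σ (-1)^|σ| |Γ_σ| k(Γ_σ, B) - |Γ| z(B)`, the sum over the chains of nontrivial `p`-subgroups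
of `Γ`, where `k(Γ_σ, B)` is the number of the irreducible characters of `Γ_σ` in blocks inducing
`B` and `z(B)` the number of those of `p`-defect zero in `B`. -/
def dBlk (B : (Γ → F) → F) : ℤ :=
  (∑ᶠ σ : {σ : Set (Subgroup Γ) // IsPChain p σ}, (-1) ^ σ.1.ncard *
    ((Nat.card (chainStabilizer σ.1) : ℤ) * (numIrrInd red (chainStabilizer σ.1) B : ℤ))) -
  (Nat.card Γ : ℤ) * (numDzBlock p red B : ℤ)

end

variable {p : ℕ} [Fact p.Prime] {F : Type} [Field F] [IsAlgClosed F] [CharP F p]
  (red : integralClosure ℤ ℂ →+* F) {Γ : Type} [Group Γ] [Finite Γ] {G : Subgroup Γ}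

/-- restriction to a subgroup -/
def resL (G H : Subgroup Γ) : ZG F G →ₗ[F] CFm ↥H F where
  toFun z := ⟨fun x => z.1 x, fun g x => z.2.conj g x⟩
  map_add' _ _ := rfl
  map_smul' _ _ := rfl

/-- the indices -/
abbrev IT (p : ℕ) (Δ : Type) [Group Δ] : Type := {χ : Δ → ℂ // IsWt p (⊥ : Subgroup Δ) χ} ⊕
    (Σ σ : {σ : Set (Subgroup Δ) // IsPChain p σ},
      {χ : chainStabilizer σ.1 → ℂ // IsIrreducibleCharacter χ})

lemma it_fin (p : ℕ) (Δ : Type) [Group Δ] [Finite Δ] : Finite (IT p Δ) := by
  have hX : ∀ H : Subgroup Δ, Finite {χ : H → ℂ // IsIrreducibleCharacter χ} := fun H => irr_fin H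
  have hY : Finite {χ : Δ → ℂ // IsWt p (⊥ : Subgroup Δ) χ} := wt_fin p Δ
  infer_instance

/-- the functionals -/
def muT (Δ : Type) [Group Δ] [Finite Δ] (i : IT p Δ) : CFm Δ F →ₗ[F] F :=
  Sum.elim (fun χ => mud red χ.1) (fun q => mu red (chainStabilizer q.1.1) q.2.1) i

theorem dBlk_formula [hGn : G.Normal] (hG : IsPGroup p (Γ ⧸ G)) {B : (Γ → F) → F}
    (hB : IsBlock B) :
    dBlk p red B = ∑ᶠ R : Subgroup Γ, if IsElAb p R ∧ G ⊓ R = ⊥ then
      mob p R * dRel p red G B (G ⊓ Subgroup.centralizer (R : Set Γ)) else 0 := by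
  have hInf : Infinite F := inferInstance
  let I : Type := IT p Γ ⊕ (Σ H : Subgroup Γ, IT p H)
  have hIT : Finite (IT p Γ) := it_fin p Γ
  have hIH : ∀ H : Subgroup Γ, Finite (IT p H) := fun H => it_fin p H
  let μ : I → (ZG F G →ₗ[F] F) := fun i =>
    Sum.elim (fun j => (muT red Γ j).comp (Submodule.inclusion (zg_le G)))
      (fun q => (muT red ↥q.1 q.2).comp (resL G q.1)) i
  have hI : Finite I := inferInstance
  obtain ⟨z, hz⟩ := exists_sep μ ((blk hB).comp (Submodule.inclusion (zg_le G)))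
  have h1 := dB_mob red G hG z.2 (B z.1)
  have e0 : dB p red z.1 (B z.1) = dBlk p red B := by
    have e1 : ∀ σ : {σ : Set (Subgroup Γ) // IsPChain p σ},
        Knum red (fun x : chainStabilizer σ.1 => z.1 x) (B z.1) =
          numIrrInd red (chainStabilizer σ.1) B := by
      intro σ
      unfold Knum numIrrInd
      refine Nat.card_congr (Equiv.subtypeEquivRight fun χ => ?_)
      constructor
      · rintro ⟨h2, h3⟩
        refine ⟨h2, ?_⟩
        have h4 := hz (Sum.inl (Sum.inr ⟨σ, ⟨χ, h2⟩⟩)) h3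
        have h5 : ∀ w : Γ → F, InZ G w →
            centralValue red χ (fun x : chainStabilizer σ.1 => w x) = B w := by
          intro w hw
          exact congrFun (congrArg DFunLike.coe h4) (⟨w, hw⟩ : ZG F G)
        exact fun f hf => frob_gen p
          (Pool.Agent.R674.KB.kblk p F red Γ σ.1 χ σ.2 h2) hB G.index G le_rfl hG h5 f hf
      · rintro ⟨h2, h3⟩
        exact ⟨h2, h3 z.1 z.2.conj⟩
    have e2 : Nw p red (⊥ : Subgroup Γ) z.1 (B z.1) = numDzBlock p red B := by
      unfold Nw numDzBlock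
      refine Nat.card_congr (Equiv.subtypeEquivRight fun χ => ?_)
      constructor
      · rintro ⟨h2, h3⟩
        refine ⟨h2, ?_⟩
        have h4 := hz (Sum.inl (Sum.inl ⟨χ, h2⟩)) h3
        have h5 : ∀ w : Γ → F, InZ G w → centralValue red χ w = B w := by
          intro w hw
          exact congrFun (congrArg DFunLike.coe h4) (⟨w, hw⟩ : ZG F G)
        exact fun f hf => frob_gen p
          (Pool.Agent.Y930.NV.cvh F red Γ χ h2.irr) hB G.index G le_rfl hG h5 f hf
      · rintro ⟨h2, h3⟩
        exact ⟨h2, h3 z.1 z.2.conj⟩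
    unfold dB AB DB dBlk
    rw [e2]
    congr 1
    refine finsum_congr fun σ => ?_
    rw [e1]
  have e1 : ∀ H : Subgroup Γ, dB p red (fun x : H => z.1 x) (B z.1) = dRel p red G B H := by
    intro H
    have e1 : ∀ σ : {σ : Set (Subgroup H) // IsPChain p σ},
        Knum red (fun x : chainStabilizer σ.1 => (fun y : H => z.1 y) x) (B z.1) =
          kRel red G B (chainStabilizer σ.1) := by
      intro σ
      unfold Knum kRel
      refine Nat.card_congr (Equiv.subtypeEquivRight fun χ => ?_)
      constructor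
      · rintro ⟨h2, h3⟩
        refine ⟨h2, fun w hw => ?_⟩
        have h4 := hz (Sum.inr ⟨H, Sum.inr ⟨σ, ⟨χ, h2⟩⟩⟩) h3
        exact congrFun (congrArg DFunLike.coe h4) (⟨w, hw⟩ : ZG F G)
      · rintro ⟨h2, h3⟩
        exact ⟨h2, h3 z.1 z.2⟩
    have e2 : Nw p red (⊥ : Subgroup H) (fun x : H => z.1 x) (B z.1) = zRel p red G B H := by
      unfold Nw zRel
      refine Nat.card_congr (Equiv.subtypeEquivRight fun χ => ?_)
      constructor
      · rintro ⟨h2, h3⟩
        refine ⟨h2, fun w hw => ?_⟩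
        have h4 := hz (Sum.inr ⟨H, Sum.inl ⟨χ, h2⟩⟩) h3
        exact congrFun (congrArg DFunLike.coe h4) (⟨w, hw⟩ : ZG F G)
      · rintro ⟨h2, h3⟩
        exact ⟨h2, h3 z.1 z.2⟩
    unfold dB AB DB dRel
    rw [e2]
    congr 1
    refine finsum_congr fun σ => ?_
    rw [e1]
  rw [← e0, h1]
  refine finsum_congr fun R => ?_
  rw [e1]

open Pool.Agent.Y171.NV (numIrrInd_conj card_mul_alt)

/-- invariance under conjugation -/
lemma kRel_conj (G : Subgroup Γ) (B : (Γ → F) → F) {H : Subgroup Γ} (g : H) (J : Subgroup H) :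
    kRel red G B (conjSub g J) = kRel red G B J := by
  let e : J ≃* conjSub g J := (MulAut.conj g).subgroupMap J
  have he : ∀ x : J, ((e x : conjSub g J) : H) = g * x * g⁻¹ := fun x => rfl
  have hval : ∀ χ : conjSub g J → ℂ, IsIrreducibleCharacter χ → ∀ z : Γ → F, InZ G z →
      centralValue red (fun x => χ (e x)) (fun x : J => z (x : H)) =
        centralValue red χ (fun x => z (x : H)) := by
    intro χ hχ z hz
    have h1 := Pool.Agent.Y286.NV.centralValue_comp red e χ (Pool.Agent.Y286.NV.irr_class hχ)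
      (fun x => z (x : H)) (fun a x => hz.conj (a : H) (x : H))
    rw [← h1]
    congr 1
    funext x
    change z (x : H) = z ((e x : conjSub g J) : H)
    rw [he, Subgroup.coe_mul, Subgroup.coe_mul, Subgroup.coe_inv, hz.conj]
  unfold kRel
  refine Nat.card_congr
    { toFun := fun χ => ⟨fun x => χ.1 (e x), Pool.Agent.Y63.AWC.irr_comp e χ.2.1, ?_⟩
      invFun := fun χ => ⟨fun x => χ.1 (e.symm x),
        Pool.Agent.Y63.AWC.irr_comp e.symm χ.2.1, ?_⟩
      left_inv := ?_
      right_inv := ?_ }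
  · intro z hz
    rw [hval χ.1 χ.2.1 z hz]
    exact χ.2.2 z hz
  · intro z hz
    have h1 := hval (fun x => χ.1 (e.symm x)) (Pool.Agent.Y63.AWC.irr_comp e.symm χ.2.1) z hz
    have h2 : (fun x => (fun x => χ.1 (e.symm x)) (e x)) = χ.1 := by
      funext x
      change χ.1 (e.symm (e x)) = χ.1 x
      rw [e.symm_apply_apply]
    rw [h2] at h1
    rw [← h1]
    exact χ.2.2 z hz
  · intro χ
    apply Subtype.ext
    funext x
    change χ.1 (e (e.symm x)) = χ.1 x
    rw [e.apply_symm_apply]
  · intro χ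
    apply Subtype.ext
    funext x
    change χ.1 (e.symm (e x)) = χ.1 x
    rw [e.symm_apply_apply]

/-- For `H ≤ Γ`: the difference `∑_σ (-1)^|σ| k(H_σ) - z(H)`, the sum over representatives of the
`H`-classes of chains of nontrivial `p`-subgroups of `H` (the empty chain included), where `k` and
`z` count the characters belonging to `B` in the sense of `kRel`, `zRel`. -/
def delRel (p : ℕ) {F : Type} [Field F] (red : integralClosure ℤ ℂ →+* F) {Γ : Type} [Group Γ]
    (G : Subgroup Γ) (B : (Γ → F) → F) (H : Subgroup Γ) : ℤ :=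
  alternatingSum p H (fun J => (kRel red G B J : ℤ)) - (zRel p red G B H : ℤ)

/-- The difference `∑_σ (-1)^|σ| k(B_σ) - z(B)` for the block `B` of `Γ`, the sum over
representatives of the classes of chains of nontrivial `p`-subgroups of `Γ` (the empty chain
included); `k(B_σ)` is the number of the irreducible characters of `Γ_σ` in blocks inducing `B`,
and `z(B)` the number of those of `p`-defect zero in `B`. -/
def delBlk (p : ℕ) {F : Type} [Field F] (red : integralClosure ℤ ℂ →+* F) {Γ : Type} [Group Γ]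
    (B : (Γ → F) → F) : ℤ :=
  alternatingSum p Γ (fun J => (numIrrInd red J B : ℤ)) - (numDzBlock p red B : ℤ)

lemma delRel_eq (G : Subgroup Γ) (B : (Γ → F) → F) (H : Subgroup Γ) :
    (Nat.card H : ℤ) * delRel p red G B H = dRel p red G B H := by
  unfold delRel dRel
  rw [mul_sub, card_mul_alt (fun J => (kRel red G B J : ℤ)) (fun g J => by rw [kRel_conj])]

lemma delBlk_eq (B : (Γ → F) → F) :
    (Nat.card Γ : ℤ) * delBlk p red B = dBlk p red B := by
  unfold delBlk dBlk
  rw [mul_sub, card_mul_alt (fun J => (numIrrInd red J B : ℤ))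
    (fun g J => by rw [numIrrInd_conj])]

/-- **The exact formula for blocks.** -/
theorem delBlk_formula [hGn : G.Normal] (hG : IsPGroup p (Γ ⧸ G)) {B : (Γ → F) → F}
    (hB : IsBlock B) :
    (Nat.card Γ : ℤ) * delBlk p red B = ∑ᶠ R : Subgroup Γ, if IsElAb p R ∧ G ⊓ R = ⊥ then
      mob p R * ((Nat.card ↥(G ⊓ Subgroup.centralizer (R : Set Γ)) : ℤ) *
        delRel p red G B (G ⊓ Subgroup.centralizer (R : Set Γ))) else 0 := by
  rw [delBlk_eq, dBlk_formula red hG hB]
  refine finsum_congr fun R => ?_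
  rw [delRel_eq]

end Pool.Agent.R674.Ce
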