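import Pool.Agent.R674.Ce.Tog
import Pool.Agent.Y63.KR.Basic

/-!
# Chains of `p`-subgroups and a normal subgroup of index `p`
-/

set_option autoImplicit false

open scoped Classical

set_option linter.unusedSectionVars false

noncomputable section

namespace Pool.Agent.R674.Ce

open Pool.Agent.Y63.KR (IsPChain chainStabilizer conjSub conjSub_eq_iff mem_chainStabilizer
  mem_conjSub conjSub_le conj_mem_conjSub)

variable {Γ : Type} [Group Γ] [Finite Γ]

/-- the weight of a chain -/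
def wt (J : Subgroup Γ) (F : Subgroup Γ → ℤ) (σ : Set (Subgroup Γ)) : ℤ :=
  (-1) ^ σ.ncard * F (J ⊓ chainStabilizer σ)

lemma wt_insert {J : Subgroup Γ} (F : Subgroup Γ → ℤ) {σ : Set (Subgroup Γ)} {P Q : Subgroup Γ}
    (hP : P ∈ σ) (hQ : Q ∉ σ) (h : ∀ x ∈ J, conjSub x P = P → conjSub x Q = Q) :
    wt J F (insert Q σ) = - wt J F σ := by
  unfold wt
  have e1 : J ⊓ chainStabilizer (insert Q σ) = J ⊓ chainStabilizer σ := by
    ext x
    rw [Subgroup.mem_inf, Subgroup.mem_inf, mem_chainStabilizer, mem_chainStabilizer]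
    constructor
    · rintro ⟨h1, h2⟩
      exact ⟨h1, fun R hR => h2 R (Set.mem_insert_of_mem _ hR)⟩
    · rintro ⟨h1, h2⟩
      refine ⟨h1, ?_⟩
      rintro R (rfl | hR)
      · exact h x h1 (h2 P hP)
      · exact h2 R hR
  rw [e1, Set.ncard_insert_of_notMem hQ (Set.toFinite _), pow_succ]
  ring

theorem chs_sub {J : Subgroup Γ} (F : Subgroup Γ → ℤ) (X : Set (Subgroup Γ))
    (c : Subgroup Γ → Subgroup Γ) (h1 : ∀ a ∈ X, c a ∈ X)
    (h2 : ∀ a ∈ X, c (c a) = c a) (h3 : ∀ a ∈ X, ∀ b ∈ X, a ≤ b → c a ≤ c b)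
    (h4 : ∀ a ∈ X, c a ≤ a) (h5 : ∀ P ∈ X, ∀ x ∈ J, conjSub x P = P → conjSub x (c P) = c P) :
    chs X (wt J F) = chs {a | a ∈ X ∧ c a = a} (wt J F) :=
  chs_closure X c h1 h2 h3 h4 _ fun _ hX _ a ha hn => wt_insert F ha hn (h5 a (hX ha))

theorem chs_sub' {J : Subgroup Γ} (F : Subgroup Γ → ℤ) (X : Set (Subgroup Γ))
    (c : Subgroup Γ → Subgroup Γ) (h1 : ∀ a ∈ X, c a ∈ X)
    (h2 : ∀ a ∈ X, c (c a) = c a) (h3 : ∀ a ∈ X, ∀ b ∈ X, a ≤ b → c a ≤ c b)
    (h4 : ∀ a ∈ X, a ≤ c a) (h5 : ∀ P ∈ X, ∀ x ∈ J, conjSub x P = P → conjSub x (c P) = c P) :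
    chs X (wt J F) = chs {a | a ∈ X ∧ c a = a} (wt J F) :=
  chs_closure' X c h1 h2 h3 h4 _ fun _ hX _ a ha hn => wt_insert F ha hn (h5 a (hX ha))

/-- the nontrivial `p`-subgroups of `K` -/
def Sp (p : ℕ) (K : Subgroup Γ) : Set (Subgroup Γ) := {P | IsPGroup p P ∧ P ≠ ⊥ ∧ P ≤ K}

/-- the complements of `G` -/
def Cpl (p : ℕ) (G : Subgroup Γ) : Set (Subgroup Γ) :=
  {R | IsPGroup p R ∧ G ⊔ R = ⊤ ∧ G ⊓ R = ⊥}

lemma conjSub_inf (x : Γ) (P Q : Subgroup Γ) : conjSub x (P ⊓ Q) = conjSub x P ⊓ conjSub x Q := by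
  ext y
  rw [Subgroup.mem_inf, mem_conjSub, mem_conjSub, mem_conjSub, Subgroup.mem_inf]

lemma conjSub_sup (x : Γ) (P Q : Subgroup Γ) : conjSub x (P ⊔ Q) = conjSub x P ⊔ conjSub x Q := by
  unfold conjSub
  rw [Subgroup.map_sup]

lemma conjSub_self {x : Γ} {J : Subgroup Γ} (hx : x ∈ J) : conjSub x J = J := by
  rw [conjSub_eq_iff]
  exact Subgroup.le_normalizer hx

lemma conjSub_normal (x : Γ) (G : Subgroup Γ) [G.Normal] : conjSub x G = G := by
  rw [conjSub_eq_iff, Subgroup.normalizer_eq_top]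
  trivial

/-- conjugation by an element centralising `R` -/
lemma conjSub_cent {x : Γ} {R : Subgroup Γ} (hx : x ∈ Subgroup.centralizer (R : Set Γ)) :
    conjSub x R = R := by
  rw [conjSub_eq_iff]
  exact Subgroup.centralizer_le_normalizer _ hx

variable {p : ℕ} [Fact p.Prime] {G : Subgroup Γ} [G.Normal]

/-- a `p`-group `P` containing `R` with `P ∩ G ≠ 1` has nontrivial elements of `G` centralising
`R` -/
lemma inf_cent_ne {R P : Subgroup Γ} (hP : IsPGroup p P) (hR : R ≤ P) (h : G ⊓ P ≠ ⊥) :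
    P ⊓ (G ⊓ Subgroup.centralizer (R : Set Γ)) ≠ ⊥ := by
  have hRp : IsPGroup p R := hP.to_le hR
  -- `R` acts on `G ⊓ P` by conjugation
  let V : Subgroup Γ := G ⊓ P
  have hV : IsPGroup p V := hP.to_le inf_le_right
  letI : MulAction R V :=
    { smul := fun r v => ⟨r * v * (r : Γ)⁻¹, by
        refine ⟨‹G.Normal›.conj_mem _ v.2.1 _, ?_⟩
        exact P.mul_mem (P.mul_mem (hR r.2) v.2.2) (P.inv_mem (hR r.2))⟩
      one_smul := fun v => Subtype.ext (by
        change ((1 : R) : Γ) * v * ((1 : R) : Γ)⁻¹ = v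
        simp)
      mul_smul := fun r s v => Subtype.ext (by
        change ((r * s : R) : Γ) * v * ((r * s : R) : Γ)⁻¹ = r * (s * v * (s : Γ)⁻¹) * (r : Γ)⁻¹
        rw [Subgroup.coe_mul]
        group) }
  have hsm : ∀ (r : R) (v : V), ((r • v : V) : Γ) = r * v * (r : Γ)⁻¹ := fun _ _ => rfl
  have h1 := hRp.card_modEq_card_fixedPoints (α := V)
  have h2 : p ∣ Nat.card V := by
    obtain ⟨k, hk⟩ := IsPGroup.iff_card.1 hV
    rw [hk]
    refine dvd_pow_self p ?_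
    rintro rfl
    rw [pow_zero] at hk
    exact h (Subgroup.card_eq_one.mp hk)
  have h3 : p ∣ Nat.card (MulAction.fixedPoints R V) :=
    (Nat.ModEq.dvd_iff h1 dvd_rfl).1 h2
  have h4 : 1 < Nat.card (MulAction.fixedPoints R V) := by
    refine lt_of_lt_of_le (Fact.out : p.Prime).one_lt (Nat.le_of_dvd ?_ h3)
    have : Nonempty (MulAction.fixedPoints R V) := ⟨⟨1, fun r => Subtype.ext (by
      rw [hsm]; simp)⟩⟩
    exact Nat.card_pos
  rw [Finite.one_lt_card_iff_nontrivial] at h4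
  obtain ⟨v, hv⟩ := exists_ne (⟨1, fun r => Subtype.ext (by rw [hsm]; simp)⟩ :
    MulAction.fixedPoints R V)
  intro h5
  apply hv
  apply Subtype.ext
  apply Subtype.ext
  change ((v : V) : Γ) = 1
  have h6 : ((v : V) : Γ) ∈ P ⊓ (G ⊓ Subgroup.centralizer (R : Set Γ)) := by
    refine Subgroup.mem_inf.mpr ⟨(v : V).2.2, Subgroup.mem_inf.mpr ⟨(v : V).2.1,
      Subgroup.mem_centralizer_iff.mpr ?_⟩⟩
    intro r hr
    have h7 := congrArg (Subtype.val) (v.2 ⟨r, hr⟩)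
    rw [hsm] at h7
    change r * (v : V) * r⁻¹ = (v : V) at h7
    rw [mul_inv_eq_iff_eq_mul] at h7
    exact h7
  rw [h5] at h6
  exact Subgroup.mem_bot.mp h6

lemma sup_pg {R A : Subgroup Γ} (hR : IsPGroup p R) (hA : IsPGroup p A)
    (h : A ≤ Subgroup.centralizer (R : Set Γ)) : IsPGroup p ↥(R ⊔ A) := by
  refine IsPGroup.to_sup_of_normal_right' hR hA ?_
  intro r hr
  rw [← conjSub_eq_iff]
  refine conjSub_cent ?_
  rw [Subgroup.mem_centralizer_iff]
  intro a ha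
  have := Subgroup.mem_centralizer_iff.mp (h ha) r hr
  exact this.symm

/-- the chains above a complement `R` -/
theorem chs_above {R : Subgroup Γ} (hR : R ∈ Cpl p G) (hR0 : R ≠ ⊥) (F : Subgroup Γ → ℤ)
    (hcard : ∀ P : Subgroup Γ, IsPGroup p P → R < P → G ⊓ P ≠ ⊥) :
    chs {P : Subgroup Γ | IsPGroup p P ∧ R < P} (wt (G ⊓ Subgroup.centralizer (R : Set Γ)) F) =
      chs (Sp p (G ⊓ Subgroup.centralizer (R : Set Γ)))
        (wt (G ⊓ Subgroup.centralizer (R : Set Γ)) F) := by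
  set C := G ⊓ Subgroup.centralizer (R : Set Γ) with hC
  have hGR : G ⊓ R = ⊥ := hR.2.2
  have hRG : ∀ A : Subgroup Γ, A ≤ C → ¬ R ≤ A := by
    intro A hA h
    apply hR0
    rw [eq_bot_iff, ← hGR]
    exact le_inf (h.trans (hA.trans inf_le_left)) le_rfl
  have hRC : ∀ A : Subgroup Γ, A ≤ C → A ≠ ⊥ → R < R ⊔ A := by
    intro A hA h1
    refine lt_of_le_of_ne le_sup_left fun h => h1 ?_
    have h2 : A ≤ R := by rw [h]; exact le_sup_right
    rw [eq_bot_iff, ← hGR]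
    exact le_inf (hA.trans inf_le_left) h2
  have e1 := chs_sub (J := C) F ({P | IsPGroup p P ∧ R < P} ∪ Sp p C) (fun P => P ⊓ C)
    (by
      rintro P (⟨hP, hRP⟩ | ⟨hP, hP0, hPC⟩)
      · exact Or.inr ⟨hP.to_le inf_le_left, inf_cent_ne hP hRP.le (hcard P hP hRP), inf_le_right⟩
      · refine Or.inr ⟨hP.to_le inf_le_left, ?_, inf_le_right⟩
        rw [inf_eq_left.mpr hPC]
        exact hP0)
    (fun P _ => by
      change P ⊓ C ⊓ C = P ⊓ C
      rw [inf_assoc, inf_idem])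
    (fun P _ Q _ h => inf_le_inf_right _ h)
    (fun P _ => inf_le_left)
    (fun P _ x hx h => by
      rw [conjSub_inf, h, conjSub_self hx])
  have e2 := chs_sub' (J := C) F ({P | IsPGroup p P ∧ R < P} ∪ Sp p C) (fun P => R ⊔ P)
    (by
      rintro P (⟨hP, hRP⟩ | ⟨hP, hP0, hPC⟩)
      · refine Or.inl ⟨?_, ?_⟩
        · change IsPGroup p ↥(R ⊔ P)
          rw [sup_eq_right.mpr hRP.le]
          exact hP
        · change R < R ⊔ P
          rw [sup_eq_right.mpr hRP.le]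
          exact hRP
      · exact Or.inl ⟨sup_pg hR.1 hP (hPC.trans inf_le_right), hRC P hPC hP0⟩)
    (fun P _ => by
      change R ⊔ (R ⊔ P) = R ⊔ P
      rw [← sup_assoc, sup_idem])
    (fun P _ Q _ h => sup_le_sup_left h _)
    (fun P _ => le_sup_right)
    (fun P _ x hx h => by
      rw [conjSub_sup, h, conjSub_cent hx.2])
  have s1 : {a | a ∈ ({P | IsPGroup p P ∧ R < P} ∪ Sp p C : Set (Subgroup Γ)) ∧
      (fun P => P ⊓ C) a = a} = Sp p C := by
    ext P
    constructor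
    · rintro ⟨⟨hP, hRP⟩ | h, h2⟩
      · exact absurd hRP.le (hRG P (inf_eq_left.mp h2))
      · exact h
    · intro h
      exact ⟨Or.inr h, inf_eq_left.mpr h.2.2⟩
  have s2 : {a | a ∈ ({P | IsPGroup p P ∧ R < P} ∪ Sp p C : Set (Subgroup Γ)) ∧
      (fun P => R ⊔ P) a = a} = {P : Subgroup Γ | IsPGroup p P ∧ R < P} := by
    ext P
    constructor
    · rintro ⟨h | h, h2⟩
      · exact h
      · exact absurd (sup_eq_right.mp h2) (hRG P h.2.2)
    · intro h
      exact ⟨Or.inl h, sup_eq_right.mpr h.2.le⟩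
  rw [s1] at e1
  rw [s2] at e2
  rw [← e1, ← e2]

/-- the chains of `p`-subgroups which meet `G` nontrivially -/
theorem chs_meet (F : Subgroup Γ → ℤ) :
    chs {P | IsPGroup p P ∧ G ⊓ P ≠ ⊥} (wt G F) = chs (Sp p G) (wt G F) := by
  have e1 := chs_sub (J := G) F {P | IsPGroup p P ∧ G ⊓ P ≠ ⊥} (fun P => G ⊓ P)
    (by
      rintro P ⟨hP, hP0⟩
      refine ⟨hP.to_le inf_le_right, ?_⟩
      rw [← inf_assoc, inf_idem]
      exact hP0)
    (fun P _ => by
      change G ⊓ (G ⊓ P) = G ⊓ P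
      rw [← inf_assoc, inf_idem])
    (fun P _ Q _ h => inf_le_inf_left _ h)
    (fun P _ => inf_le_right)
    (fun P _ x _ h => by
      rw [conjSub_inf, h, conjSub_normal])
  have s1 : {a | a ∈ ({P | IsPGroup p P ∧ G ⊓ P ≠ ⊥} : Set (Subgroup Γ)) ∧
      (fun P => G ⊓ P) a = a} = Sp p G := by
    ext P
    constructor
    · rintro ⟨⟨hP, hP0⟩, h2⟩
      have h3 : G ⊓ P = P := h2
      exact ⟨hP, by rw [← h3]; exact hP0, inf_eq_right.mp h3⟩
    · rintro ⟨hP, hP0, hPG⟩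
      have h3 : G ⊓ P = P := inf_eq_right.mpr hPG
      exact ⟨⟨hP, by rw [h3]; exact hP0⟩, h3⟩
  rw [s1] at e1
  exact e1


lemma relIndex_card {R : Subgroup Γ} (h : G ⊓ R = ⊥) : G.relIndex (G ⊔ R) = Nat.card R := by
  rw [Subgroup.relIndex_sup_left, ← Subgroup.inf_relIndex_right, h, Subgroup.relIndex_bot_left]

lemma cpl_card (hi : G.index = p) {R : Subgroup Γ} (hR : R ∈ Cpl p G) : Nat.card R = p := by
  rw [← relIndex_card hR.2.2, hR.2.1, Subgroup.relIndex_top_right, hi]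

lemma cpl_of (hi : G.index = p) {R : Subgroup Γ} (hR : IsPGroup p R) (hR0 : R ≠ ⊥)
    (h : G ⊓ R = ⊥) : R ∈ Cpl p G := by
  refine ⟨hR, ?_, h⟩
  have h1 := Subgroup.relIndex_mul_index (H := G) (K := G ⊔ R) le_sup_left
  rw [relIndex_card h, hi] at h1
  have h2 : Nat.card R ≠ 1 := fun h3 => hR0 (Subgroup.card_eq_one.mp h3)
  have h3 : Nat.card R = p := by
    rcases (Nat.dvd_prime (Fact.out : p.Prime)).1 ⟨_, h1.symm⟩ with h4 | h4
    · exact absurd h4 h2
    · exact h4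
  rw [h3] at h1
  have h4 : (G ⊔ R).index = 1 :=
    Nat.eq_of_mul_eq_mul_left (Fact.out : p.Prime).pos (by rw [h1, mul_one])
  exact Subgroup.index_eq_one.mp h4

lemma cpl_ne (hi : G.index = p) {R : Subgroup Γ} (hR : R ∈ Cpl p G) : R ≠ ⊥ := by
  rintro rfl
  have := cpl_card hi hR
  rw [Subgroup.card_bot] at this
  exact (Fact.out : p.Prime).one_lt.ne this

lemma above_meets (hi : G.index = p) {R : Subgroup Γ} (hR : R ∈ Cpl p G) (P : Subgroup Γ)
    (hP : IsPGroup p P) (h : R < P) : G ⊓ P ≠ ⊥ := by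
  intro h1
  have hP0 : P ≠ ⊥ := by
    rintro rfl
    exact not_lt_bot h
  have h2 := cpl_card hi (cpl_of hi hP hP0 h1)
  exact h.ne (Subgroup.eq_of_le_of_card_ge h.le (by rw [h2, cpl_card hi hR]))

lemma cent_inf (R : Subgroup Γ) (hR : R ∈ Cpl p G) :
    G ⊓ Subgroup.normalizer (R : Set Γ) = G ⊓ Subgroup.centralizer (R : Set Γ) := by
  apply le_antisymm
  · rintro x ⟨hx, hn⟩
    refine Subgroup.mem_inf.mpr ⟨hx, Subgroup.mem_centralizer_iff.mpr fun r hr => ?_⟩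
    have h1 : conjSub x R = R := conjSub_eq_iff.mpr hn
    have h2 : x * r * x⁻¹ ∈ R := by
      rw [← h1]
      exact conj_mem_conjSub hr
    have h3 : x * r * x⁻¹ * r⁻¹ ∈ G ⊓ R := by
      refine Subgroup.mem_inf.mpr ⟨?_, R.mul_mem h2 (R.inv_mem hr)⟩
      have h4 : r * x⁻¹ * r⁻¹ ∈ G := ‹G.Normal›.conj_mem _ (G.inv_mem hx) _
      have h5 : x * r * x⁻¹ * r⁻¹ = x * (r * x⁻¹ * r⁻¹) := by group
      rw [h5]
      exact G.mul_mem hx h4
    rw [hR.2.2, Subgroup.mem_bot] at h3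
    have h6 : x * r = r * x := by
      calc x * r = x * r * x⁻¹ * r⁻¹ * r * x := by group
        _ = r * x := by rw [h3]; group
    exact h6.symm
  · exact inf_le_inf_left _ (Subgroup.centralizer_le_normalizer _)

/-- the chains containing the complement `R` -/
lemma sum_containing [Fintype (Set (Subgroup Γ))] (hi : G.index = p) (F : Subgroup Γ → ℤ)
    {R : Subgroup Γ} (hR : R ∈ Cpl p G) :
    ∑ σ ∈ (Finset.univ : Finset (Set (Subgroup Γ))).filter
      (fun σ => (σ ⊆ Sp p ⊤ ∧ IsChain (· ≤ ·) σ) ∧ R ∈ σ), wt G F σ =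
    - chs (Sp p (G ⊓ Subgroup.centralizer (R : Set Γ)))
        (wt (G ⊓ Subgroup.centralizer (R : Set Γ)) F) := by
  rw [← chs_above hR (cpl_ne hi hR) F (above_meets hi hR), chs_eq, ← Finset.sum_neg_distrib]
  have hmin : ∀ σ : Set (Subgroup Γ), σ ⊆ Sp p ⊤ → IsChain (· ≤ ·) σ → R ∈ σ → ∀ P ∈ σ, P ≠ R →
      R < P := by
    intro σ hσ hc hRσ P hP hne
    rcases hc.total hRσ hP with h | h
    · exact lt_of_le_of_ne h (Ne.symm hne)
    · exfalso
      have h1 : G ⊓ P = ⊥ := by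
        rw [eq_bot_iff, ← hR.2.2]
        exact inf_le_inf_left _ h
      have h2 := cpl_card hi (cpl_of hi (hσ hP).1 (hσ hP).2.1 h1)
      exact hne (Subgroup.eq_of_le_of_card_ge h (by rw [h2, cpl_card hi hR]))
  refine Finset.sum_bij' (fun σ _ => σ \ {R}) (fun τ _ => insert R τ) ?_ ?_ ?_ ?_ ?_
  · intro σ hσ
    simp only [Finset.mem_filter, Finset.mem_univ, true_and] at hσ ⊢
    obtain ⟨⟨h1, h2⟩, h3⟩ := hσ
    refine ⟨?_, h2.mono Set.sdiff_subset⟩
    rintro P ⟨hP, hne⟩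
    exact ⟨(h1 hP).1, hmin σ h1 h2 h3 P hP hne⟩
  · intro τ hτ
    simp only [Finset.mem_filter, Finset.mem_univ, true_and] at hτ ⊢
    obtain ⟨h1, h2⟩ := hτ
    refine ⟨⟨?_, ?_⟩, Set.mem_insert _ _⟩
    · refine Set.insert_subset ⟨hR.1, cpl_ne hi hR, le_top⟩ ?_
      intro P hP
      refine ⟨(h1 hP).1, ?_, le_top⟩
      rintro rfl
      exact not_lt_bot (h1 hP).2
    · exact h2.insert fun P hP _ => Or.inl (h1 hP).2.le
  · intro σ hσ
    simp only [Finset.mem_filter, Finset.mem_univ, true_and] at hσ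
    change insert R (σ \ {R}) = σ
    rw [Set.insert_sdiff_singleton, Set.insert_eq_of_mem hσ.2]
  · intro τ hτ
    simp only [Finset.mem_filter, Finset.mem_univ, true_and] at hτ
    change (insert R τ) \ {R} = τ
    exact Set.insert_sdiff_self_of_notMem fun h => lt_irrefl _ (hτ.1 h).2
  · intro σ hσ
    simp only [Finset.mem_filter, Finset.mem_univ, true_and] at hσ
    have hin : insert R (σ \ {R}) = σ := by
      rw [Set.insert_sdiff_singleton, Set.insert_eq_of_mem hσ.2]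
    unfold wt
    have e1 : σ.ncard = (σ \ {R}).ncard + 1 := by
      conv_lhs => rw [← hin]
      exact Set.ncard_insert_of_notMem (fun h => h.2 rfl) (Set.toFinite _)
    have e2 : G ⊓ chainStabilizer σ =
        G ⊓ Subgroup.centralizer (R : Set Γ) ⊓ chainStabilizer (σ \ {R}) := by
      rw [← cent_inf R hR]
      ext x
      simp only [Subgroup.mem_inf, mem_chainStabilizer]
      constructor
      · rintro ⟨h1, h2⟩
        exact ⟨⟨h1, conjSub_eq_iff.mp (h2 R hσ.2)⟩, fun P hP => h2 P hP.1⟩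
      · rintro ⟨⟨h1, h2⟩, h3⟩
        refine ⟨h1, fun P hP => ?_⟩
        by_cases h4 : P = R
        · rw [h4]
          exact conjSub_eq_iff.mpr h2
        · exact h3 P ⟨hP, h4⟩
    rw [e1, e2, pow_succ]
    ring

/-- **The decomposition of the alternating sum.** -/
theorem decomposition (hi : G.index = p) (F : Subgroup Γ → ℤ) :
    chs (Sp p (⊤ : Subgroup Γ)) (wt G F) = chs (Sp p G) (wt G F) -
      ∑ᶠ R : Subgroup Γ, if IsPGroup p R ∧ G ⊔ R = ⊤ ∧ G ⊓ R = ⊥ then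
        chs (Sp p (G ⊓ Subgroup.centralizer (R : Set Γ)))
          (wt (G ⊓ Subgroup.centralizer (R : Set Γ)) F) else 0 := by
  have : Fintype (Subgroup Γ) := Fintype.ofFinite _
  have : Fintype (Set (Subgroup Γ)) := Fintype.ofFinite _
  rw [finsum_eq_sum_of_fintype, ← chs_meet (p := p) (G := G) F, chs_eq, chs_eq]
  have key : ∀ σ ∈ (Finset.univ : Finset (Set (Subgroup Γ))).filter
      (fun σ => σ ⊆ Sp p ⊤ ∧ IsChain (· ≤ ·) σ), wt G F σ =
      (if σ ⊆ {P | IsPGroup p P ∧ G ⊓ P ≠ ⊥} then wt G F σ else 0) +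
        ∑ R : Subgroup Γ, if (IsPGroup p R ∧ G ⊔ R = ⊤ ∧ G ⊓ R = ⊥) ∧ R ∈ σ then wt G F σ
          else 0 := by
    intro σ hσ
    simp only [Finset.mem_filter, Finset.mem_univ, true_and] at hσ
    obtain ⟨h1, h2⟩ := hσ
    by_cases h : σ ⊆ {P | IsPGroup p P ∧ G ⊓ P ≠ ⊥}
    · rw [if_pos h, Finset.sum_eq_zero, add_zero]
      intro R _
      rw [if_neg]
      rintro ⟨h3, h4⟩
      exact (h h4).2 h3.2.2
    · rw [if_neg h, zero_add]
      obtain ⟨R, hR, hR'⟩ := Set.not_subset.mp h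
      have hGR : G ⊓ R = ⊥ := by
        by_contra h3
        exact hR' ⟨(h1 hR).1, h3⟩
      have hRC : R ∈ Cpl p G := cpl_of hi (h1 hR).1 (h1 hR).2.1 hGR
      rw [Finset.sum_eq_single R]
      · rw [if_pos ⟨hRC, hR⟩]
      · intro R' _ hne
        rw [if_neg]
        rintro ⟨h3, h4⟩
        apply hne
        have c1 := cpl_card hi hRC
        have c2 := cpl_card hi (R := R') h3
        rcases h2.total h4 hR with h5 | h5
        · exact Subgroup.eq_of_le_of_card_ge h5 (by rw [c1, c2])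
        · exact (Subgroup.eq_of_le_of_card_ge h5 (by rw [c1, c2])).symm
      · intro h3
        exact absurd (Finset.mem_univ _) h3
  rw [Finset.sum_congr rfl key, Finset.sum_add_distrib, Finset.sum_comm, sub_eq_add_neg,
    ← Finset.sum_neg_distrib]
  congr 1
  · rw [← Finset.sum_filter, Finset.filter_filter]
    refine Finset.sum_congr ?_ fun _ _ => rfl
    ext σ
    simp only [Finset.mem_filter, Finset.mem_univ, true_and]
    constructor
    · rintro ⟨⟨_, h2⟩, h3⟩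
      exact ⟨h3, h2⟩
    · rintro ⟨h2, h3⟩
      refine ⟨⟨fun P hP => ⟨(h2 hP).1, ?_, le_top⟩, h3⟩, h2⟩
      rintro rfl
      exact (h2 hP).2 (inf_bot_eq _)
  · refine Finset.sum_congr rfl fun R _ => ?_
    by_cases hR : IsPGroup p R ∧ G ⊔ R = ⊤ ∧ G ⊓ R = ⊥
    · rw [if_pos hR, ← sum_containing hi F hR, ← Finset.sum_filter, Finset.filter_filter]
      refine Finset.sum_congr ?_ fun _ _ => rfl
      ext σ
      simp only [Finset.mem_filter, Finset.mem_univ, true_and]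
      constructor
      · rintro ⟨h2, h3⟩
        exact ⟨h2, h3.2⟩
      · rintro ⟨h2, h3⟩
        exact ⟨h2, hR, h3⟩
    · rw [if_neg hR, neg_zero]
      refine Finset.sum_eq_zero fun σ _ => ?_
      rw [if_neg (fun h => hR h.1)]

end Pool.Agent.R674.Ce
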