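import Pool.Agent.R674.Ce.Dz

/-!
# Invariance under isomorphisms
-/

set_option autoImplicit false

open scoped Classical

set_option linter.unusedSectionVars false

noncomputable section

namespace Pool.Agent.R674.Ce

open Pool.Agent.Y63.KR (IsPChain chainStabilizer conjSub conjSub_eq_iff mem_chainStabilizer
  mem_conjSub conjSub_le conj_mem_conjSub W W_eq_zero KRC altSum_classes alternatingSum)
open Pool.Agent.Y63.NV (locz numInvDz)
open Pool.Agent.Y63.AWC (numDefectZero numDefectZero_congr)

variable {Γ Δ : Type} [Group Γ] [Finite Γ] [Group Δ] [Finite Δ] {p : ℕ}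

lemma conjSub_map_equiv (e : Δ ≃* Γ) (P : Subgroup Δ) (x : Δ) :
    conjSub (e x) (P.map e.toMonoidHom) = (conjSub x P).map e.toMonoidHom := by
  ext y
  rw [mem_conjSub, Subgroup.mem_map, Subgroup.mem_map]
  constructor
  · rintro ⟨z, hz, h⟩
    refine ⟨x * z * x⁻¹, conj_mem_conjSub hz, ?_⟩
    change e (x * z * x⁻¹) = y
    have h' : e z = (e x)⁻¹ * y * e x := h
    rw [map_mul, map_mul, h', map_inv]
    group
  · rintro ⟨z, hz, h⟩
    refine ⟨x⁻¹ * z * x, mem_conjSub.mp hz, ?_⟩
    have h' : e z = y := h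
    change e (x⁻¹ * z * x) = _
    rw [map_mul, map_mul, h', map_inv]

theorem AK_congr (e : Δ ≃* Γ) : AK p Δ = AK p Γ := by
  rw [AK_eq, AK_eq]
  have hinj : Function.Injective (fun P : Subgroup Δ => P.map e.toMonoidHom) :=
    Subgroup.map_injective e.injective
  have hle : ∀ P Q : Subgroup Δ, P.map e.toMonoidHom ≤ Q.map e.toMonoidHom ↔ P ≤ Q := fun P Q =>
    Subgroup.map_le_map_iff_of_injective e.injective
  have hback : ∀ P : Subgroup Γ, (P.comap e.toMonoidHom).map e.toMonoidHom = P := fun P =>
    Subgroup.map_comap_eq_self_of_surjective e.surjective P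
  refine finsum_eq_of_bijective (fun σ : {σ : Set (Subgroup Δ) // IsPChain p σ} =>
    (⟨(fun P : Subgroup Δ => P.map e.toMonoidHom) '' σ.1, ⟨?_, ?_, ?_⟩⟩ :
      {σ : Set (Subgroup Γ) // IsPChain p σ})) ⟨?_, ?_⟩ ?_
  · rintro _ ⟨P, hP, rfl⟩ _ ⟨Q, hQ, rfl⟩ _
    rcases σ.2.chain.total hP hQ with h | h
    · exact Or.inl ((hle P Q).2 h)
    · exact Or.inr ((hle Q P).2 h)
  · rintro _ ⟨P, hP, rfl⟩
    exact (σ.2.isPGroup P hP).map _
  · rintro _ ⟨P, hP, rfl⟩ h
    exact σ.2.ne_bot P hP ((Subgroup.map_eq_bot_iff_of_injective P e.injective).1 h)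
  · intro σ τ h
    have h1 := congrArg Subtype.val h
    exact Subtype.ext (hinj.image_injective h1)
  · rintro ⟨τ, h1, h2, h3⟩
    refine ⟨⟨(fun P : Subgroup Γ => P.comap e.toMonoidHom) '' τ, ⟨?_, ?_, ?_⟩⟩, ?_⟩
    · rintro _ ⟨P, hP, rfl⟩ _ ⟨Q, hQ, rfl⟩ _
      rcases h1.total hP hQ with h | h
      · exact Or.inl (Subgroup.comap_mono h)
      · exact Or.inr (Subgroup.comap_mono h)
    · rintro _ ⟨P, hP, rfl⟩
      exact (h2 P hP).comap_of_injective _ e.injective
    · rintro _ ⟨P, hP, rfl⟩ h
      apply h3 P hP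
      rw [← hback P]
      change (P.comap e.toMonoidHom).map e.toMonoidHom = ⊥
      rw [show P.comap e.toMonoidHom = ⊥ from h, Subgroup.map_bot]
    · apply Subtype.ext
      change (fun P : Subgroup Δ => P.map e.toMonoidHom) ''
        ((fun P : Subgroup Γ => P.comap e.toMonoidHom) '' τ) = τ
      rw [← Set.image_comp]
      ext P
      constructor
      · rintro ⟨Q, hQ, rfl⟩
        change (Q.comap e.toMonoidHom).map e.toMonoidHom ∈ τ
        rw [hback]
        exact hQ
      · intro hP
        exact ⟨P, hP, hback P⟩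
  · intro σ
    change _ = (-1) ^ ((fun P : Subgroup Δ => P.map e.toMonoidHom) '' σ.1).ncard *
      cpr (chainStabilizer ((fun P : Subgroup Δ => P.map e.toMonoidHom) '' σ.1))
    rw [Set.ncard_image_of_injective _ hinj]
    congr 1
    have hst : ∀ x : Δ, x ∈ chainStabilizer σ.1 ↔
        e x ∈ chainStabilizer ((fun P : Subgroup Δ => P.map e.toMonoidHom) '' σ.1) := by
      intro x
      rw [mem_chainStabilizer, mem_chainStabilizer]
      constructor
      · rintro h _ ⟨P, hP, rfl⟩
        change conjSub (e x) (P.map e.toMonoidHom) = P.map e.toMonoidHom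
        rw [conjSub_map_equiv, h P hP]
      · intro h P hP
        have h4 := h _ ⟨P, hP, rfl⟩
        change conjSub (e x) (P.map e.toMonoidHom) = P.map e.toMonoidHom at h4
        rw [conjSub_map_equiv] at h4
        exact hinj h4
    unfold cpr
    norm_cast
    refine Nat.card_congr (Equiv.subtypeEquiv (Equiv.prodCongr e.toEquiv e.toEquiv) fun q => ?_)
    change _ ↔ (e q.1 ∈ _ ∧ e q.2 ∈ _) ∧ e q.1 * e q.2 = e q.2 * e q.1
    rw [← hst, ← hst, ← map_mul, ← map_mul, e.injective.eq_iff]

theorem DK_congr (e : Δ ≃* Γ) : DK p Δ = DK p Γ := by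
  unfold DK
  rw [numDefectZero_congr e, Nat.card_congr e.toEquiv]

theorem krc_congr [Fact p.Prime] (e : Δ ≃* Γ) (h : KRC p Δ) : KRC p Γ := by
  rw [krc_iff_def] at h ⊢
  unfold defK at h ⊢
  rw [← AK_congr e, ← DK_congr e]
  exact h

/-- `R` is an elementary abelian `p`-subgroup. -/
def IsElAb (p : ℕ) {Γ : Type} [Group Γ] (R : Subgroup Γ) : Prop :=
  (∀ x ∈ R, x ^ p = 1) ∧ ∀ x ∈ R, ∀ y ∈ R, x * y = y * x

lemma krc_sub [Fact p.Prime] {K G : Subgroup Γ} (R : Subgroup K) (L : Subgroup Γ)
    (hL : ∀ x : Γ, x ∈ L ↔ x ∈ G ∧ x ∈ K ∧ ∀ r ∈ R, (r : Γ) * x = x * r) (h : KRC p ↥L) :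
    KRC p ↥(G.subgroupOf K ⊓ Subgroup.centralizer (R : Set K)) := by
  refine krc_congr ?_ h
  exact
    { toFun := fun x => ⟨⟨x.1, ((hL x).1 x.2).2.1⟩, Subgroup.mem_inf.mpr ⟨((hL x).1 x.2).1,
        Subgroup.mem_centralizer_iff.mpr fun r hr => Subtype.ext (((hL x).1 x.2).2.2 r hr)⟩⟩
      invFun := fun y => ⟨y.1.1, (hL _).2 ⟨(Subgroup.mem_inf.mp y.2).1, y.1.2, fun r hr =>
        congrArg Subtype.val
          (Subgroup.mem_centralizer_iff.mp (Subgroup.mem_inf.mp y.2).2 r hr)⟩⟩
      left_inv := fun x => rfl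
      right_inv := fun y => rfl
      map_mul' := fun x y => rfl }

/-- **The Knörr-Robinson conjecture for extensions by `p`-groups of a fixed group.** -/
theorem krc_ext [Fact p.Prime] : ∀ (n : ℕ) (Γ : Type) [Group Γ] [Finite Γ] (G : Subgroup Γ)
    [G.Normal], G.index ≤ n → IsPGroup p (Γ ⧸ G) →
    (∀ R : Subgroup Γ, IsElAb p R → G ⊓ R = ⊥ →
      KRC p ↥(G ⊓ Subgroup.centralizer (R : Set Γ))) → KRC p Γ := by
  intro n
  induction n with
  | zero =>
    intro Γ _ _ G _ hn _ _
    have : G.index ≠ 0 := Subgroup.index_ne_zero_of_finite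
    omega
  | succ n ih =>
    intro Γ _ _ G hGn hn hp h
    by_cases hG : G = ⊤
    · subst hG
      have h1 := h ⊥ ⟨fun x hx => by rw [Subgroup.mem_bot.mp hx, one_pow], fun x hx y hy => by
        rw [Subgroup.mem_bot.mp hx, Subgroup.mem_bot.mp hy]⟩ (inf_bot_eq _)
      refine krc_congr ?_ h1
      refine (MulEquiv.subgroupCongr ?_).trans Subgroup.topEquiv
      rw [top_inf_eq, eq_top_iff]
      intro x _
      rw [Subgroup.mem_centralizer_iff]
      intro y hy
      rw [Subgroup.mem_bot.mp hy]
      group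
    · -- a normal subgroup of index `p` containing `G`
      obtain ⟨M, hMn, hMi, hGM⟩ : ∃ M : Subgroup Γ, M.Normal ∧ M.index = p ∧ G ≤ M := by
        obtain ⟨k, hk⟩ := IsPGroup.iff_card.1 hp
        have hk0 : k ≠ 0 := by
          intro h0
          rw [h0, pow_zero] at hk
          exact hG (Subgroup.index_eq_one.1 hk)
        have hpr : p.Prime := Fact.out
        obtain ⟨N', hN'⟩ := Sylow.exists_subgroup_card_pow_prime (G := Γ ⧸ G) p (n := k - 1)
          (by rw [hk]; exact pow_dvd_pow p (Nat.sub_le k 1))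
        have hi : N'.index = p := by
          have e1 := N'.card_mul_index
          rw [hN', hk] at e1
          have e2 : p ^ k = p ^ (k - 1) * p := by
            rw [← pow_succ]
            congr 1
            omega
          rw [e2] at e1
          exact Nat.eq_of_mul_eq_mul_left (pow_pos hpr.pos _) e1
        have hN'n : N'.Normal := by
          refine Subgroup.normal_of_index_eq_minFac_card ?_
          rw [hi, hk, hpr.pow_minFac hk0]
        refine ⟨N'.comap (QuotientGroup.mk' G), hN'n.comap _, ?_, ?_⟩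
        · rw [Subgroup.index_comap_of_surjective _ (QuotientGroup.mk'_surjective G), hi]
        · intro x hx
          rw [Subgroup.mem_comap]
          have : (QuotientGroup.mk' G) x = 1 := (QuotientGroup.eq_one_iff x).mpr hx
          rw [this]
          exact N'.one_mem
      -- the induction hypothesis for subgroups of `M`
      have hlt : G.relIndex M < G.index := by
        have e1 := Subgroup.relIndex_mul_index hGM
        rw [hMi] at e1
        have e2 : 0 < G.relIndex M := Nat.pos_of_ne_zero fun e3 => by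
          rw [e3, zero_mul] at e1
          exact Subgroup.index_ne_zero_of_finite (H := G) e1.symm
        rw [← e1]
        exact lt_mul_of_one_lt_right e2 (Fact.out : p.Prime).one_lt
      have key : ∀ K : Subgroup Γ, K ≤ M → (∀ R : Subgroup K, IsElAb p R →
          G.subgroupOf K ⊓ R = ⊥ →
          KRC p ↥(G.subgroupOf K ⊓ Subgroup.centralizer (R : Set K))) → KRC p K := by
        intro K hK hKR
        refine ih K (G.subgroupOf K) ?_ ?_ hKR
        · have e1 : (G.subgroupOf K).index = G.relIndex K := rfl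
          have e2 : G.relIndex K ≤ G.relIndex M := by
            refine Subgroup.relIndex_le_of_le_right hK ?_
            intro e3
            have e4 := Subgroup.relIndex_mul_index hGM
            rw [e3, zero_mul] at e4
            exact Subgroup.index_ne_zero_of_finite (H := G) e4.symm
          omega
        · exact hp.of_injective (QuotientGroup.map (G.subgroupOf K) G K.subtype
            (by intro x hx; exact hx)) (by
            rw [injective_iff_map_eq_one]
            intro x hx
            obtain ⟨y, rfl⟩ := QuotientGroup.mk_surjective x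
            rw [QuotientGroup.eq_one_iff]
            have : ((y : Γ) : Γ ⧸ G) = 1 := hx
            exact (QuotientGroup.eq_one_iff (y : Γ)).mp this)
      have hM : KRC p M := by
        refine key M le_rfl fun R hR hGR => ?_
        refine krc_sub R (G ⊓ Subgroup.centralizer ((R.map M.subtype : Subgroup Γ) : Set Γ)) ?_
          (h _ ⟨?_, ?_⟩ ?_)
        · intro x
          rw [Subgroup.mem_inf, Subgroup.mem_centralizer_iff]
          constructor
          · rintro ⟨h1, h2⟩
            exact ⟨h1, hGM h1, fun r hr => h2 r ⟨r, hr, rfl⟩⟩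
          · rintro ⟨h1, _, h2⟩
            refine ⟨h1, ?_⟩
            rintro _ ⟨r, hr, rfl⟩
            exact h2 r hr
        · rintro _ ⟨r, hr, rfl⟩
          rw [← map_pow, hR.1 r hr, map_one]
        · rintro _ ⟨r, hr, rfl⟩ _ ⟨s, hs, rfl⟩
          rw [← map_mul, ← map_mul, hR.2 r hr s hs]
        · rw [eq_bot_iff]
          rintro _ ⟨h1, ⟨r, hr, rfl⟩⟩
          have h2 : r ∈ G.subgroupOf M ⊓ R := Subgroup.mem_inf.mpr ⟨h1, hr⟩
          rw [hGR, Subgroup.mem_bot] at h2
          rw [h2, Subgroup.mem_bot, map_one]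
      rw [krc_iff_def, def_formula hMi, krc_iff_def.mp hM, zero_sub, neg_eq_zero]
      refine finsum_eq_zero_of_forall_eq_zero fun S => ?_
      split_ifs with hS
      · rw [← krc_iff_def]
        have hS' : S ∈ Cpl p M := hS
        have hSc := cpl_card hMi hS'
        have hSz : ∀ x ∈ S, ∀ y ∈ S, x * y = y * x := by
          have : IsCyclic S := isCyclic_of_prime_card hSc
          intro x hx y hy
          have := (IsCyclic.commGroup (α := S)).mul_comm ⟨x, hx⟩ ⟨y, hy⟩
          exact congrArg Subtype.val this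
        have hSp : ∀ x ∈ S, x ^ p = 1 := by
          intro x hx
          have : (⟨x, hx⟩ : S) ^ p = 1 := by
            rw [← hSc]
            exact pow_card_eq_one'
          exact congrArg Subtype.val this
        obtain ⟨K, hK⟩ : ∃ K : Subgroup Γ, K = M ⊓ Subgroup.centralizer (S : Set Γ) := ⟨_, rfl⟩
        have hKm : ∀ x : Γ, x ∈ K ↔ x ∈ M ∧ ∀ s ∈ S, s * x = x * s := by
          intro x
          rw [hK, Subgroup.mem_inf, Subgroup.mem_centralizer_iff]
          rfl
        rw [← hK]
        refine key K (fun x hx => ((hKm x).1 hx).1) fun R hR hGR => ?_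
        have hRc : ∀ r ∈ R, ∀ s ∈ S, s * (r : Γ) = r * s := fun r hr s hs =>
          ((hKm _).1 r.2).2 s hs
        -- the product
        let E : Subgroup Γ :=
          { carrier := {x | ∃ r ∈ R, ∃ s ∈ S, x = (r : Γ) * s}
            one_mem' := ⟨1, R.one_mem, 1, S.one_mem, by simp⟩
            mul_mem' := by
              rintro _ _ ⟨r, hr, s, hs, rfl⟩ ⟨r', hr', s', hs', rfl⟩
              refine ⟨r * r', R.mul_mem hr hr', s * s', S.mul_mem hs hs', ?_⟩
              rw [Subgroup.coe_mul]
              have := hRc r' hr' s hs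
              calc (r : Γ) * s * (r' * s') = r * (s * r') * s' := by group
                _ = r * (r' * s) * s' := by rw [this]
                _ = r * r' * (s * s') := by group
            inv_mem' := by
              rintro _ ⟨r, hr, s, hs, rfl⟩
              refine ⟨r⁻¹, R.inv_mem hr, s⁻¹, S.inv_mem hs, ?_⟩
              have := hRc r⁻¹ (R.inv_mem hr) s⁻¹ (S.inv_mem hs)
              rw [mul_inv_rev]
              exact this }
        have hE : ∀ x, x ∈ E ↔ ∃ r ∈ R, ∃ s ∈ S, x = (r : Γ) * s := fun x => Iff.rfl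
        refine krc_sub R (G ⊓ Subgroup.centralizer (E : Set Γ)) ?_ (h E ⟨?_, ?_⟩ ?_)
        · intro x
          rw [Subgroup.mem_inf, Subgroup.mem_centralizer_iff]
          constructor
          · rintro ⟨h1, h2⟩
            refine ⟨h1, (hKm x).2 ⟨hGM h1, fun s hs => ?_⟩, fun r hr => ?_⟩
            · exact h2 s ((hE s).2 ⟨1, R.one_mem, s, hs, by simp⟩)
            · exact h2 r ((hE r).2 ⟨r, hr, 1, S.one_mem, by simp⟩)
          · rintro ⟨h1, h3, h2⟩
            refine ⟨h1, ?_⟩
            rintro _ ⟨r, hr, s, hs, rfl⟩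
            have h4 := ((hKm x).1 h3).2 s hs
            have h5 := h2 r hr
            calc (r : Γ) * s * x = r * (s * x) := by group
              _ = r * (x * s) := by rw [h4]
              _ = r * x * s := by group
              _ = x * r * s := by rw [h5]
              _ = x * (r * s) := by group
        · rintro _ ⟨r, hr, s, hs, rfl⟩
          have h4 : Commute (r : Γ) s := (hRc r hr s hs).symm
          rw [h4.mul_pow, hSp s hs, mul_one]
          have := hR.1 r hr
          exact congrArg Subtype.val this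
        · rintro _ ⟨r, hr, s, hs, rfl⟩ _ ⟨r', hr', s', hs', rfl⟩
          have h4 : (r : Γ) * r' = r' * r := congrArg Subtype.val (hR.2 r hr r' hr')
          calc (r : Γ) * s * (r' * s') = r * (s * r') * s' := by group
            _ = r * (r' * s) * s' := by rw [hRc r' hr' s hs]
            _ = r * r' * (s * s') := by group
            _ = r' * r * (s' * s) := by rw [h4, hSz s hs s' hs']
            _ = r' * (r * s') * s := by group
            _ = r' * (s' * r) * s := by rw [hRc r hr s' hs']
            _ = r' * s' * (r * s) := by group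
        · rw [eq_bot_iff]
          rintro _ ⟨h1, ⟨r, hr, s, hs, rfl⟩⟩
          have h2 : s ∈ M ⊓ S := by
            refine Subgroup.mem_inf.mpr ⟨?_, hs⟩
            have h3 := M.mul_mem (M.inv_mem ((hKm _).1 r.2).1) (hGM h1)
            rwa [inv_mul_cancel_left] at h3
          rw [hS.2.2, Subgroup.mem_bot] at h2
          rw [h2, mul_one] at h1 ⊢
          have h3 : r ∈ G.subgroupOf K ⊓ R := Subgroup.mem_inf.mpr ⟨h1, hr⟩
          rw [hGR, Subgroup.mem_bot] at h3
          rw [h3, Subgroup.mem_bot]
          rfl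
      · rfl

end Pool.Agent.R674.Ce
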