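import Pool.Agent.R674.Ce.Main

/-!
# The defect of the Knörr-Robinson conjecture
-/

set_option autoImplicit false

open scoped Classical

set_option linter.unusedSectionVars false

noncomputable section

namespace Pool.Agent.R674.Ce

open Pool.Agent.Y63.KR (IsPChain chainStabilizer conjSub conjSub_eq_iff mem_chainStabilizer
  mem_conjSub conjSub_le conj_mem_conjSub W W_eq_zero KRC altSum_classes alternatingSum)
open Pool.Agent.Y63.NV (locz numInvDz)
open Pool.Agent.Y63.AWC (numDefectZero numDefectZero_congr)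

variable {Γ : Type} [Group Γ] [Finite Γ] {p : ℕ} [Fact p.Prime] {G : Subgroup Γ} [G.Normal]

/-- the natural map from `C_G(R)` to `N(R)/R` -/
def toLoc (G R : Subgroup Γ) : ↥(G ⊓ Subgroup.centralizer (R : Set Γ)) →*
    (Subgroup.normalizer (R : Set Γ) ⧸ R.subgroupOf (Subgroup.normalizer (R : Set Γ))) :=
  (QuotientGroup.mk' _).comp (Subgroup.inclusion
    (inf_le_right.trans (Subgroup.centralizer_le_normalizer _)))

lemma toLoc_bij {R : Subgroup Γ} (hR : R ∈ Cpl p G) : Function.Bijective (toLoc G R) := by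
  constructor
  · rw [injective_iff_map_eq_one]
    intro c hc
    have h1 : (Subgroup.inclusion (inf_le_right.trans (Subgroup.centralizer_le_normalizer _)) c :
      Subgroup.normalizer (R : Set Γ)) ∈ R.subgroupOf (Subgroup.normalizer (R : Set Γ)) :=
      (QuotientGroup.eq_one_iff _).mp hc
    have h2 : (c : Γ) ∈ R := h1
    have h3 : (c : Γ) ∈ G ⊓ R := Subgroup.mem_inf.mpr ⟨c.2.1, h2⟩
    rw [hR.2.2, Subgroup.mem_bot] at h3
    exact Subtype.ext h3
  · intro y
    obtain ⟨n, rfl⟩ := QuotientGroup.mk'_surjective _ y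
    have h1 : (n : Γ) ∈ G ⊔ R := by rw [hR.2.1]; trivial
    obtain ⟨g, hg, r, hr, hgr⟩ := Subgroup.mem_sup_of_normal_left.mp h1
    have hgN : g ∈ G ⊓ Subgroup.normalizer (R : Set Γ) := by
      refine Subgroup.mem_inf.mpr ⟨hg, ?_⟩
      have : g = n * r⁻¹ := by rw [← hgr]; group
      rw [this]
      exact Subgroup.mul_mem _ n.2 (Subgroup.inv_mem _ (Subgroup.le_normalizer hr))
    rw [cent_inf R hR] at hgN
    refine ⟨⟨g, hgN⟩, ?_⟩
    change (QuotientGroup.mk' _) _ = (QuotientGroup.mk' _) n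
    rw [QuotientGroup.mk'_eq_mk']
    refine ⟨⟨r, Subgroup.le_normalizer hr⟩, hr, ?_⟩
    apply Subtype.ext
    change g * r = n
    exact hgr

lemma loc_eq (hi : G.index = p) {R : Subgroup Γ} (hR : R ∈ Cpl p G) :
    ((Nat.card (Subgroup.normalizer (R : Set Γ)) * locz p R : ℕ) : ℤ) =
      p * DK p ↥(G ⊓ Subgroup.centralizer (R : Set Γ)) := by
  have e := MulEquiv.ofBijective _ (toLoc_bij hR)
  have h1 : locz p R = numDefectZero p ↥(G ⊓ Subgroup.centralizer (R : Set Γ)) :=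
    (numDefectZero_congr e).symm
  have h2 : Nat.card (Subgroup.normalizer (R : Set Γ)) =
      Nat.card ↥(G ⊓ Subgroup.centralizer (R : Set Γ)) * p := by
    have h3 := Subgroup.card_eq_card_quotient_mul_card_subgroup
      (R.subgroupOf (Subgroup.normalizer (R : Set Γ)))
    rw [h3, ← Nat.card_congr e.toEquiv]
    congr 1
    rw [← cpl_card hi hR]
    exact Nat.card_congr (Subgroup.subgroupOfEquivOfLe Subgroup.le_normalizer).toEquiv
  unfold DK
  rw [h1, h2]
  push_cast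
  ring

theorem DK_formula (hi : G.index = p) :
    DK p Γ = DK p G - ∑ᶠ R : Subgroup Γ, if IsPGroup p R ∧ G ⊔ R = ⊤ ∧ G ⊓ R = ⊥ then
        DK p ↥(G ⊓ Subgroup.centralizer (R : Set Γ)) else 0 := by
  have : Fintype (Subgroup Γ) := Fintype.ofFinite _
  have hG : IsPGroup p (Γ ⧸ G) := IsPGroup.of_card (n := 1) (by
    rw [pow_one]; exact hi)
  have h1 := Pool.Agent.Y564.NV.clif p Γ G hi
  have h2 := Pool.Agent.Y63.NV.dgn' p Γ G hG
  have hcard : (Nat.card Γ : ℤ) = Nat.card G * p := by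
    have := G.card_mul_index
    rw [hi] at this
    exact_mod_cast this.symm
  have hp0 : (p : ℤ) ≠ 0 := by exact_mod_cast (Fact.out : p.Prime).ne_zero
  have h3 : (Nat.card Γ : ℤ) * (numInvDz p G : ℤ) = ∑ R : Subgroup Γ,
      if IsPGroup p R ∧ G ⊔ R = ⊤ ∧ G ⊓ R = ⊥ then
        (p : ℤ) * DK p ↥(G ⊓ Subgroup.centralizer (R : Set Γ)) else 0 := by
    have h4 := congrArg (Nat.cast : ℕ → ℤ) h2
    rw [finsum_eq_sum_of_fintype] at h4
    push_cast at h4
    rw [h4]
    refine Finset.sum_congr rfl fun R _ => ?_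
    split_ifs with hR
    · rw [← loc_eq hi hR]
      push_cast
      rfl
    · rfl
  have h5 : ∑ R : Subgroup Γ, (if IsPGroup p R ∧ G ⊔ R = ⊤ ∧ G ⊓ R = ⊥ then
        (p : ℤ) * DK p ↥(G ⊓ Subgroup.centralizer (R : Set Γ)) else 0) =
      p * ∑ R : Subgroup Γ, (if IsPGroup p R ∧ G ⊔ R = ⊤ ∧ G ⊓ R = ⊥ then
        DK p ↥(G ⊓ Subgroup.centralizer (R : Set Γ)) else 0) := by
    rw [Finset.mul_sum]
    refine Finset.sum_congr rfl fun R _ => ?_
    split_ifs <;> simp
  rw [h5, hcard] at h3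
  have h6 : (Nat.card G : ℤ) * (numInvDz p G : ℤ) =
      ∑ R : Subgroup Γ, (if IsPGroup p R ∧ G ⊔ R = ⊤ ∧ G ⊓ R = ⊥ then
        DK p ↥(G ⊓ Subgroup.centralizer (R : Set Γ)) else 0) := by
    apply mul_left_cancel₀ hp0
    rw [← h3]
    ring
  rw [finsum_eq_sum_of_fintype, ← h6]
  unfold DK
  rw [hcard]
  have h7 : (p : ℤ) * (numDefectZero p Γ : ℤ) + (numInvDz p G : ℤ) = (numDefectZero p G : ℤ) := by
    exact_mod_cast h1
  rw [← h7]
  ring

/-- `|Γ|` times the difference of the two sides of the Knörr-Robinson conjecture -/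
def defK (p : ℕ) (Γ : Type) [Group Γ] : ℤ := AK p Γ - DK p Γ

theorem krc_iff_def : KRC p Γ ↔ defK p Γ = 0 := by
  have h0 : (Nat.card Γ : ℤ) ≠ 0 := by exact_mod_cast Nat.card_pos.ne'
  have h := altSum_classes (p := p) (G := Γ)
  unfold defK AK DK KRC
  rw [← mul_sub, mul_eq_zero, or_iff_right h0, sub_eq_zero]
  constructor
  · intro h1
    rw [h1] at h
    have : ((alternatingSum p Γ (fun H => (Nat.card (ConjClasses H) : ℤ)) : ℤ) : ℚ) =
      ((numDefectZero p Γ : ℤ) : ℚ) := by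
      rw [h]; push_cast; ring
    exact_mod_cast this
  · intro h1
    rw [h1] at h
    push_cast at h
    linarith

theorem def_formula (hi : G.index = p) :
    defK p Γ = defK p G - ∑ᶠ R : Subgroup Γ, if IsPGroup p R ∧ G ⊔ R = ⊤ ∧ G ⊓ R = ⊥ then
        defK p ↥(G ⊓ Subgroup.centralizer (R : Set Γ)) else 0 := by
  have : Fintype (Subgroup Γ) := Fintype.ofFinite _
  unfold defK
  rw [AK_formula hi, DK_formula hi]
  simp only [finsum_eq_sum_of_fintype]
  have : ∀ R : Subgroup Γ, (if IsPGroup p R ∧ G ⊔ R = ⊤ ∧ G ⊓ R = ⊥ then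
        AK p ↥(G ⊓ Subgroup.centralizer (R : Set Γ)) -
          DK p ↥(G ⊓ Subgroup.centralizer (R : Set Γ)) else 0) =
      (if IsPGroup p R ∧ G ⊔ R = ⊤ ∧ G ⊓ R = ⊥ then
        AK p ↥(G ⊓ Subgroup.centralizer (R : Set Γ)) else 0) -
      (if IsPGroup p R ∧ G ⊔ R = ⊤ ∧ G ⊓ R = ⊥ then
        DK p ↥(G ⊓ Subgroup.centralizer (R : Set Γ)) else 0) := by
    intro R
    split_ifs <;> simp
  rw [Finset.sum_congr rfl fun R _ => this R, Finset.sum_sub_distrib]
  ring

end Pool.Agent.R674.Ce
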