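import Pool.Agent.R674.Ce.Bl4
import Pool.Agent.Y63.NV.FinL286

/-!
# Blocks of `Γ` which agree on the central elements supported on `G`, `Γ/G` a `p`-group
-/

set_option autoImplicit false

open scoped Classical

set_option linter.unusedSectionVars false

noncomputable section

namespace Pool.Agent.R674.Ce

open Pool.Agent.Y63.NV Pool.Agent.Y63.NV.B286

variable {F : Type} [Field F] {Γ : Type} [Group Γ]

lemma cosf_class' {G : Subgroup Γ} [G.Normal] {q : Γ ⧸ G} (hq : ∀ a : Γ ⧸ G, a * q = q * a)
    {f : Γ → F} (hf : IsClassFun f) : IsClassFun (cosf G f q) := by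
  intro g x
  unfold cosf
  have h1 : ((g * x * g⁻¹ : Γ) : Γ ⧸ G) = q ↔ (x : Γ ⧸ G) = q := by
    rw [QuotientGroup.mk_mul, QuotientGroup.mk_mul, QuotientGroup.mk_inv]
    constructor
    · intro h
      have h2 : (x : Γ ⧸ G) = (g : Γ ⧸ G)⁻¹ * (q * g) := by
        rw [← h]
        group
      rw [h2, ← hq, inv_mul_cancel_left]
    · intro h
      rw [h, hq, mul_inv_cancel_right]
  rw [hf]
  by_cases h : (x : Γ ⧸ G) = q
  · rw [if_pos h, if_pos (h1.2 h)]
  · rw [if_neg h, if_neg (fun h' => h (h1.1 h'))]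

variable [Finite Γ]

lemma frob_step (p : ℕ) [Fact p.Prime] [CharP F p] {M M' : Subgroup Γ} [M.Normal]
    (hc : ∀ x ∈ M', ∀ a : Γ ⧸ M, a * (x : Γ ⧸ M) = (x : Γ ⧸ M) * a)
    (hpw : ∀ x ∈ M', (x : Γ ⧸ M) ^ p = 1)
    {B B' : (Γ → F) → F} (hB : IsBlock B) (hB' : IsBlock B')
    (h : ∀ z : Γ → F, InZ M z → B z = B' z) (f : Γ → F) (hf : InZ M' f) : B f = B' f := by
  have hz0 : ∀ {C : (Γ → F) → F}, IsBlock C → C 0 = 0 := by
    intro C hC
    have := hC.smul 0 (0 : Γ → F) (fun _ _ => rfl)
    rwa [zero_smul, zero_mul] at this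
  have h1 : ∀ q, IsClassFun (cosf M f q) ∧ B (cosf M f q) = B' (cosf M f q) := by
    intro q
    by_cases hq : ∃ x ∈ M', (x : Γ ⧸ M) = q
    · obtain ⟨x0, hx0, rfl⟩ := hq
      have hc1 := cosf_class' (hc x0 hx0) hf.conj
      refine ⟨hc1, ?_⟩
      have hz : InZ M (cp (cosf M f (x0 : Γ ⧸ M)) p) := by
        refine ⟨fun g x => cp_class hc1 p g x,
          fun x hx => cp_supp (G := M) (q := (x0 : Γ ⧸ M)) ?_ p x ?_⟩
        · intro y hy
          exact if_neg hy
        · intro h2
          apply hx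
          rw [hpw x0 hx0] at h2
          exact (QuotientGroup.eq_one_iff x).mp h2
      have h3 := h _ hz
      rw [block_cp hB hc1, block_cp hB' hc1] at h3
      have h4 := sub_pow_char (p := p) (B (cosf M f (x0 : Γ ⧸ M))) (B' (cosf M f (x0 : Γ ⧸ M)))
      rw [h3, sub_self] at h4
      exact sub_eq_zero.mp (pow_eq_zero_iff (Fact.out : p.Prime).ne_zero |>.mp h4)
    · have h2 : cosf M f q = 0 := by
        funext x
        unfold cosf
        by_cases h3 : (x : Γ ⧸ M) = q
        · rw [if_pos h3]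
          exact hf.supp x fun h4 => hq ⟨x, h4, h3⟩
        · rw [if_neg h3]
          rfl
      rw [h2, hz0 hB, hz0 hB']
      exact ⟨fun _ _ => rfl, rfl⟩
  have : Fintype (Γ ⧸ M) := Fintype.ofFinite _
  have h2 : ∀ s : Finset (Γ ⧸ M), IsClassFun (∑ q ∈ s, cosf M f q) ∧
      B (∑ q ∈ s, cosf M f q) = B' (∑ q ∈ s, cosf M f q) := by
    intro s
    induction s using Finset.induction_on with
    | empty =>
      rw [Finset.sum_empty, hz0 hB, hz0 hB']
      exact ⟨fun _ _ => rfl, rfl⟩
    | insert q s hq ih =>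
      rw [Finset.sum_insert hq]
      have hc := (h1 q).1
      refine ⟨fun g x => ?_, ?_⟩
      · rw [Pi.add_apply, Pi.add_apply, hc, ih.1]
      · rw [hB.add _ _ hc ih.1, hB'.add _ _ hc ih.1, (h1 q).2, ih.2]
  have h3 : f = ∑ q : Γ ⧸ M, cosf M f q := by
    funext x
    rw [Finset.sum_apply]
    unfold cosf
    rw [Finset.sum_ite_eq Finset.univ (x : Γ ⧸ M), if_pos (Finset.mem_univ _)]
  rw [h3]
  exact (h2 Finset.univ).2

theorem frob_gen (p : ℕ) [Fact p.Prime] [CharP F p] {B B' : (Γ → F) → F} (hB : IsBlock B)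
    (hB' : IsBlock B') : ∀ (n : ℕ) (M : Subgroup Γ) [M.Normal], M.index ≤ n →
      IsPGroup p (Γ ⧸ M) → (∀ z : Γ → F, InZ M z → B z = B' z) →
      ∀ f : Γ → F, IsClassFun f → B f = B' f := by
  intro n
  induction n with
  | zero =>
    intro M _ hn _ _
    have : M.index ≠ 0 := Subgroup.index_ne_zero_of_finite
    omega
  | succ n ih =>
    intro M hMn hn hp h f hf
    by_cases hM : M = ⊤
    · exact h f ⟨fun g x => hf g x, fun x hx => absurd (by rw [hM]; trivial) hx⟩
    · have hnt : Nontrivial (Γ ⧸ M) := by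
        rw [← not_subsingleton_iff_nontrivial]
        intro hs
        exact hM (QuotientGroup.subsingleton_iff.mp hs)
      have hcn : Nontrivial (Subgroup.center (Γ ⧸ M)) := hp.center_nontrivial
      have hcp : IsPGroup p (Subgroup.center (Γ ⧸ M)) := hp.to_subgroup _
      obtain ⟨k, hk⟩ := IsPGroup.iff_card.1 hcp
      have hdvd : p ∣ Nat.card (Subgroup.center (Γ ⧸ M)) := by
        rw [hk]
        refine dvd_pow_self p ?_
        rintro rfl
        rw [pow_zero] at hk
        exact Finite.one_lt_card.ne' hk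
      obtain ⟨⟨c, hcc⟩, hc⟩ := exists_prime_orderOf_dvd_card' p hdvd
      have hco : orderOf c = p := by
        rw [← hc]
        exact (Subgroup.orderOf_mk c hcc).symm
      have hcp1 : c ^ p = 1 := by
        rw [← hco]
        exact pow_orderOf_eq_one c
      obtain ⟨M', hM'⟩ : ∃ M' : Subgroup Γ,
          M' = (Subgroup.zpowers c).comap (QuotientGroup.mk' M) := ⟨_, rfl⟩
      have hZn : (Subgroup.zpowers c).Normal := by
        refine ⟨fun x hx g => ?_⟩
        have hxc : x ∈ Subgroup.center (Γ ⧸ M) :=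
          (Subgroup.zpowers_le.mpr hcc : Subgroup.zpowers c ≤ Subgroup.center (Γ ⧸ M)) hx
        have h5 := Subgroup.mem_center_iff.mp hxc g
        rw [h5, mul_inv_cancel_right]
        exact hx
      have hM'n : M'.Normal := by
        rw [hM']
        exact hZn.comap _
      have hle : M ≤ M' := by
        intro x hx
        rw [hM', Subgroup.mem_comap]
        have : (QuotientGroup.mk' M) x = 1 := (QuotientGroup.eq_one_iff x).mpr hx
        rw [this]
        exact Subgroup.one_mem _
      have hidx : M'.index < M.index := by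
        have e1 : M'.index = (Subgroup.zpowers c).index := by
          rw [hM']
          exact Subgroup.index_comap_of_surjective _ (QuotientGroup.mk'_surjective _)
        have e2 := (Subgroup.zpowers c).card_mul_index
        rw [Nat.card_zpowers, hco] at e2
        have e3 : Nat.card (Γ ⧸ M) = M.index := rfl
        rw [e1, ← e3, ← e2]
        have e4 : 0 < (Subgroup.zpowers c).index :=
          Nat.pos_of_ne_zero Subgroup.index_ne_zero_of_finite
        exact lt_mul_of_one_lt_left e4 (Fact.out : p.Prime).one_lt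
      have hmem : ∀ x ∈ M', (x : Γ ⧸ M) ∈ Subgroup.zpowers c := by
        intro x hx
        rw [hM'] at hx
        exact hx
      refine ih M' (by omega) ?_ (fun z hz => frob_step p ?_ ?_ hB hB' h z hz) f hf
      · refine hp.of_surjective (QuotientGroup.map M M' (MonoidHom.id Γ) hle) ?_
        intro y
        obtain ⟨x, rfl⟩ := QuotientGroup.mk_surjective y
        exact ⟨(x : Γ ⧸ M), rfl⟩
      · intro x hx a
        have hxc : (x : Γ ⧸ M) ∈ Subgroup.center (Γ ⧸ M) :=
          (Subgroup.zpowers_le.mpr hcc : Subgroup.zpowers c ≤ Subgroup.center (Γ ⧸ M))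
            (hmem x hx)
        exact Subgroup.mem_center_iff.mp hxc a
      · intro x hx
        obtain ⟨m, hm⟩ := Subgroup.mem_zpowers_iff.mp (hmem x hx)
        rw [← hm, ← zpow_natCast, ← zpow_mul, mul_comm, zpow_mul, zpow_natCast, hcp1, one_zpow]

end Pool.Agent.R674.Ce
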