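import Pool.Agent.R674.Ce.Sub
import Pool.Agent.Y63.NV.Pe
import Pool.Agent.Y63.NV.Krc
import Pool.Agent.Y564.NV.Clif

/-!
# The Knörr-Robinson sum and normal subgroups of index `p`
-/

set_option autoImplicit false

open scoped Classical

set_option linter.unusedSectionVars false

noncomputable section

namespace Pool.Agent.R674.Ce

open Pool.Agent.Y63.KR (IsPChain chainStabilizer conjSub conjSub_eq_iff mem_chainStabilizer
  mem_conjSub conjSub_le conj_mem_conjSub W W_eq_zero)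
open Pool.Agent.Y63.NV (locz numInvDz)
open Pool.Agent.Y63.AWC (numDefectZero)

variable {Γ : Type} [Group Γ] [Finite Γ] {p : ℕ}

lemma chs_top (J : Subgroup Γ) (F : Subgroup Γ → ℤ) :
    chs (Sp p (⊤ : Subgroup Γ)) (wt J F) = ∑ᶠ σ : {σ : Set (Subgroup Γ) // IsPChain p σ},
      (-1) ^ σ.1.ncard * F (J ⊓ chainStabilizer σ.1) := by
  symm
  unfold chs
  refine finsum_eq_of_bijective (fun σ : {σ : Set (Subgroup Γ) // IsPChain p σ} =>
    (⟨σ.1, fun P hP => ⟨σ.2.isPGroup P hP, σ.2.ne_bot P hP, le_top⟩, σ.2.chain⟩ :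
      {σ : Set (Subgroup Γ) // σ ⊆ Sp p ⊤ ∧ IsChain (· ≤ ·) σ})) ⟨?_, ?_⟩ ?_
  · intro σ τ h
    exact Subtype.ext (congrArg (fun t => t.1) h)
  · rintro ⟨τ, h1, h2⟩
    exact ⟨⟨τ, h2, fun P hP => (h1 hP).1, fun P hP => (h1 hP).2.1⟩, rfl⟩
  · intro σ
    rfl

/-- the commuting pairs -/
abbrev CP (Γ : Type) [Group Γ] : Type := {q : Γ × Γ // q.1 * q.2 = q.2 * q.1}

lemma sum_pairs [Fintype (CP Γ)] (J : Subgroup Γ) :
    chs (Sp p (⊤ : Subgroup Γ)) (wt J cpr) =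
      ∑ q : CP Γ, if q.1.1 ∈ J ∧ q.1.2 ∈ J then W p ({q.1.1, q.1.2} : Set Γ) else 0 := by
  have : Fintype {σ : Set (Subgroup Γ) // IsPChain p σ} := Fintype.ofFinite _
  rw [chs_top, finsum_eq_sum_of_fintype]
  have h1 : ∀ σ : {σ : Set (Subgroup Γ) // IsPChain p σ}, cpr (J ⊓ chainStabilizer σ.1) =
      ∑ q : CP Γ, if q.1.1 ∈ J ∧ q.1.2 ∈ J then
        (if ∀ P ∈ σ.1, ∀ x ∈ ({q.1.1, q.1.2} : Set Γ), conjSub x P = P then (1 : ℤ) else 0)
        else 0 := by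
    intro σ
    have e : ∀ q : CP Γ, (if q.1.1 ∈ J ∧ q.1.2 ∈ J then
        (if ∀ P ∈ σ.1, ∀ x ∈ ({q.1.1, q.1.2} : Set Γ), conjSub x P = P then (1 : ℤ) else 0)
        else 0) = if (q.1.1 ∈ J ∧ q.1.2 ∈ J) ∧
          (∀ P ∈ σ.1, ∀ x ∈ ({q.1.1, q.1.2} : Set Γ), conjSub x P = P) then (1 : ℤ) else 0 := by
      intro q
      split_ifs <;> tauto
    rw [Finset.sum_congr rfl fun q _ => e q, Finset.sum_boole]
    unfold cpr
    norm_cast
    rw [← Fintype.card_subtype, ← Nat.card_eq_fintype_card]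
    have hst : ∀ x : Γ, x ∈ J ⊓ chainStabilizer σ.1 ↔ x ∈ J ∧ ∀ P ∈ σ.1, conjSub x P = P := by
      intro x
      rw [Subgroup.mem_inf, mem_chainStabilizer]
    refine Nat.card_congr
      { toFun := fun q => ⟨⟨q.1, q.2.2⟩, ⟨((hst _).1 q.2.1.1).1, ((hst _).1 q.2.1.2).1⟩, ?_⟩
        invFun := fun q => ⟨q.1.1, ⟨(hst _).2 ⟨q.2.1.1, fun P hP => q.2.2 P hP _ (by simp)⟩,
          (hst _).2 ⟨q.2.1.2, fun P hP => q.2.2 P hP _ (by simp)⟩⟩, q.1.2⟩
        left_inv := fun q => rfl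
        right_inv := fun q => rfl }
    rintro P hP x (hx | hx)
    · rw [hx]; exact ((hst _).1 q.2.1.1).2 P hP
    · rw [show x = q.1.2 from hx]; exact ((hst _).1 q.2.1.2).2 P hP
  simp only [h1, Finset.mul_sum]
  rw [Finset.sum_comm]
  refine Finset.sum_congr rfl fun q _ => ?_
  by_cases h : q.1.1 ∈ J ∧ q.1.2 ∈ J
  · simp only [if_pos h]
    unfold W
    rw [finsum_eq_sum_of_fintype]
  · simp only [if_neg h]
    simp

lemma dvd_orderOf [Fact p.Prime] {G : Subgroup Γ} [G.Normal] (hG : IsPGroup p (Γ ⧸ G)) {x : Γ}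
    (hx : x ∉ G) : p ∣ orderOf x := by
  have h1 : orderOf (x : Γ ⧸ G) ∣ orderOf x := orderOf_map_dvd (QuotientGroup.mk' G) x
  obtain ⟨k, hk⟩ := (IsPGroup.iff_orderOf.1 hG) (x : Γ ⧸ G)
  refine dvd_trans ?_ h1
  rw [hk]
  refine dvd_pow_self p ?_
  rintro rfl
  rw [pow_zero, orderOf_eq_one_iff, QuotientGroup.eq_one_iff] at hk
  exact hx hk

/-- only the elements of `G` contribute -/
theorem AK_normal [Fact p.Prime] {G : Subgroup Γ} [G.Normal] (hG : IsPGroup p (Γ ⧸ G)) :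
    AK p Γ = chs (Sp p (⊤ : Subgroup Γ)) (wt G cpr) := by
  have : Fintype (CP Γ) := Fintype.ofFinite _
  rw [AK_chs, sum_pairs, sum_pairs]
  refine Finset.sum_congr rfl fun q _ => ?_
  rw [if_pos ⟨Subgroup.mem_top _, Subgroup.mem_top _⟩]
  by_cases h : q.1.1 ∈ G ∧ q.1.2 ∈ G
  · rw [if_pos h]
  · rw [if_neg h]
    by_cases h1 : q.1.1 ∈ G
    · have h2 : q.1.2 ∉ G := fun h2 => h ⟨h1, h2⟩
      rw [Set.pair_comm]
      refine W_eq_zero (s := 1) ?_ (dvd_orderOf hG h2)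
      rw [q.2, pow_one]
      group
    · refine W_eq_zero (s := 1) ?_ (dvd_orderOf hG h1)
      rw [← q.2, pow_one]
      group

/-- `|Γ|` times the number of characters of defect zero -/
def DK (p : ℕ) (Γ : Type) [Group Γ] : ℤ := (Nat.card Γ : ℤ) * numDefectZero p Γ

theorem AK_formula [Fact p.Prime] {G : Subgroup Γ} [G.Normal] (hi : G.index = p) :
    AK p Γ = AK p G - ∑ᶠ R : Subgroup Γ, if IsPGroup p R ∧ G ⊔ R = ⊤ ∧ G ⊓ R = ⊥ then
        AK p ↥(G ⊓ Subgroup.centralizer (R : Set Γ)) else 0 := by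
  have hG : IsPGroup p (Γ ⧸ G) := IsPGroup.of_card (n := 1) (by
    rw [pow_one]; exact hi)
  rw [AK_normal hG, decomposition hi, AK_sub]
  congr 1
  refine finsum_congr fun R => ?_
  split_ifs
  · rw [AK_sub]
  · rfl

end Pool.Agent.R674.Ce
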