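import Pool.Agent.R674.Ce.Ind

/-!
# The formula for extensions by arbitrary `p`-groups
-/

set_option autoImplicit false

open scoped Classical

set_option linter.unusedSectionVars false

noncomputable section

namespace Pool.Agent.R674.Ce

variable {Γ : Type} [Group Γ] [Finite Γ] {p : ℕ}

/-- The coefficient `(-1)^r p^(r(r-1)/2)` of an elementary abelian `p`-group `R` of order
`p^r`. -/
def mob (p : ℕ) {Γ : Type} [Group Γ] (R : Subgroup Γ) : ℤ :=
  (-1) ^ (Nat.card R).factorization p *
    (p : ℤ) ^ ((Nat.card R).factorization p * ((Nat.card R).factorization p - 1) / 2)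

lemma mob_bot : mob p (⊥ : Subgroup Γ) = 1 := by
  unfold mob
  rw [Subgroup.card_bot]
  simp

lemma mem_sup_comm {R S : Subgroup Γ} (h : ∀ r ∈ R, ∀ s ∈ S, s * r = r * s) (x : Γ) :
    x ∈ R ⊔ S ↔ ∃ r ∈ R, ∃ s ∈ S, x = r * s := by
  let E : Subgroup Γ :=
    { carrier := {x | ∃ r ∈ R, ∃ s ∈ S, x = r * s}
      one_mem' := ⟨1, R.one_mem, 1, S.one_mem, by simp⟩
      mul_mem' := by
        rintro _ _ ⟨r, hr, s, hs, rfl⟩ ⟨r', hr', s', hs', rfl⟩
        refine ⟨r * r', R.mul_mem hr hr', s * s', S.mul_mem hs hs', ?_⟩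
        have := h r' hr' s hs
        calc r * s * (r' * s') = r * (s * r') * s' := by group
          _ = r * (r' * s) * s' := by rw [this]
          _ = r * r' * (s * s') := by group
      inv_mem' := by
        rintro _ ⟨r, hr, s, hs, rfl⟩
        refine ⟨r⁻¹, R.inv_mem hr, s⁻¹, S.inv_mem hs, ?_⟩
        have := h r⁻¹ (R.inv_mem hr) s⁻¹ (S.inv_mem hs)
        rw [mul_inv_rev]
        exact this }
  have hE : R ⊔ S ≤ E := sup_le (fun r hr => ⟨r, hr, 1, S.one_mem, by simp⟩)
    (fun s hs => ⟨1, R.one_mem, s, hs, by simp⟩)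
  constructor
  · intro hx
    exact hE hx
  · rintro ⟨r, hr, s, hs, rfl⟩
    exact (R ⊔ S).mul_mem ((le_sup_left : R ≤ R ⊔ S) hr) ((le_sup_right : S ≤ R ⊔ S) hs)

variable [Fact p.Prime]

/-- a subgroup of order `p` is generated by each of its nontrivial elements -/
lemma zpowers_of_mem {S : Subgroup Γ} (hS : Nat.card S = p) {x : Γ} (hx : x ∈ S) (h1 : x ≠ 1) :
    Subgroup.zpowers x = S := by
  have hle : Subgroup.zpowers x ≤ S := by
    rw [Subgroup.zpowers_le]
    exact hx
  refine Subgroup.eq_of_le_of_card_ge hle ?_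
  have h2 : Nat.card (Subgroup.zpowers x) ∣ Nat.card S := Subgroup.card_dvd_of_le hle
  rw [hS] at h2 ⊢
  rcases (Nat.dvd_prime (Fact.out : p.Prime)).1 h2 with h3 | h3
  · exact absurd (Subgroup.zpowers_eq_bot.mp (Subgroup.card_eq_one.mp h3)) h1
  · exact h3.ge

/-- the number of subgroups of order `p` outside a subgroup of index `p` -/
lemma count_compl {E M : Subgroup Γ} (hE : IsElAb p E) {r : ℕ} (hr : Nat.card E = p ^ (r + 1))
    (hM : Nat.card ↥(M ⊓ E) = p ^ r) [Fintype (Subgroup Γ)] :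
    ((Finset.univ : Finset (Subgroup Γ)).filter
      (fun S => S ≤ E ∧ Nat.card S = p ∧ ¬ S ≤ M)).card = p ^ r := by
  have : Fintype Γ := Fintype.ofFinite Γ
  have hpr : p.Prime := Fact.out
  set X : Finset Γ := Finset.univ.filter (fun x => x ∈ E ∧ x ∉ M) with hX
  set Y : Finset (Subgroup Γ) := Finset.univ.filter
    (fun S => S ≤ E ∧ Nat.card S = p ∧ ¬ S ≤ M) with hY
  have hmap : ∀ x ∈ X, Subgroup.zpowers x ∈ Y := by
    intro x hx
    simp only [hX, Finset.mem_filter, Finset.mem_univ, true_and] at hx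
    simp only [hY, Finset.mem_filter, Finset.mem_univ, true_and]
    refine ⟨by rw [Subgroup.zpowers_le]; exact hx.1, ?_, fun h => hx.2
      (h (Subgroup.mem_zpowers x))⟩
    rw [Nat.card_zpowers]
    exact orderOf_eq_prime (hE.1 x hx.1) (fun h => hx.2 (h ▸ M.one_mem))
  have h1 := Finset.card_eq_sum_card_fiberwise hmap
  have h2 : ∀ S ∈ Y, (X.filter (fun x => Subgroup.zpowers x = S)).card = p - 1 := by
    intro S hS
    simp only [hY, Finset.mem_filter, Finset.mem_univ, true_and] at hS
    obtain ⟨hSE, hSp, hSM⟩ := hS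
    have e : X.filter (fun x => Subgroup.zpowers x = S) =
        (Finset.univ.filter (fun x : Γ => x ∈ S)).erase 1 := by
      ext x
      simp only [hX, Finset.mem_filter, Finset.mem_univ, true_and, Finset.mem_erase]
      constructor
      · rintro ⟨⟨h3, h4⟩, h5⟩
        exact ⟨fun h => h4 (h ▸ M.one_mem), h5 ▸ Subgroup.mem_zpowers x⟩
      · rintro ⟨h3, h4⟩
        have h5 := zpowers_of_mem hSp h4 h3
        refine ⟨⟨hSE h4, fun h6 => hSM ?_⟩, h5⟩
        rw [← h5, Subgroup.zpowers_le]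
        exact h6
    rw [e, Finset.card_erase_of_mem (by simp [S.one_mem])]
    congr 1
    rw [← hSp, Nat.card_eq_fintype_card, Fintype.card_subtype]
  rw [Finset.sum_congr rfl h2, Finset.sum_const, smul_eq_mul] at h1
  have h3 : X.card = p ^ (r + 1) - p ^ r := by
    have e1 : X = (Finset.univ.filter (fun x : Γ => x ∈ E)) \
        (Finset.univ.filter (fun x : Γ => x ∈ M ⊓ E)) := by
      ext x
      simp only [hX, Finset.mem_filter, Finset.mem_univ, true_and, Finset.mem_sdiff,
        Subgroup.mem_inf]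
      tauto
    rw [e1, Finset.card_sdiff_of_subset (fun x hx => by
      simp only [Finset.mem_filter, Finset.mem_univ, true_and] at hx ⊢
      exact hx.2)]
    rw [← hr, ← hM, Nat.card_eq_fintype_card, Nat.card_eq_fintype_card, Fintype.card_subtype,
      Fintype.card_subtype]
  rw [h3] at h1
  have h4 : p ^ (r + 1) - p ^ r = p ^ r * (p - 1) := by
    rw [pow_succ, Nat.mul_sub, mul_one]
  rw [h4] at h1
  have h5 : 0 < p - 1 := by
    have := hpr.two_le
    omega
  exact (Nat.eq_of_mul_eq_mul_right h5 h1).symm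

lemma elab_card {E : Subgroup Γ} (hE : IsElAb p E) :
    Nat.card E = p ^ (Nat.card E).factorization p := by
  have h : IsPGroup p E := fun x => ⟨1, by
    rw [pow_one]
    exact Subtype.ext (hE.1 x x.2)⟩
  obtain ⟨k, hk⟩ := IsPGroup.iff_card.1 h
  rw [hk, (Fact.out : p.Prime).factorization_pow]
  simp

lemma mob_count {E M : Subgroup Γ} (hE : IsElAb p E) (hi : M.relIndex E = p)
    [Fintype (Subgroup Γ)] :
    mob p (M ⊓ E) * (((Finset.univ : Finset (Subgroup Γ)).filter
      (fun S => S ≤ E ∧ Nat.card S = p ∧ ¬ S ≤ M)).card : ℤ) = - mob p E := by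
  have hpr : p.Prime := Fact.out
  have h1 : Nat.card ↥(M ⊓ E) * p = Nat.card E := by
    have h2 := (M.subgroupOf E).card_mul_index
    have h3 : (M.subgroupOf E).index = p := hi
    rw [h3] at h2
    rw [← h2]
    congr 1
    have h4 := Nat.card_congr (Subgroup.equivMapOfInjective (M.subgroupOf E) E.subtype
      E.subtype_injective).toEquiv
    rw [h4, Subgroup.subgroupOf_map_subtype]
  have hA : IsElAb p (M ⊓ E) := ⟨fun x hx => hE.1 x hx.2, fun x hx y hy => hE.2 x hx.2 y hy.2⟩
  obtain ⟨r, hr⟩ : ∃ r, Nat.card ↥(M ⊓ E) = p ^ r := ⟨_, elab_card hA⟩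
  have hr' : Nat.card E = p ^ (r + 1) := by rw [← h1, hr, pow_succ]
  rw [count_compl hE hr' hr]
  unfold mob
  rw [hr, hr', hpr.factorization_pow, hpr.factorization_pow]
  simp only [Finsupp.single_eq_same]
  have e : (r + 1) * (r + 1 - 1) / 2 = r * (r - 1) / 2 + r := by
    have : (r + 1) * (r + 1 - 1) = r * (r - 1) + r * 2 := by
      cases r with
      | zero => rfl
      | succ n => simp only [Nat.add_sub_cancel]; ring
    rw [this, Nat.add_mul_div_right _ _ (by norm_num)]
  rw [e, pow_add, pow_succ]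
  push_cast
  ring

end Pool.Agent.R674.Ce
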