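import Pool.Agent.R674.Ce.Mob

/-!
# The formula for extensions by arbitrary `p`-groups: the induction
-/

set_option autoImplicit false

open scoped Classical

set_option linter.unusedSectionVars false

noncomputable section

namespace Pool.Agent.R674.Ce

variable {Γ : Type} [Group Γ] [Finite Γ] {p : ℕ} [Fact p.Prime]

lemma cent_sup (R S : Subgroup Γ) (x : Γ) : x ∈ Subgroup.centralizer ((R ⊔ S : Subgroup Γ) : Set Γ) ↔
    x ∈ Subgroup.centralizer (R : Set Γ) ∧ x ∈ Subgroup.centralizer (S : Set Γ) := by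
  constructor
  · intro h
    rw [Subgroup.mem_centralizer_iff] at h
    exact ⟨Subgroup.mem_centralizer_iff.mpr fun r hr => h r ((le_sup_left : R ≤ R ⊔ S) hr),
      Subgroup.mem_centralizer_iff.mpr fun s hs => h s ((le_sup_right : S ≤ R ⊔ S) hs)⟩
  · rintro ⟨h1, h2⟩
    have h3 : R ⊔ S ≤ Subgroup.centralizer ({x} : Set Γ) := by
      refine sup_le (fun r hr => ?_) (fun s hs => ?_)
      · rw [Subgroup.mem_centralizer_iff]
        rintro y rfl
        exact (Subgroup.mem_centralizer_iff.mp h1 r hr).symm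
      · rw [Subgroup.mem_centralizer_iff]
        rintro y rfl
        exact (Subgroup.mem_centralizer_iff.mp h2 s hs).symm
    rw [Subgroup.mem_centralizer_iff]
    intro y hy
    exact (Subgroup.mem_centralizer_iff.mp (h3 hy) x rfl).symm

/-- a subgroup of index `p` containing `G ∩ K` -/
lemma exists_max {G : Subgroup Γ} [hGn : G.Normal] (hG : IsPGroup p (Γ ⧸ G)) {K : Subgroup Γ}
    (hK : ¬ K ≤ G) : ∃ M : Subgroup Γ, M ≤ K ∧ G ⊓ K ≤ M ∧
      (∀ k ∈ K, ∀ m ∈ M, k * m * k⁻¹ ∈ M) ∧ M.relIndex K = p := by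
  have hp : IsPGroup p (K ⧸ G.subgroupOf K) :=
    hG.of_injective (QuotientGroup.map (G.subgroupOf K) G K.subtype (by intro x hx; exact hx)) (by
      rw [injective_iff_map_eq_one]
      intro x hx
      obtain ⟨y, rfl⟩ := QuotientGroup.mk_surjective x
      rw [QuotientGroup.eq_one_iff]
      have : ((y : Γ) : Γ ⧸ G) = 1 := hx
      exact (QuotientGroup.eq_one_iff (y : Γ)).mp this)
  obtain ⟨k, hk⟩ := IsPGroup.iff_card.1 hp
  have hk0 : k ≠ 0 := by
    intro h0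
    rw [h0, pow_zero] at hk
    have h1 : G.subgroupOf K = ⊤ := Subgroup.index_eq_one.1 hk
    rw [Subgroup.subgroupOf_eq_top] at h1
    exact hK h1
  have hpr : p.Prime := Fact.out
  obtain ⟨N', hN'⟩ := Sylow.exists_subgroup_card_pow_prime (G := K ⧸ G.subgroupOf K) p
    (n := k - 1) (by rw [hk]; exact pow_dvd_pow p (Nat.sub_le k 1))
  have hi : N'.index = p := by
    have e1 := N'.card_mul_index
    rw [hN', hk] at e1
    have e2 : p ^ k = p ^ (k - 1) * p := by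
      rw [← pow_succ]
      congr 1
      omega
    rw [e2] at e1
    exact Nat.eq_of_mul_eq_mul_left (pow_pos hpr.pos _) e1
  have hN'n : N'.Normal := by
    refine Subgroup.normal_of_index_eq_minFac_card ?_
    rw [hi, hk, hpr.pow_minFac hk0]
  obtain ⟨M', hM'⟩ : ∃ M' : Subgroup K, M' = N'.comap (QuotientGroup.mk' (G.subgroupOf K)) :=
    ⟨_, rfl⟩
  have hM'n : M'.Normal := by
    rw [hM']
    exact hN'n.comap _
  have hM'i : M'.index = p := by
    rw [hM', Subgroup.index_comap_of_surjective _ (QuotientGroup.mk'_surjective _), hi]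
  have hM'G : G.subgroupOf K ≤ M' := by
    intro x hx
    rw [hM', Subgroup.mem_comap]
    have : (QuotientGroup.mk' (G.subgroupOf K)) x = 1 := (QuotientGroup.eq_one_iff x).mpr hx
    rw [this]
    exact N'.one_mem
  refine ⟨M'.map K.subtype, ?_, ?_, ?_, ?_⟩
  · rintro _ ⟨x, _, rfl⟩
    exact x.2
  · rintro x ⟨h1, h2⟩
    exact ⟨⟨x, h2⟩, hM'G h1, rfl⟩
  · rintro k hk _ ⟨m, hm, rfl⟩
    exact ⟨⟨k, hk⟩ * m * ⟨k, hk⟩⁻¹, hM'n.conj_mem m hm ⟨k, hk⟩, rfl⟩
  · change ((M'.map K.subtype).subgroupOf K).index = p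
    have : (M'.map K.subtype).subgroupOf K = M' :=
      Subgroup.comap_map_eq_self_of_injective K.subtype_injective M'
    rw [this, hM'i]

section

variable {G K M : Subgroup Γ} [hGn : G.Normal] (hMK : M ≤ K) (hGM : G ⊓ K ≤ M)
  (hMi : M.relIndex K = p)

include hMK hGM hMi

lemma good_of_pair {R S : Subgroup Γ} (hS : S ≤ K ∧ Nat.card S = p ∧ ¬ S ≤ M)
    (hR : R ≤ M ⊓ Subgroup.centralizer (S : Set Γ) ∧ IsElAb p R ∧ G ⊓ R = ⊥) :
    (R ⊔ S ≤ K ∧ IsElAb p (R ⊔ S) ∧ G ⊓ (R ⊔ S) = ⊥) ∧ M ⊓ (R ⊔ S) = R := by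
  obtain ⟨hSK, hSp, hSM⟩ := hS
  obtain ⟨hRM, hRe, hRG⟩ := hR
  have hcm : ∀ r ∈ R, ∀ s ∈ S, s * r = r * s := fun r hr s hs =>
    Subgroup.mem_centralizer_iff.mp (hRM hr).2 s hs
  have hm := mem_sup_comm hcm
  have hSM' : ∀ s ∈ S, s ∈ M → s = 1 := by
    intro s hs hsM
    by_contra h1
    apply hSM
    rw [← zpowers_of_mem hSp hs h1, Subgroup.zpowers_le]
    exact hsM
  have hSz : ∀ x ∈ S, ∀ y ∈ S, x * y = y * x := by
    have : IsCyclic S := isCyclic_of_prime_card hSp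
    intro x hx y hy
    have := (IsCyclic.commGroup (α := S)).mul_comm ⟨x, hx⟩ ⟨y, hy⟩
    exact congrArg Subtype.val this
  have hSe : ∀ x ∈ S, x ^ p = 1 := by
    intro x hx
    have : (⟨x, hx⟩ : S) ^ p = 1 := by
      rw [← hSp]
      exact pow_card_eq_one'
    exact congrArg Subtype.val this
  have hME : M ⊓ (R ⊔ S) = R := by
    apply le_antisymm
    · rintro x ⟨hxM, hx⟩
      obtain ⟨r, hr, s, hs, rfl⟩ := (hm x).1 hx
      have h2 : s ∈ M := by
        have h3 := M.mul_mem (M.inv_mem (hRM hr).1) hxM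
        rwa [inv_mul_cancel_left] at h3
      rw [hSM' s hs h2, mul_one]
      exact hr
    · exact le_inf (fun r hr => (hRM hr).1) le_sup_left
  refine ⟨⟨sup_le (fun r hr => hMK (hRM hr).1) hSK, ⟨?_, ?_⟩, ?_⟩, hME⟩
  · intro x hx
    obtain ⟨r, hr, s, hs, rfl⟩ := (hm x).1 hx
    have h4 : Commute r s := (hcm r hr s hs).symm
    rw [h4.mul_pow, hSe s hs, mul_one]
    exact hRe.1 r hr
  · intro x hx y hy
    obtain ⟨r, hr, s, hs, rfl⟩ := (hm x).1 hx
    obtain ⟨r', hr', s', hs', rfl⟩ := (hm y).1 hy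
    have h4 : r * r' = r' * r := hRe.2 r hr r' hr'
    calc r * s * (r' * s') = r * (s * r') * s' := by group
      _ = r * (r' * s) * s' := by rw [hcm r' hr' s hs]
      _ = r * r' * (s * s') := by group
      _ = r' * r * (s' * s) := by rw [h4, hSz s hs s' hs']
      _ = r' * (r * s') * s := by group
      _ = r' * (s' * r) * s := by rw [hcm r hr s' hs']
      _ = r' * s' * (r * s) := by group
  · rw [eq_bot_iff]
    rintro x ⟨hxG, hx⟩
    have hxK : x ∈ K := (sup_le (fun r hr => hMK (hRM hr).1) hSK : R ⊔ S ≤ K) hx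
    have h2 : x ∈ M ⊓ (R ⊔ S) := ⟨hGM ⟨hxG, hxK⟩, hx⟩
    rw [hME] at h2
    rw [← hRG]
    exact ⟨hxG, h2⟩

lemma relIndex_good {E : Subgroup Γ} (hEK : E ≤ K) (hE : IsElAb p E) (hEM : ¬ E ≤ M) :
    M.relIndex E = p := by
  have hpr : p.Prime := Fact.out
  have h1 : M.relIndex E ≤ p := by
    rw [← hMi]
    exact Subgroup.relIndex_le_of_le_right hEK (by rw [hMi]; exact hpr.ne_zero)
  have h2 : M.relIndex E ∣ Nat.card E := Subgroup.index_dvd_card _
  rw [elab_card hE] at h2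
  obtain ⟨k, _, hk⟩ := (Nat.dvd_prime_pow hpr).1 h2
  rw [hk] at h1 ⊢
  rcases Nat.lt_or_ge k 1 with h3 | h3
  · exfalso
    apply hEM
    have : k = 0 := by omega
    rw [this, pow_zero] at hk
    exact Subgroup.relIndex_eq_one.mp hk
  · have h4 : k ≤ 1 := by
      by_contra h5
      have h6 : p ^ 2 ≤ p ^ k := Nat.pow_le_pow_right hpr.pos (by omega)
      have h7 : p < p ^ 2 := by
        have := hpr.one_lt
        nlinarith
      omega
    have : k = 1 := by omega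
    rw [this, pow_one]

lemma pair_of_good {E S : Subgroup Γ} (hEK : E ≤ K) (hE : IsElAb p E) (hEG : G ⊓ E = ⊥)
    (hSE : S ≤ E) (hSp : Nat.card S = p) (hSM : ¬ S ≤ M) :
    (S ≤ K ∧ Nat.card S = p ∧ ¬ S ≤ M) ∧
    (M ⊓ E ≤ M ⊓ Subgroup.centralizer (S : Set Γ) ∧ IsElAb p (M ⊓ E) ∧ G ⊓ (M ⊓ E) = ⊥) ∧
    (M ⊓ E) ⊔ S = E := by
  have hpr : p.Prime := Fact.out
  refine ⟨⟨hSE.trans hEK, hSp, hSM⟩, ⟨?_, ?_, ?_⟩, ?_⟩
  · refine le_inf inf_le_left fun x hx => ?_
    rw [Subgroup.mem_centralizer_iff]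
    intro s hs
    exact hE.2 s (hSE hs) x hx.2
  · exact ⟨fun x hx => hE.1 x hx.2, fun x hx y hy => hE.2 x hx.2 y hy.2⟩
  · rw [eq_bot_iff, ← hEG]
    exact inf_le_inf_left _ inf_le_right
  · have h0 : (M ⊓ E) ⊔ S ≤ E := sup_le inf_le_right hSE
    have h1 := relIndex_good hMK hGM hMi hEK hE (fun h => hSM (hSE.trans h))
    have h2 : (M ⊓ E).relIndex E = p := by
      rw [Subgroup.inf_relIndex_right]
      exact h1
    have h3 := Subgroup.relIndex_mul_relIndex (M ⊓ E) ((M ⊓ E) ⊔ S) E le_sup_left h0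
    rw [h2] at h3
    rcases (Nat.dvd_prime hpr).1 ⟨_, h3.symm⟩ with h4 | h4
    · exfalso
      have h5 := Subgroup.relIndex_eq_one.mp h4
      exact hSM ((le_sup_right.trans h5).trans inf_le_left)
    · rw [h4] at h3
      have h5 : ((M ⊓ E) ⊔ S).relIndex E = 1 :=
        Nat.eq_of_mul_eq_mul_left hpr.pos (by rw [h3, mul_one])
      exact le_antisymm h0 (Subgroup.relIndex_eq_one.mp h5)

/-- the reindexing of the double sum -/
lemma double_sum (D : Subgroup Γ → ℤ) [Fintype (Subgroup Γ)] :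
    (∑ S : Subgroup Γ, if S ≤ K ∧ Nat.card S = p ∧ ¬ S ≤ M then
      ∑ R : Subgroup Γ, (if R ≤ M ⊓ Subgroup.centralizer (S : Set Γ) ∧ IsElAb p R ∧ G ⊓ R = ⊥ then
        mob p R * D (R ⊔ S) else 0) else 0) =
    - ∑ E : Subgroup Γ, if (E ≤ K ∧ IsElAb p E ∧ G ⊓ E = ⊥) ∧ ¬ E ≤ M then
      mob p E * D E else 0 := by
  have h1 : ∀ S : Subgroup Γ, (if S ≤ K ∧ Nat.card S = p ∧ ¬ S ≤ M then
      ∑ R : Subgroup Γ, (if R ≤ M ⊓ Subgroup.centralizer (S : Set Γ) ∧ IsElAb p R ∧ G ⊓ R = ⊥ then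
        mob p R * D (R ⊔ S) else 0) else 0) =
      ∑ E : Subgroup Γ, (if ((E ≤ K ∧ IsElAb p E ∧ G ⊓ E = ⊥) ∧ ¬ E ≤ M) ∧
        (S ≤ E ∧ Nat.card S = p ∧ ¬ S ≤ M) then mob p (M ⊓ E) * D E else 0) := by
    intro S
    by_cases hS : S ≤ K ∧ Nat.card S = p ∧ ¬ S ≤ M
    · rw [if_pos hS, ← Finset.sum_filter, ← Finset.sum_filter]
      refine Finset.sum_bij' (fun R _ => R ⊔ S) (fun E _ => M ⊓ E) ?_ ?_ ?_ ?_ ?_
      · intro R hR
        simp only [Finset.mem_filter, Finset.mem_univ, true_and] at hR ⊢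
        have h2 := good_of_pair hMK hGM hMi hS hR
        exact ⟨⟨h2.1, fun h => hS.2.2 (le_sup_right.trans h)⟩, le_sup_right, hS.2.1, hS.2.2⟩
      · intro E hE
        simp only [Finset.mem_filter, Finset.mem_univ, true_and] at hE ⊢
        obtain ⟨⟨⟨h2, h3, h4⟩, h5⟩, h6, h7, h8⟩ := hE
        exact (pair_of_good hMK hGM hMi h2 h3 h4 h6 h7 h8).2.1
      · intro R hR
        simp only [Finset.mem_filter, Finset.mem_univ, true_and] at hR
        exact (good_of_pair hMK hGM hMi hS hR).2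
      · intro E hE
        simp only [Finset.mem_filter, Finset.mem_univ, true_and] at hE
        obtain ⟨⟨⟨h2, h3, h4⟩, h5⟩, h6, h7, h8⟩ := hE
        exact (pair_of_good hMK hGM hMi h2 h3 h4 h6 h7 h8).2.2
      · intro R hR
        simp only [Finset.mem_filter, Finset.mem_univ, true_and] at hR
        rw [(good_of_pair hMK hGM hMi hS hR).2]
    · rw [if_neg hS]
      symm
      refine Finset.sum_eq_zero fun E _ => ?_
      rw [if_neg]
      rintro ⟨⟨⟨h2, _, _⟩, _⟩, h6, h7, h8⟩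
      exact hS ⟨h6.trans h2, h7, h8⟩
  rw [Finset.sum_congr rfl fun S _ => h1 S, Finset.sum_comm, ← Finset.sum_neg_distrib]
  refine Finset.sum_congr rfl fun E _ => ?_
  by_cases hE : (E ≤ K ∧ IsElAb p E ∧ G ⊓ E = ⊥) ∧ ¬ E ≤ M
  · rw [if_pos hE]
    have h2 : ∀ S : Subgroup Γ, (if ((E ≤ K ∧ IsElAb p E ∧ G ⊓ E = ⊥) ∧ ¬ E ≤ M) ∧
        (S ≤ E ∧ Nat.card S = p ∧ ¬ S ≤ M) then mob p (M ⊓ E) * D E else 0) =
        if (S ≤ E ∧ Nat.card S = p ∧ ¬ S ≤ M) then mob p (M ⊓ E) * D E else 0 := by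
      intro S
      by_cases hS : S ≤ E ∧ Nat.card S = p ∧ ¬ S ≤ M
      · rw [if_pos hS, if_pos ⟨hE, hS⟩]
      · rw [if_neg hS, if_neg fun h => hS h.2]
    rw [Finset.sum_congr rfl fun S _ => h2 S, ← Finset.sum_filter, Finset.sum_const, nsmul_eq_mul]
    have h3 := mob_count hE.1.2.1 (relIndex_good hMK hGM hMi hE.1.1 hE.1.2.1 hE.2)
    calc (((Finset.univ : Finset (Subgroup Γ)).filter
          (fun S => S ≤ E ∧ Nat.card S = p ∧ ¬ S ≤ M)).card : ℤ) * (mob p (M ⊓ E) * D E) =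
        mob p (M ⊓ E) * (((Finset.univ : Finset (Subgroup Γ)).filter
          (fun S => S ≤ E ∧ Nat.card S = p ∧ ¬ S ≤ M)).card : ℤ) * D E := by ring
      _ = -(mob p E * D E) := by rw [h3]; ring
  · rw [if_neg hE, neg_zero]
    refine Finset.sum_eq_zero fun S _ => ?_
    rw [if_neg fun h => hE h.1]

end

/-- **The formula for extensions by arbitrary `p`-groups.** -/
theorem mob_formula (G : Subgroup Γ) [hGn : G.Normal] (hG : IsPGroup p (Γ ⧸ G))
    (d : Subgroup Γ → ℤ)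
    (hd : ∀ K M : Subgroup Γ, M ≤ K → G ⊓ K ≤ M → (∀ k ∈ K, ∀ m ∈ M, k * m * k⁻¹ ∈ M) →
      M.relIndex K = p → d K = d M - ∑ᶠ S : Subgroup Γ, if S ≤ K ∧ Nat.card S = p ∧ ¬ S ≤ M then
        d (M ⊓ Subgroup.centralizer (S : Set Γ)) else 0) :
    ∀ (n : ℕ) (K : Subgroup Γ), Nat.card K ≤ n → d K = ∑ᶠ R : Subgroup Γ,
      if R ≤ K ∧ IsElAb p R ∧ G ⊓ R = ⊥ then
        mob p R * d (G ⊓ K ⊓ Subgroup.centralizer (R : Set Γ)) else 0 := by
  have : Fintype (Subgroup Γ) := Fintype.ofFinite _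
  intro n
  induction n with
  | zero =>
    intro K hK
    have := Nat.card_pos (α := K)
    omega
  | succ n ih =>
    intro K hn
    rw [finsum_eq_sum_of_fintype]
    by_cases hKG : K ≤ G
    · rw [Finset.sum_eq_single (⊥ : Subgroup Γ)]
      · have e1 : G ⊓ K ⊓ Subgroup.centralizer ((⊥ : Subgroup Γ) : Set Γ) = K := by
          rw [inf_eq_right.mpr hKG]
          refine inf_eq_left.mpr fun x _ => ?_
          rw [Subgroup.mem_centralizer_iff]
          intro y hy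
          rw [Subgroup.mem_bot.mp hy]
          group
        rw [if_pos ⟨bot_le, ⟨fun x hx => by rw [Subgroup.mem_bot.mp hx, one_pow],
          fun x hx y hy => by rw [Subgroup.mem_bot.mp hx, Subgroup.mem_bot.mp hy]⟩,
          inf_bot_eq _⟩, mob_bot, e1, one_mul]
      · intro R _ hR
        rw [if_neg]
        rintro ⟨h1, _, h2⟩
        apply hR
        rw [← h2]
        exact (inf_eq_right.mpr (h1.trans hKG)).symm
      · intro h
        exact absurd (Finset.mem_univ _) h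
    · obtain ⟨M, hMK, hGM, hMn, hMi⟩ := exists_max hG hKG
      have hpr : p.Prime := Fact.out
      have hlt : Nat.card M < Nat.card K := by
        refine lt_of_le_of_ne (Subgroup.card_le_of_le hMK) fun h => ?_
        have h1 : M = K := Subgroup.eq_of_le_of_card_ge hMK h.ge
        rw [h1, Subgroup.relIndex_self] at hMi
        exact hpr.one_lt.ne hMi
      have hGMK : G ⊓ M = G ⊓ K := by
        apply le_antisymm
        · exact inf_le_inf_left _ hMK
        · exact le_inf inf_le_left hGM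
      have h1 := ih M (by omega)
      rw [finsum_eq_sum_of_fintype, hGMK] at h1
      have h2 : ∀ S : Subgroup Γ, d (M ⊓ Subgroup.centralizer (S : Set Γ)) =
          ∑ R : Subgroup Γ, (if R ≤ M ⊓ Subgroup.centralizer (S : Set Γ) ∧ IsElAb p R ∧
            G ⊓ R = ⊥ then mob p R * d (G ⊓ K ⊓ Subgroup.centralizer
              ((R ⊔ S : Subgroup Γ) : Set Γ)) else 0) := by
        intro S
        rw [ih (M ⊓ Subgroup.centralizer (S : Set Γ)) (by
          have := Subgroup.card_le_of_le (inf_le_left :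
            M ⊓ Subgroup.centralizer (S : Set Γ) ≤ M)
          omega), finsum_eq_sum_of_fintype]
        refine Finset.sum_congr rfl fun R _ => ?_
        have e1 : G ⊓ (M ⊓ Subgroup.centralizer (S : Set Γ)) ⊓ Subgroup.centralizer (R : Set Γ) =
            G ⊓ K ⊓ Subgroup.centralizer ((R ⊔ S : Subgroup Γ) : Set Γ) := by
          ext x
          rw [Subgroup.mem_inf, Subgroup.mem_inf, Subgroup.mem_inf, Subgroup.mem_inf,
            Subgroup.mem_inf, cent_sup]
          constructor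
          · rintro ⟨⟨h3, h4, h5⟩, h6⟩
            exact ⟨⟨h3, hMK h4⟩, h6, h5⟩
          · rintro ⟨⟨h3, h4⟩, h5, h6⟩
            exact ⟨⟨h3, hGM (Subgroup.mem_inf.mpr ⟨h3, h4⟩), h6⟩, h5⟩
        rw [e1]
      rw [hd K M hMK hGM hMn hMi, finsum_eq_sum_of_fintype, h1]
      have h3 : (∑ S : Subgroup Γ, if S ≤ K ∧ Nat.card S = p ∧ ¬ S ≤ M then
          d (M ⊓ Subgroup.centralizer (S : Set Γ)) else 0) =
          ∑ S : Subgroup Γ, if S ≤ K ∧ Nat.card S = p ∧ ¬ S ≤ M then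
            ∑ R : Subgroup Γ, (if R ≤ M ⊓ Subgroup.centralizer (S : Set Γ) ∧ IsElAb p R ∧
            G ⊓ R = ⊥ then mob p R * (fun E : Subgroup Γ => d (G ⊓ K ⊓ Subgroup.centralizer
              (E : Set Γ))) (R ⊔ S) else 0) else 0 := by
        refine Finset.sum_congr rfl fun S _ => ?_
        rw [h2]
      have h5 := double_sum (G := G) hMK hGM hMi (fun E : Subgroup Γ =>
        d (G ⊓ K ⊓ Subgroup.centralizer (E : Set Γ)))
      rw [h3, h5, sub_neg_eq_add, ← Finset.sum_add_distrib]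
      refine Finset.sum_congr rfl fun R _ => ?_
      by_cases hR : R ≤ M
      · rw [if_neg (show ¬ ((R ≤ K ∧ IsElAb p R ∧ G ⊓ R = ⊥) ∧ ¬ R ≤ M) from fun h => h.2 hR),
          add_zero]
        by_cases h4 : IsElAb p R ∧ G ⊓ R = ⊥
        · rw [if_pos ⟨hR, h4⟩, if_pos ⟨hR.trans hMK, h4⟩]
        · rw [if_neg (fun h => h4 h.2), if_neg (fun h => h4 h.2)]
      · rw [if_neg (show ¬ (R ≤ M ∧ IsElAb p R ∧ G ⊓ R = ⊥) from fun h => hR h.1), zero_add]
        by_cases h4 : R ≤ K ∧ IsElAb p R ∧ G ⊓ R = ⊥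
        · rw [if_pos ⟨h4, hR⟩, if_pos h4]
        · rw [if_neg (fun h => h4 h.1), if_neg h4]

end Pool.Agent.R674.Ce
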