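import Pool.Agent.R674.Ce.CD

/-!
# Chains of `p`-subgroups of a subgroup
-/

set_option autoImplicit false

open scoped Classical

set_option linter.unusedSectionVars false

noncomputable section

namespace Pool.Agent.R674.Ce

open Pool.Agent.Y63.KR (IsPChain chainStabilizer conjSub conjSub_eq_iff mem_chainStabilizer
  mem_conjSub conjSub_le conj_mem_conjSub)

variable {Γ : Type} [Group Γ] [Finite Γ] {p : ℕ}

lemma conjSub_map {K : Subgroup Γ} (P : Subgroup K) (x : K) :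
    conjSub (x : Γ) (P.map K.subtype) = (conjSub x P).map K.subtype := by
  unfold conjSub
  rw [Subgroup.map_map, Subgroup.map_map]
  congr 1

lemma stab_map (K : Subgroup Γ) (σ : Set (Subgroup K)) :
    K ⊓ chainStabilizer ((fun P : Subgroup K => P.map K.subtype) '' σ) =
      (chainStabilizer σ).map K.subtype := by
  ext x
  rw [Subgroup.mem_inf, mem_chainStabilizer, Subgroup.mem_map]
  constructor
  · rintro ⟨hx, h⟩
    refine ⟨⟨x, hx⟩, ?_, rfl⟩
    rw [mem_chainStabilizer]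
    intro P hP
    have h1 := h _ ⟨P, hP, rfl⟩
    have h2 := conjSub_map P ⟨x, hx⟩
    change conjSub x (P.map K.subtype) = _ at h2
    change conjSub x (P.map K.subtype) = P.map K.subtype at h1
    rw [h2] at h1
    exact Subgroup.map_injective K.subtype_injective h1
  · rintro ⟨y, hy, rfl⟩
    refine ⟨y.2, ?_⟩
    rintro _ ⟨P, hP, rfl⟩
    have h2 := conjSub_map P y
    change conjSub (y : Γ) (P.map K.subtype) = P.map K.subtype
    rw [h2, mem_chainStabilizer.mp hy P hP]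

theorem chs_subgroup (K : Subgroup Γ) (F : Subgroup Γ → ℤ) :
    chs (Sp p K) (wt K F) = ∑ᶠ σ : {σ : Set (Subgroup K) // IsPChain p σ},
      (-1) ^ σ.1.ncard * F ((chainStabilizer σ.1).map K.subtype) := by
  symm
  unfold chs
  have hinj : Function.Injective (fun P : Subgroup K => P.map K.subtype) :=
    Subgroup.map_injective K.subtype_injective
  have hle : ∀ P Q : Subgroup K, P.map K.subtype ≤ Q.map K.subtype ↔ P ≤ Q := fun P Q =>
    Subgroup.map_le_map_iff_of_injective K.subtype_injective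
  refine finsum_eq_of_bijective (fun σ : {σ : Set (Subgroup K) // IsPChain p σ} =>
    (⟨(fun P : Subgroup K => P.map K.subtype) '' σ.1, ?_, ?_⟩ :
      {σ : Set (Subgroup Γ) // σ ⊆ Sp p K ∧ IsChain (· ≤ ·) σ})) ⟨?_, ?_⟩ ?_
  · rintro _ ⟨P, hP, rfl⟩
    refine ⟨(σ.2.isPGroup P hP).map _, ?_, ?_⟩
    · intro h
      exact σ.2.ne_bot P hP ((Subgroup.map_eq_bot_iff_of_injective P K.subtype_injective).1 h)
    · rintro _ ⟨x, _, rfl⟩
      exact x.2
  · rintro _ ⟨P, hP, rfl⟩ _ ⟨Q, hQ, rfl⟩ _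
    rcases σ.2.chain.total hP hQ with h | h
    · exact Or.inl ((hle P Q).2 h)
    · exact Or.inr ((hle Q P).2 h)
  · intro σ τ h
    have h1 := congrArg Subtype.val h
    exact Subtype.ext (hinj.image_injective h1)
  · rintro ⟨τ, h1, h2⟩
    have h3 : ∀ P ∈ τ, (P.subgroupOf K).map K.subtype = P := fun P hP => by
      rw [Subgroup.subgroupOf_map_subtype, inf_eq_left.mpr (h1 hP).2.2]
    refine ⟨⟨(fun P : Subgroup Γ => P.subgroupOf K) '' τ, ⟨?_, ?_, ?_⟩⟩, ?_⟩
    · rintro _ ⟨P, hP, rfl⟩ _ ⟨Q, hQ, rfl⟩ _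
      rcases h2.total hP hQ with h | h
      · left
        change P.subgroupOf K ≤ Q.subgroupOf K
        rw [← hle, h3 P hP, h3 Q hQ]
        exact h
      · right
        change Q.subgroupOf K ≤ P.subgroupOf K
        rw [← hle, h3 P hP, h3 Q hQ]
        exact h
    · rintro _ ⟨P, hP, rfl⟩
      exact (h1 hP).1.comap_subtype
    · rintro _ ⟨P, hP, rfl⟩ h
      apply (h1 hP).2.1
      rw [← h3 P hP]
      change (P.subgroupOf K).map K.subtype = ⊥
      rw [show P.subgroupOf K = ⊥ from h, Subgroup.map_bot]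
    · apply Subtype.ext
      change (fun P : Subgroup K => P.map K.subtype) '' ((fun P : Subgroup Γ => P.subgroupOf K) '' τ) = τ
      rw [← Set.image_comp]
      ext P
      constructor
      · rintro ⟨Q, hQ, rfl⟩
        change (Q.subgroupOf K).map K.subtype ∈ τ
        rw [h3 Q hQ]
        exact hQ
      · intro hP
        exact ⟨P, hP, h3 P hP⟩
  · intro σ
    change _ = wt K F ((fun P : Subgroup K => P.map K.subtype) '' σ.1)
    unfold wt
    rw [stab_map, Set.ncard_image_of_injective _ hinj]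

/-- the number of commuting pairs -/
def cpr (J : Subgroup Γ) : ℤ := (Nat.card {q : Γ × Γ // (q.1 ∈ J ∧ q.2 ∈ J) ∧ q.1 * q.2 = q.2 * q.1} : ℤ)

lemma cpr_eq (J : Subgroup Γ) : cpr J = (Nat.card J : ℤ) * (Nat.card (ConjClasses J) : ℤ) := by
  have h := card_comm_eq_card_conjClasses_mul_card J
  have h2 : Nat.card {q : Γ × Γ // (q.1 ∈ J ∧ q.2 ∈ J) ∧ q.1 * q.2 = q.2 * q.1} =
      Nat.card {q : J × J // Commute q.1 q.2} := by
    refine Nat.card_congr
      { toFun := fun q => ⟨(⟨q.1.1, q.2.1.1⟩, ⟨q.1.2, q.2.1.2⟩), Subtype.ext q.2.2⟩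
        invFun := fun q => ⟨(q.1.1, q.1.2), ⟨q.1.1.2, q.1.2.2⟩, congrArg Subtype.val q.2⟩
        left_inv := fun q => rfl
        right_inv := fun q => rfl }
  unfold cpr
  rw [h2, h]
  push_cast
  ring

/-- `|Γ|` times the alternating sum of the numbers of conjugacy classes -/
def AK (p : ℕ) (Γ : Type) [Group Γ] : ℤ :=
  (Nat.card Γ : ℤ) * Pool.Agent.Y63.KR.alternatingSum p Γ
    (fun H => (Nat.card (ConjClasses H) : ℤ))

lemma AK_eq : AK p Γ = ∑ᶠ σ : {σ : Set (Subgroup Γ) // IsPChain p σ},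
      (-1) ^ σ.1.ncard * cpr (chainStabilizer σ.1) := by
  have : Fintype {σ : Set (Subgroup Γ) // IsPChain p σ} := Fintype.ofFinite _
  unfold AK
  rw [Pool.Agent.Y63.KR.card_mul_alternatingSum, finsum_eq_sum_of_fintype]
  · refine Finset.sum_congr rfl fun σ _ => ?_
    rw [cpr_eq]
  · rintro H K ⟨e⟩
    change (Nat.card (ConjClasses H) : ℤ) = (Nat.card (ConjClasses K) : ℤ)
    have hH := card_comm_eq_card_conjClasses_mul_card H
    have hK := card_comm_eq_card_conjClasses_mul_card K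
    have h1 : Nat.card {q : H × H // Commute q.1 q.2} = Nat.card {q : K × K // Commute q.1 q.2} := by
      refine Nat.card_congr (Equiv.subtypeEquiv (Equiv.prodCongr e.toEquiv e.toEquiv) fun q => ?_)
      change q.1 * q.2 = q.2 * q.1 ↔ e q.1 * e q.2 = e q.2 * e q.1
      rw [← map_mul, ← map_mul, e.injective.eq_iff]
    rw [hH, hK, Nat.card_congr e.toEquiv] at h1
    exact_mod_cast Nat.eq_of_mul_eq_mul_right Nat.card_pos h1

lemma AK_chs : AK p Γ = chs (Sp p (⊤ : Subgroup Γ)) (wt ⊤ cpr) := by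
  rw [AK_eq]
  unfold chs
  refine finsum_eq_of_bijective (fun σ : {σ : Set (Subgroup Γ) // IsPChain p σ} =>
    (⟨σ.1, fun P hP => ⟨σ.2.isPGroup P hP, σ.2.ne_bot P hP, le_top⟩, σ.2.chain⟩ :
      {σ : Set (Subgroup Γ) // σ ⊆ Sp p ⊤ ∧ IsChain (· ≤ ·) σ})) ⟨?_, ?_⟩ ?_
  · intro σ τ h
    exact Subtype.ext (congrArg (fun t => t.1) h)
  · rintro ⟨τ, h1, h2⟩
    exact ⟨⟨τ, h2, fun P hP => (h1 hP).1, fun P hP => (h1 hP).2.1⟩, rfl⟩
  · intro σ
    change _ = wt ⊤ cpr σ.1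
    unfold wt
    rw [top_inf_eq]

lemma AK_sub (K : Subgroup Γ) : chs (Sp p K) (wt K cpr) = AK p K := by
  rw [chs_subgroup, AK_eq]
  refine finsum_congr fun σ => ?_
  congr 1
  unfold cpr
  norm_cast
  refine Nat.card_congr
    { toFun := fun q => ⟨(⟨q.1.1, ?_⟩, ⟨q.1.2, ?_⟩), ⟨?_, ?_⟩, Subtype.ext q.2.2⟩
      invFun := fun q => ⟨(q.1.1, q.1.2), ⟨⟨q.1.1, q.2.1.1, rfl⟩, ⟨q.1.2, q.2.1.2, rfl⟩⟩,
        congrArg Subtype.val q.2.2⟩
      left_inv := fun q => rfl
      right_inv := fun q => rfl }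
  · obtain ⟨y, _, hy⟩ := q.2.1.1
    exact hy ▸ y.2
  · obtain ⟨y, _, hy⟩ := q.2.1.2
    exact hy ▸ y.2
  · obtain ⟨y, hy1, hy⟩ := q.2.1.1
    have : (⟨q.1.1, hy ▸ y.2⟩ : K) = y := Subtype.ext hy.symm
    change (⟨q.1.1, _⟩ : K) ∈ _
    rw [this]
    exact hy1
  · obtain ⟨y, hy1, hy⟩ := q.2.1.2
    have : (⟨q.1.2, hy ▸ y.2⟩ : K) = y := Subtype.ext hy.symm
    change (⟨q.1.2, _⟩ : K) ∈ _
    rw [this]
    exact hy1

end Pool.Agent.R674.Ce
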