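import Mathlib

/-!
# Sums over chains and closure operators
-/

set_option autoImplicit false

open scoped Classical

set_option linter.unusedSectionVars false

noncomputable section

namespace Pool.Agent.R674.Ce

section

variable {α : Type} [PartialOrder α] [Finite α]

/-- the sum of `w` over the chains contained in `X` -/
def chs (X : Set α) (w : Set α → ℤ) : ℤ :=
  ∑ᶠ σ : {σ : Set α // σ ⊆ X ∧ IsChain (· ≤ ·) σ}, w σ.1

lemma chs_eq [Fintype (Set α)] (X : Set α) (w : Set α → ℤ) :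
    chs X w = ∑ σ ∈ (Finset.univ : Finset (Set α)).filter
      (fun σ => σ ⊆ X ∧ IsChain (· ≤ ·) σ), w σ := by
  have : Fintype {σ : Set α // σ ⊆ X ∧ IsChain (· ≤ ·) σ} := Fintype.ofFinite _
  unfold chs
  rw [finsum_eq_sum_of_fintype]
  exact (Finset.sum_subtype _ (by simp) w).symm

variable [Nonempty α]

/-- the least element of `σ` which is not fixed by `c` -/
def lm (c : α → α) (σ : Set α) : α :=
  Classical.epsilon fun a => a ∈ σ ∧ c a ≠ a ∧ ∀ b ∈ σ, c b ≠ b → a ≤ b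

lemma lm_eq {c : α → α} {σ : Set α} {a : α} (h : a ∈ σ ∧ c a ≠ a ∧ ∀ b ∈ σ, c b ≠ b → a ≤ b) :
    lm c σ = a := by
  have h1 := Classical.epsilon_spec (p := fun a => a ∈ σ ∧ c a ≠ a ∧ ∀ b ∈ σ, c b ≠ b → a ≤ b) ⟨a, h⟩
  exact le_antisymm (h1.2.2 a h.1 h.2.1) (h.2.2 _ h1.1 h1.2.1)

lemma lm_spec {c : α → α} {σ : Set α} (hσ : IsChain (· ≤ ·) σ) (h : ∃ a ∈ σ, c a ≠ a) :
    lm c σ ∈ σ ∧ c (lm c σ) ≠ lm c σ ∧ ∀ b ∈ σ, c b ≠ b → lm c σ ≤ b := by
  obtain ⟨a, ha, ha'⟩ := h
  obtain ⟨m, hm1, hm2⟩ := (Set.toFinite {b | b ∈ σ ∧ c b ≠ b}).exists_minimal ⟨a, ha, ha'⟩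
  have h1 : m ∈ σ ∧ c m ≠ m ∧ ∀ b ∈ σ, c b ≠ b → m ≤ b := by
    refine ⟨hm1.1, hm1.2, fun b hb hb' => ?_⟩
    rcases hσ.total hm1.1 hb with h | h
    · exact h
    · exact hm2 ⟨hb, hb'⟩ h
  rw [lm_eq h1]
  exact h1

/-- remove or insert `c (lm c σ)` -/
def tog (c : α → α) (σ : Set α) : Set α :=
  if c (lm c σ) ∈ σ then σ \ {c (lm c σ)} else insert (c (lm c σ)) σ

theorem chs_closure (X : Set α) (c : α → α) (h1 : ∀ a ∈ X, c a ∈ X)
    (h2 : ∀ a ∈ X, c (c a) = c a) (h3 : ∀ a ∈ X, ∀ b ∈ X, a ≤ b → c a ≤ c b)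
    (h4 : ∀ a ∈ X, c a ≤ a) (w : Set α → ℤ)
    (hw : ∀ σ : Set α, σ ⊆ X → IsChain (· ≤ ·) σ → ∀ a ∈ σ, c a ∉ σ →
      w (insert (c a) σ) = - w σ) :
    chs X w = chs {a | a ∈ X ∧ c a = a} w := by
  have : Fintype (Set α) := Fintype.ofFinite _
  rw [chs_eq, chs_eq, ← Finset.sum_filter_add_sum_filter_not _ (fun σ => ∃ a ∈ σ, c a ≠ a)]
  have e2 : (((Finset.univ : Finset (Set α)).filter
      (fun σ => σ ⊆ X ∧ IsChain (· ≤ ·) σ)).filter (fun σ => ¬ ∃ a ∈ σ, c a ≠ a)) =
      (Finset.univ : Finset (Set α)).filter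
      (fun σ => σ ⊆ {a | a ∈ X ∧ c a = a} ∧ IsChain (· ≤ ·) σ) := by
    ext σ
    simp only [Finset.mem_filter, Finset.mem_univ, true_and]
    constructor
    · rintro ⟨⟨h5, h6⟩, h7⟩
      refine ⟨fun a ha => ⟨h5 ha, ?_⟩, h6⟩
      by_contra h8
      exact h7 ⟨a, ha, h8⟩
    · rintro ⟨h5, h6⟩
      refine ⟨⟨fun a ha => (h5 ha).1, h6⟩, ?_⟩
      rintro ⟨a, ha, h8⟩
      exact h8 (h5 ha).2
  rw [e2]
  have e1 : ∑ σ ∈ ((Finset.univ : Finset (Set α)).filter
      (fun σ => σ ⊆ X ∧ IsChain (· ≤ ·) σ)).filter (fun σ => ∃ a ∈ σ, c a ≠ a), w σ = 0 := by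
    have key : ∀ σ ∈ ((Finset.univ : Finset (Set α)).filter
        (fun σ => σ ⊆ X ∧ IsChain (· ≤ ·) σ)).filter (fun σ => ∃ a ∈ σ, c a ≠ a),
        (tog c σ ⊆ X ∧ IsChain (· ≤ ·) (tog c σ) ∧ ∃ a ∈ tog c σ, c a ≠ a) ∧
        lm c (tog c σ) = lm c σ ∧ tog c (tog c σ) = σ ∧ w (tog c σ) = - w σ ∧ tog c σ ≠ σ := by
      intro σ hσ
      simp only [Finset.mem_filter, Finset.mem_univ, true_and] at hσ
      obtain ⟨⟨hX, hc⟩, hne⟩ := hσ
      obtain ⟨hm1, hm2, hm3⟩ := lm_spec hc hne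
      set m := lm c σ with hm
      have hmX := hX hm1
      have hcc := h2 m hmX
      have hcmp : ∀ b ∈ σ, b ≤ c m ∨ c m ≤ b := by
        intro b hb
        rcases hc.total hb hm1 with h | h
        · by_cases hb' : c b = b
          · left
            rw [← hb']
            exact h3 b (hX hb) m hmX h
          · right
            exact (h4 m hmX).trans (hm3 b hb hb')
        · right
          exact (h4 m hmX).trans h
      have hbm : ∀ b, c b ≠ b → b ≠ c m := fun b hb h => hb (by rw [h]; exact hcc)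
      by_cases hmem : c m ∈ σ
      · have ht : tog c σ = σ \ {c m} := by
          unfold tog
          rw [← hm, if_pos hmem]
        have hlm : lm c (tog c σ) = m := by
          rw [ht]
          refine lm_eq ⟨⟨hm1, fun h => hm2 h.symm⟩, hm2, fun b hb hb' => hm3 b hb.1 hb'⟩
        have hin : insert (c m) (σ \ {c m}) = σ := by
          rw [Set.insert_sdiff_singleton, Set.insert_eq_of_mem hmem]
        refine ⟨⟨?_, ?_, ?_⟩, hlm, ?_, ?_, ?_⟩
        · rw [ht]; exact Set.sdiff_subset.trans hX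
        · rw [ht]; exact hc.mono Set.sdiff_subset
        · rw [ht]; exact ⟨m, ⟨hm1, fun h => hm2 h.symm⟩, hm2⟩
        · have : tog c (tog c σ) = insert (c m) (tog c σ) := by
            conv_lhs => unfold tog
            rw [show lm c (if c (lm c σ) ∈ σ then σ \ {c (lm c σ)} else insert (c (lm c σ)) σ) = m
              from hlm]
            change (if c m ∈ tog c σ then tog c σ \ {c m} else insert (c m) (tog c σ)) = _
            rw [ht, if_neg (fun h => h.2 rfl)]
          rw [this, ht, hin]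
        · rw [ht]
          have h5 := hw (σ \ {c m}) (Set.sdiff_subset.trans hX) (hc.mono Set.sdiff_subset) m
            ⟨hm1, fun h => hm2 h.symm⟩ (fun h => h.2 rfl)
          rw [hin] at h5
          rw [h5, neg_neg]
        · rw [ht]
          intro h
          rw [← h] at hmem
          exact hmem.2 rfl
      · have ht : tog c σ = insert (c m) σ := by
          unfold tog
          rw [← hm, if_neg hmem]
        have hlm : lm c (tog c σ) = m := by
          rw [ht]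
          refine lm_eq ⟨Set.mem_insert_of_mem _ hm1, hm2, ?_⟩
          rintro b (rfl | hb) hb'
          · exact absurd hcc hb'
          · exact hm3 b hb hb'
        refine ⟨⟨?_, ?_, ?_⟩, hlm, ?_, ?_, ?_⟩
        · rw [ht]
          exact Set.insert_subset (h1 m hmX) hX
        · rw [ht]
          refine hc.insert fun b hb _ => (hcmp b hb).symm
        · rw [ht]; exact ⟨m, Set.mem_insert_of_mem _ hm1, hm2⟩
        · have : tog c (tog c σ) = (tog c σ) \ {c m} := by
            conv_lhs => unfold tog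
            rw [show lm c (if c (lm c σ) ∈ σ then σ \ {c (lm c σ)} else insert (c (lm c σ)) σ) = m
              from hlm]
            change (if c m ∈ tog c σ then tog c σ \ {c m} else insert (c m) (tog c σ)) = _
            rw [ht, if_pos (Set.mem_insert _ _)]
          rw [this, ht]
          exact Set.insert_sdiff_self_of_notMem hmem
        · rw [ht]
          exact hw σ hX hc m hm1 hmem
        · rw [ht]
          intro h
          exact hmem (h ▸ Set.mem_insert _ _)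
    refine Finset.sum_involution (fun σ _ => tog c σ) ?_ ?_ ?_ ?_
    · intro σ hσ
      rw [(key σ hσ).2.2.2.1, add_neg_cancel]
    · intro σ hσ _
      exact (key σ hσ).2.2.2.2
    · intro σ hσ
      simp only [Finset.mem_filter, Finset.mem_univ, true_and]
      obtain ⟨h5, h6, h7⟩ := (key σ hσ).1
      exact ⟨⟨h5, h6⟩, h7⟩
    · intro σ hσ
      exact (key σ hσ).2.2.1
  rw [e1, zero_add]

theorem chs_closure' (X : Set α) (c : α → α) (h1 : ∀ a ∈ X, c a ∈ X)
    (h2 : ∀ a ∈ X, c (c a) = c a) (h3 : ∀ a ∈ X, ∀ b ∈ X, a ≤ b → c a ≤ c b)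
    (h4 : ∀ a ∈ X, a ≤ c a) (w : Set α → ℤ)
    (hw : ∀ σ : Set α, σ ⊆ X → IsChain (· ≤ ·) σ → ∀ a ∈ σ, c a ∉ σ →
      w (insert (c a) σ) = - w σ) :
    chs X w = chs {a | a ∈ X ∧ c a = a} w := by
  have hs : ∀ σ : Set α, IsChain (α := αᵒᵈ) (· ≤ ·) σ ↔ IsChain (α := α) (· ≤ ·) σ := by
    intro σ
    constructor
    · intro h a ha b hb hab
      exact (h ha hb hab).symm
    · intro h a ha b hb hab
      exact (h ha hb hab).symm
  have h := chs_closure (α := αᵒᵈ) X c h1 h2 (fun a ha b hb hab => h3 b hb a ha hab) h4 w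
    (fun σ hX hc a ha hn => hw σ hX ((hs σ).1 hc) a ha hn)
  have e : ∀ Y : Set α, chs (α := αᵒᵈ) Y w = chs (α := α) Y w := by
    intro Y
    unfold chs
    exact finsum_comp_equiv (f := fun σ : {σ : Set α // σ ⊆ Y ∧ IsChain (α := α) (· ≤ ·) σ} => w σ.1)
      (Equiv.subtypeEquivRight (p := fun σ : Set α => σ ⊆ Y ∧ IsChain (α := αᵒᵈ) (· ≤ ·) σ)
        fun σ => and_congr_right fun _ => hs σ)
  rw [← e, ← e]
  exact h

end

end Pool.Agent.R674.Ce
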